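import Mathlib

/-!
Continuous first-order logic of tracial von Neumann algebras: structures, formulas, types,
dividing, simplicity.
-/

open Filter Topology
open scoped ComplexOrder

namespace Pool.Agent.Y563.CLT

/-- Structures for the language of tracial von Neumann algebras. -/
structure Str : Type 1 where
  carrier : Type
  zero : carrier
  one : carrier
  add : carrier → carrier → carrier
  mul : carrier → carrier → carrier
  adj : carrier → carrier
  smul : ℂ → carrier → carrier
  nrm : carrier → ℝ
  tr : carrier → ℂ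

section
variable {H : Type} [NormedAddCommGroup H] [InnerProductSpace ℂ H] [CompleteSpace H]

/-- `tr` is a tracial state on `M` (only the restriction of `tr` to `M` matters). -/
structure IsTracialState (M : VonNeumannAlgebra H) (tr : (H →L[ℂ] H) → ℂ) : Prop where
  add : ∀ x ∈ M, ∀ y ∈ M, tr (x + y) = tr x + tr y
  smul : ∀ c : ℂ, ∀ x ∈ M, tr (c • x) = c * tr x
  one : tr 1 = 1
  nonneg : ∀ x ∈ M, 0 ≤ tr (star x * x)
  comm : ∀ x ∈ M, ∀ y ∈ M, tr (x * y) = tr (y * x)

/-- `tr` is faithful on `M`. -/
def IsFaithful (M : VonNeumannAlgebra H) (tr : (H →L[ℂ] H) → ℂ) : Prop :=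
  ∀ x ∈ M, tr (star x * x) = 0 → x = 0

/-- `tr` is normal on `M`: continuous on norm-bounded subsets of `M` for the weak operator
topology. -/
def IsNormalOn (M : VonNeumannAlgebra H) (tr : (H →L[ℂ] H) → ℂ) : Prop :=
  ∀ (F : Filter (H →L[ℂ] H)) (C : ℝ), ∀ x ∈ M, (∀ᶠ y in F, y ∈ M ∧ ‖y‖ ≤ C) →
    (∀ ξ η : H, Tendsto (fun y : H →L[ℂ] H => inner ℂ ξ (y η)) F (𝓝 (inner ℂ ξ (x η)))) →
    Tendsto tr F (𝓝 (tr x))

/-- The von Neumann algebra `M` with `tr` as a structure. -/
noncomputable def vnStr (M : VonNeumannAlgebra H) (tr : (H →L[ℂ] H) → ℂ) : Str where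
  carrier := {x : H →L[ℂ] H // x ∈ M}
  zero := ⟨0, zero_mem M⟩
  one := ⟨1, one_mem M⟩
  add x y := ⟨x.1 + y.1, add_mem x.2 y.2⟩
  mul x y := ⟨x.1 * y.1, mul_mem x.2 y.2⟩
  adj x := ⟨star x.1, star_mem x.2⟩
  smul c x := ⟨c • x.1, M.toStarSubalgebra.smul_mem x.2 c⟩
  nrm x := ‖x.1‖
  tr x := tr x.1

/-- A factor: the centre of `M` is trivial. -/
def IsFactor (M : VonNeumannAlgebra H) : Prop :=
  ∀ x ∈ M, (∀ y ∈ M, x * y = y * x) → ∃ c : ℂ, x = c • 1

/-- Finite-dimensional: contained in the linear span of a finite set. -/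
def IsFinDim (S : Set (H →L[ℂ] H)) : Prop :=
  ∃ s : Finset (H →L[ℂ] H), S ⊆ Submodule.span ℂ (s : Set (H →L[ℂ] H))

/-- Hyperfinite: `M` is generated, as a von Neumann algebra, by the union of an increasing
sequence of finite-dimensional *-subalgebras. -/
def IsHyperfinite (M : VonNeumannAlgebra H) : Prop :=
  ∃ A : ℕ → StarSubalgebra ℂ (H →L[ℂ] H), Monotone A ∧ (∀ n, IsFinDim (A n : Set (H →L[ℂ] H))) ∧
    Set.centralizer (Set.centralizer (⋃ n, (A n : Set (H →L[ℂ] H)))) = (M : Set (H →L[ℂ] H))

end

/-- A tracial von Neumann algebra: a von Neumann algebra with a faithful normal tracial state. -/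
structure TracialVN : Type 1 where
  H : Type
  [instN : NormedAddCommGroup H]
  [instI : InnerProductSpace ℂ H]
  [instC : CompleteSpace H]
  M : VonNeumannAlgebra H
  tr : (H →L[ℂ] H) → ℂ
  state : IsTracialState M tr
  faithful : IsFaithful M tr
  normal : IsNormalOn M tr

attribute [instance] TracialVN.instN TracialVN.instI TracialVN.instC

/-- A tracial von Neumann algebra as a structure. -/
noncomputable def TracialVN.str (N : TracialVN) : Str := vnStr N.M N.tr

/-- A hyperfinite II₁ factor: a hyperfinite infinite-dimensional factor with a faithful normal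
tracial state. -/
def TracialVN.IsHyperfiniteIIOneFactor (N : TracialVN) : Prop :=
  IsFactor N.M ∧ ¬ IsFinDim (N.M : Set (N.H →L[ℂ] N.H)) ∧ IsHyperfinite N.M

/-- Terms: *-polynomials in variables from `α`. -/
inductive Term (α : Type) : Type
  | var : α → Term α
  | zero : Term α
  | one : Term α
  | add : Term α → Term α → Term α
  | mul : Term α → Term α → Term α
  | adj : Term α → Term α
  | smul : ℂ → Term α → Term α

/-- The value of a term. -/
noncomputable def Term.eval (N : Str) {α : Type} (v : α → N.carrier) : Term α → N.carrier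
  | .var a => v a
  | .zero => N.zero
  | .one => N.one
  | .add s t => N.add (s.eval N v) (t.eval N v)
  | .mul s t => N.mul (s.eval N v) (t.eval N v)
  | .adj t => N.adj (t.eval N v)
  | .smul c t => N.smul c (t.eval N v)

/-- Continuous first-order formulas, with variables from `β` and `n` further variables `Fin n`.
Atomic formulas are real and imaginary parts of traces of terms, connectives are all continuous
functions, quantifiers range over the operator-norm ball of radius `r + 1`. -/
inductive Fml (β : Type) : ℕ → Type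
  | re {n : ℕ} (t : Term (β ⊕ Fin n)) : Fml β n
  | im {n : ℕ} (t : Term (β ⊕ Fin n)) : Fml β n
  | conn {n : ℕ} (k : ℕ) (u : (Fin k → ℝ) → ℝ) (hu : Continuous u) (φ : Fin k → Fml β n) :
      Fml β n
  | sup {n : ℕ} (r : ℕ) (φ : Fml β (n + 1)) : Fml β n
  | inf {n : ℕ} (r : ℕ) (φ : Fml β (n + 1)) : Fml β n

/-- The ball of radius `r + 1`. -/
def Ball (N : Str) (r : ℕ) : Type := {x : N.carrier // N.nrm x ≤ r + 1}

/-- Appending a value. -/
def snoc {A : Type} {n : ℕ} (w : Fin n → A) (x : A) : Fin (n + 1) → A :=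
  Fin.snoc w x

/-- The value of a formula. -/
noncomputable def Fml.eval (N : Str) {β : Type} (v : β → N.carrier) :
    {n : ℕ} → Fml β n → (Fin n → N.carrier) → ℝ
  | _, .re t, w => (N.tr (t.eval N (Sum.elim v w))).re
  | _, .im t, w => (N.tr (t.eval N (Sum.elim v w))).im
  | _, .conn _ u _ φ, w => u fun i => Fml.eval N v (φ i) w
  | _, .sup r φ, w => ⨆ x : Ball N r, Fml.eval N v φ (snoc w x.1)
  | _, .inf r φ, w => ⨅ x : Ball N r, Fml.eval N v φ (snoc w x.1)

/-- The value of a formula without further variables. -/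
noncomputable def Fml.val (N : Str) {β : Type} (v : β → N.carrier) (φ : Fml β 0) : ℝ :=
  φ.eval N v Fin.elim0

/-- `R` and `N` satisfy the same sentences. -/
def ElemEquiv (R N : Str) : Prop := ∀ φ : Fml Empty 0, φ.val N Empty.elim = φ.val R Empty.elim

/-- `f : N → N'` is an elementary embedding. -/
def IsElemEmb (N N' : Str) (f : N.carrier → N'.carrier) : Prop :=
  (∀ x, N'.nrm (f x) = N.nrm x) ∧
  ∀ (β : Type) (φ : Fml β 0) (v : β → N.carrier), φ.val N' (f ∘ v) = φ.val N v

/-- The set of conditions `φ(x, b k) = p φ`, `k` in an index set, is consistent: finitely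
approximately satisfied by tuples `x` in `N` with `x i` in the ball of radius `r i + 1`. -/
def Consistent (N : Str) {K B : Type} {n : ℕ} (r : Fin n → ℕ) (b : K → B → N.carrier)
    (p : Fml B n → ℝ) : Prop :=
  ∀ (s : Finset (K × Fml B n)) (ε : ℝ), 0 < ε → ∃ x : Fin n → N.carrier,
    (∀ i, N.nrm (x i) ≤ r i + 1) ∧ ∀ q ∈ s, |q.2.eval N (b q.1) x - p q.2| < ε

/-- `p` is a complete type over `B ⊆ N` in `n` variables, the `i`-th one ranging over the ball of
radius `r i + 1`: it gives a value to each formula over `B`, and is finitely approximately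
satisfiable in `N`. -/
def IsType (N : Str) (B : Set N.carrier) {n : ℕ} (r : Fin n → ℕ) (p : Fml B n → ℝ) : Prop :=
  Consistent N r (fun (_ : Unit) (c : B) => c.1) p

/-- `A` is separable for the trace norm `‖x‖₂ = tr(x* x)^{1/2}`. -/
def Separable (N : Str) (A : Set N.carrier) : Prop :=
  ∃ D ⊆ A, D.Countable ∧ ∀ a ∈ A, ∀ ε > 0, ∃ d ∈ D,
    (N.tr (N.mul (N.adj (N.add a (N.smul (-1) d))) (N.add a (N.smul (-1) d)))).re < ε

/-- The sequence `b` of `B`-indexed families in `N` is indiscernible over `A`. -/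
def Indiscernible (N : Str) {B : Type} (A : Set N.carrier) (b : ℕ → B → N.carrier) : Prop :=
  ∀ (m : ℕ) (s t : Fin m → ℕ), StrictMono s → StrictMono t →
    ∀ φ : Fml (A ⊕ Fin m × B) 0,
      φ.val N (Sum.elim (fun a : A => a.1) fun p => b (s p.1) p.2) =
      φ.val N (Sum.elim (fun a : A => a.1) fun p => b (t p.1) p.2)

/-- The type `p = p(x, B)` divides over `A`: in some elementary extension `N'` of `N` there is an
`A`-indiscernible sequence `(b k)` of copies of `B`, beginning with `B` itself, such that the union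
of the `p(x, b k)` is inconsistent. -/
def Divides (N : Str) (B : Set N.carrier) {n : ℕ} (r : Fin n → ℕ) (p : Fml B n → ℝ)
    (A : Set N.carrier) : Prop :=
  ∃ (N' : TracialVN) (f : N.carrier → N'.str.carrier) (b : ℕ → B → N'.str.carrier),
    IsElemEmb N N'.str f ∧ (∀ c, b 0 c = f c.1) ∧ Indiscernible N'.str (f '' A) b ∧
    ¬ Consistent N'.str r b p

/-- The theory of `R` is simple: every type over a set `B` in a model does not divide over some
separable subset of `B`. -/
def IsSimpleTheory (R : TracialVN) : Prop :=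
  ∀ N : TracialVN, ElemEquiv R.str N.str → ∀ (B : Set N.str.carrier) (n : ℕ) (r : Fin n → ℕ)
    (p : Fml B n → ℝ), IsType N.str B r p →
    ∃ A ⊆ B, Separable N.str A ∧ ¬ Divides N.str B r p A

end Pool.Agent.Y563.CLT
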