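import Mathlib

/-!
Definitions: tracial von Neumann algebras, their continuous first-order logic, types, dividing,
simplicity.
-/

open Filter Topology
open scoped ComplexOrder

namespace Pool.Agent.Y563.TVN

/-- A tracial von Neumann algebra: a von Neumann algebra `M` on a Hilbert space `H` with a faithful
normal tracial state `tr` (normal: weak-operator continuous on norm-bounded sets). -/
structure TracialVN where
  H : Type
  [instN : NormedAddCommGroup H]
  [instI : InnerProductSpace ℂ H]
  [instC : CompleteSpace H]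
  M : VonNeumannAlgebra H
  tr : M.toStarSubalgebra →ₗ[ℂ] ℂ
  tr_one : tr 1 = 1
  tr_nonneg : ∀ x, 0 ≤ tr (star x * x)
  tr_faithful : ∀ x, tr (star x * x) = 0 → x = 0
  tr_comm : ∀ x y, tr (x * y) = tr (y * x)
  tr_normal : ∀ (F : Filter M.toStarSubalgebra) (x : M.toStarSubalgebra) (C : ℝ),
    (∀ᶠ y : M.toStarSubalgebra in F, ‖(y : H →L[ℂ] H)‖ ≤ C) →
    (∀ ξ η : H, Tendsto (fun y : M.toStarSubalgebra => inner ℂ ξ ((y : H →L[ℂ] H) η)) F
      (𝓝 (inner ℂ ξ ((x : H →L[ℂ] H) η)))) →
    Tendsto (fun y => tr y) F (𝓝 (tr x))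

attribute [instance] TracialVN.instN TracialVN.instI TracialVN.instC

/-- The elements of a tracial von Neumann algebra. -/
abbrev TracialVN.Elt (N : TracialVN) : Type := N.M.toStarSubalgebra

/-- The operator norm. -/
noncomputable def TracialVN.opNorm (N : TracialVN) (x : N.Elt) : ℝ := ‖(x : N.H →L[ℂ] N.H)‖

/-- The trace norm `‖x‖₂ = tr(x* x)^{1/2}`. -/
noncomputable def TracialVN.norm2 (N : TracialVN) (x : N.Elt) : ℝ :=
  Real.sqrt (N.tr (star x * x)).re

/-- A factor: the centre is trivial. -/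
def TracialVN.IsFactor (N : TracialVN) : Prop :=
  ∀ x : N.Elt, (∀ y : N.Elt, x * y = y * x) → ∃ c : ℂ, x = c • (1 : N.Elt)

/-- Hyperfinite: generated, as a von Neumann algebra, by an increasing sequence of
finite-dimensional *-subalgebras. -/
def TracialVN.IsHyperfinite (N : TracialVN) : Prop :=
  ∃ A : ℕ → StarSubalgebra ℂ (N.H →L[ℂ] N.H), Monotone A ∧
    (∀ n, FiniteDimensional ℂ (A n)) ∧
    Set.centralizer (Set.centralizer (⋃ n, (A n : Set (N.H →L[ℂ] N.H)))) =
      (N.M : Set (N.H →L[ℂ] N.H))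

/-- A hyperfinite II₁ factor (infinite-dimensional finite factor, hyperfinite). -/
def TracialVN.IsHyperfiniteIIOneFactor (N : TracialVN) : Prop :=
  N.IsFactor ∧ ¬ FiniteDimensional ℂ N.Elt ∧ N.IsHyperfinite

/-- Terms: *-polynomials in variables from `α`. -/
inductive Term (α : Type) : Type
  | var : α → Term α
  | zero : Term α
  | one : Term α
  | add : Term α → Term α → Term α
  | mul : Term α → Term α → Term α
  | adj : Term α → Term α
  | smul : ℂ → Term α → Term α

/-- The value of a term. -/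
noncomputable def Term.eval {A : Type} [Ring A] [StarRing A] [Algebra ℂ A] {α : Type}
    (v : α → A) : Term α → A
  | .var a => v a
  | .zero => 0
  | .one => 1
  | .add s t => s.eval v + t.eval v
  | .mul s t => s.eval v * t.eval v
  | .adj t => star (t.eval v)
  | .smul c t => c • t.eval v

/-- Continuous first-order formulas, with variables from `β` and `n` further variables `Fin n`.
Atomic formulas are real and imaginary parts of traces of terms, connectives are all continuous
functions, quantifiers range over the operator-norm ball of radius `r + 1`. -/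
inductive Fml (β : Type) : ℕ → Type
  | re {n : ℕ} (t : Term (β ⊕ Fin n)) : Fml β n
  | im {n : ℕ} (t : Term (β ⊕ Fin n)) : Fml β n
  | conn {n : ℕ} (k : ℕ) (u : (Fin k → ℝ) → ℝ) (hu : Continuous u) (φ : Fin k → Fml β n) :
      Fml β n
  | sup {n : ℕ} (r : ℕ) (φ : Fml β (n + 1)) : Fml β n
  | inf {n : ℕ} (r : ℕ) (φ : Fml β (n + 1)) : Fml β n

/-- The value of a formula. -/
noncomputable def Fml.eval (N : TracialVN) {β : Type} (v : β → N.Elt) :
    {n : ℕ} → Fml β n → (Fin n → N.Elt) → ℝ
  | _, .re t, w => (N.tr (t.eval (Sum.elim v w))).re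
  | _, .im t, w => (N.tr (t.eval (Sum.elim v w))).im
  | _, .conn _ u _ φ, w => u fun i => Fml.eval N v (φ i) w
  | _, .sup r φ, w =>
      ⨆ x : {x : N.Elt // N.opNorm x ≤ r + 1}, Fml.eval N v φ (Fin.snoc w x.1)
  | _, .inf r φ, w =>
      ⨅ x : {x : N.Elt // N.opNorm x ≤ r + 1}, Fml.eval N v φ (Fin.snoc w x.1)

/-- `N` is a model of the theory of `R`. -/
def ElemEquiv (R N : TracialVN) : Prop :=
  ∀ φ : Fml Empty 0, φ.eval N Empty.elim ![] = φ.eval R Empty.elim ![]

/-- `f : N → N'` is an elementary embedding. -/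
def IsElemEmb (N N' : TracialVN) (f : N.Elt → N'.Elt) : Prop :=
  (∀ x, N'.opNorm (f x) = N.opNorm x) ∧
  ∀ (β : Type) (φ : Fml β 0) (v : β → N.Elt), φ.eval N' (f ∘ v) ![] = φ.eval N v ![]

/-- A complete type over `B ⊆ N` in `n` variables, the `i`-th one ranging over the ball of radius
`r i + 1`: it gives a value to each formula over `B`, and is finitely approximately satisfiable. -/
structure CType (N : TracialVN) (B : Set N.Elt) {n : ℕ} (r : Fin n → ℕ) where
  val : Fml B n → ℝ
  sat : ∀ (s : Finset (Fml B n)) (ε : ℝ), 0 < ε → ∃ x : Fin n → N.Elt,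
    (∀ i, N.opNorm (x i) ≤ r i + 1) ∧
    ∀ φ ∈ s, |φ.eval N (fun b : B => b.1) x - val φ| < ε

/-- `A` is separable for the trace norm. -/
def Separable (N : TracialVN) (A : Set N.Elt) : Prop :=
  ∃ D ⊆ A, D.Countable ∧ ∀ a ∈ A, ∀ ε > 0, ∃ d ∈ D, N.norm2 (a - d) < ε

/-- The sequence `b` of `B`-indexed families in `N` is indiscernible over `A`. -/
def Indiscernible (N : TracialVN) {B : Type} (A : Set N.Elt) (b : ℕ → B → N.Elt) : Prop :=
  ∀ (m : ℕ) (s t : Fin m → ℕ), StrictMono s → StrictMono t →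
    ∀ φ : Fml (A ⊕ Fin m × B) 0,
      φ.eval N (Sum.elim (fun a : A => a.1) fun p => b (s p.1) p.2) ![] =
      φ.eval N (Sum.elim (fun a : A => a.1) fun p => b (t p.1) p.2) ![]

/-- The type `p = p(x, B)` divides over `A`: in some elementary extension `N'` of `N` there is an
`A`-indiscernible sequence `(b k)` of copies of `B`, beginning with `B` itself, such that the union
of the `p(x, b k)` is inconsistent. -/
def CType.Divides {N : TracialVN} {B : Set N.Elt} {n : ℕ} {r : Fin n → ℕ} (p : CType N B r)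
    (A : Set N.Elt) : Prop :=
  ∃ (N' : TracialVN) (f : N.Elt → N'.Elt) (b : ℕ → B → N'.Elt),
    IsElemEmb N N' f ∧ (∀ c, b 0 c = f c.1) ∧ Indiscernible N' (f '' A) b ∧
    ¬ ∀ (s : Finset (ℕ × Fml B n)) (ε : ℝ), 0 < ε → ∃ x : Fin n → N'.Elt,
      (∀ i, N'.opNorm (x i) ≤ r i + 1) ∧
      ∀ q ∈ s, |q.2.eval N' (b q.1) x - p.val q.2| < ε

/-- The theory of `R` is simple: every type over a set `B` in a model does not divide over some
separable subset of `B`. -/
def IsSimpleTheory (R : TracialVN) : Prop :=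
  ∀ N : TracialVN, ElemEquiv R N → ∀ (B : Set N.Elt) (n : ℕ) (r : Fin n → ℕ) (p : CType N B r),
    ∃ A ⊆ B, Separable N A ∧ ¬ p.Divides A

end Pool.Agent.Y563.TVN
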