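import Mathlib
import Pool.Agent.Y563.TVNDef

/-!
Group von Neumann algebras `L(H)` of subgroups `H ≤ G`, acting on `ℓ²(G)`.
-/

open Filter Topology
open scoped ComplexConjugate ENNReal InnerProductSpace ComplexOrder

namespace Pool.Agent.Y563.TVN

/-- The Hilbert space `ℓ²(G)`. -/
abbrev Ell (G : Type) : Type := lp (fun _ : G => ℂ) 2

/-- The isometry `f ↦ f ∘ e` on `ℓ²(G)` given by a bijection `e` of `G`. -/
noncomputable def permIso {G : Type} (e : G ≃ G) : Ell G →ₗᵢ[ℂ] Ell G :=
    { toFun := fun f => ⟨fun h => f (e h), by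
        have h1 := (lp.memℓp f).summable (by norm_num)
        refine memℓp_gen ?_
        exact (e.summable_iff (f := fun h => ‖f h‖ ^ (2 : ENNReal).toReal)).2 h1⟩
      map_add' := fun f g => by ext h; rfl
      map_smul' := fun c f => by ext h; rfl
      norm_map' := fun f => by
        have h1 : (0 : ℝ) < (2 : ENNReal).toReal := by norm_num
        rw [lp.norm_eq_tsum_rpow h1, lp.norm_eq_tsum_rpow h1]
        congr 1
        exact e.tsum_eq (fun h => ‖f h‖ ^ (2 : ENNReal).toReal) }

/-- The operator `f ↦ f ∘ e` on `ℓ²(G)` given by a bijection `e` of `G`. -/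
noncomputable def permOp {G : Type} (e : G ≃ G) : Ell G →L[ℂ] Ell G :=
  (permIso e).toContinuousLinearMap

section basic
variable {G : Type}

theorem norm_sq_eq (f : Ell G) : ‖f‖ ^ 2 = ∑' g, ‖f g‖ ^ 2 := by
  have h1 : (0 : ℝ) < (2 : ENNReal).toReal := by norm_num
  have := lp.norm_rpow_eq_tsum h1 f
  simpa using this

theorem summable_sq (f : Ell G) : Summable fun g => ‖f g‖ ^ 2 := by
  have := (lp.memℓp f).summable (by norm_num)
  simpa using this

theorem mem_of_summable {f : G → ℂ} (h : Summable fun g => ‖f g‖ ^ 2) :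
    Memℓp (E := fun _ : G => ℂ) f 2 := by
  refine memℓp_gen ?_
  simpa using h

open Classical in
/-- Multiplication by the indicator function of `S`. -/
noncomputable def cutFun (S : Set G) (f : Ell G) : Ell G :=
  ⟨fun g => if g ∈ S then f g else 0, mem_of_summable (by
    refine Summable.of_nonneg_of_le (fun g => by positivity) (fun g => ?_) (summable_sq f)
    split_ifs with h
    · exact le_rfl
    · simp; )⟩

open Classical in
theorem cutFun_apply (S : Set G) (f : Ell G) (g : G) :
    cutFun S f g = if g ∈ S then f g else 0 := rfl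

theorem norm_cutFun_le (S : Set G) (f : Ell G) : ‖cutFun S f‖ ≤ ‖f‖ := by
  classical
  have : ‖cutFun S f‖ ^ 2 ≤ ‖f‖ ^ 2 := by
    rw [norm_sq_eq, norm_sq_eq]
    refine Summable.tsum_le_tsum (fun g => ?_) (summable_sq _) (summable_sq _)
    rw [cutFun_apply]
    split_ifs with h
    · exact le_rfl
    · simp
  exact le_of_sq_le_sq this (norm_nonneg _) 

/-- Multiplication by the indicator function of `S`, as an operator. -/
noncomputable def cut (S : Set G) : Ell G →L[ℂ] Ell G :=
  LinearMap.mkContinuous
    { toFun := cutFun S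
      map_add' := fun f g => by
        ext h
        show cutFun S (f + g) h = cutFun S f h + cutFun S g h
        simp only [cutFun_apply, lp.coeFn_add, Pi.add_apply]
        split_ifs <;> simp
      map_smul' := fun c f => by
        ext h
        show cutFun S (c • f) h = c • cutFun S f h
        simp only [cutFun_apply, lp.coeFn_smul, Pi.smul_apply]
        split_ifs <;> simp } 1 (fun f => by
      rw [one_mul]
      exact norm_cutFun_le S f)

open Classical in
theorem cut_apply (S : Set G) (f : Ell G) (g : G) :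
    cut S f g = if g ∈ S then f g else 0 := rfl

theorem permOp_apply (e : G ≃ G) (f : Ell G) (h : G) : (permOp e f) h = f (e h) := rfl

theorem permOp_mul (e e' : G ≃ G) : permOp e * permOp e' = permOp (e.trans e') := by
  ext f h
  rfl

theorem permOp_refl : permOp (Equiv.refl G) = 1 := by
  ext f h
  rfl

theorem star_permOp (e : G ≃ G) : star (permOp e) = permOp e.symm := by
  rw [ContinuousLinearMap.star_eq_adjoint]
  symm
  rw [ContinuousLinearMap.eq_adjoint_iff]
  intro x y
  have h1 := lp.hasSum_inner (𝕜 := ℂ) (permOp e.symm x) y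
  have h2 := lp.hasSum_inner (𝕜 := ℂ) x (permOp e y)
  have h3 := (e.symm.hasSum_iff (f := fun i => ⟪x i, (permOp e y) i⟫_ℂ)
    (a := ⟪x, permOp e y⟫_ℂ)).2 h2
  refine h1.unique ?_
  refine h3.congr_fun ?_
  intro i
  show ⟪(permOp e.symm x) i, y i⟫_ℂ = ⟪x (e.symm i), (permOp e y) (e.symm i)⟫_ℂ
  rw [permOp_apply, permOp_apply, e.apply_symm_apply]

theorem star_cut (S : Set G) : star (cut S) = cut S := by
  classical
  rw [ContinuousLinearMap.star_eq_adjoint]
  symm
  rw [ContinuousLinearMap.eq_adjoint_iff]
  intro x y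
  have h1 := lp.hasSum_inner (𝕜 := ℂ) (cut S x) y
  have h2 := lp.hasSum_inner (𝕜 := ℂ) x (cut S y)
  refine h1.unique ?_
  refine h2.congr_fun ?_
  intro i
  show ⟪(cut S x) i, y i⟫_ℂ = ⟪x i, (cut S y) i⟫_ℂ
  rw [cut_apply, cut_apply]
  split_ifs <;> simp

/-- the basis vector `δ_g` of `ℓ²(G)` -/
noncomputable def delta (g : G) : Ell G :=
  haveI := Classical.decEq G
  lp.single 2 g (1 : ℂ)

theorem delta_apply [DecidableEq G] (g h : G) : (delta g : Ell G) h = if h = g then 1 else 0 := by
  by_cases hh : h = g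
  · subst hh
    rw [if_pos rfl]
    exact @lp.single_apply_self G (fun _ : G => ℂ) _ (Classical.decEq G) 2 h (1 : ℂ)
  · rw [if_neg hh]
    exact @lp.single_apply_ne G (fun _ : G => ℂ) _ (Classical.decEq G) 2 g (1 : ℂ) h hh

theorem norm_delta (g : G) : ‖(delta g : Ell G)‖ = 1 := by
  let _ := Classical.decEq G
  exact (lp.norm_single (E := fun _ : G => ℂ) (p := 2) (by norm_num) g (1 : ℂ)).trans norm_one

theorem inner_delta (g : G) (y : Ell G) : ⟪(delta g : Ell G), y⟫_ℂ = y g := by
  let _ := Classical.decEq G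
  exact (lp.inner_single_left (𝕜 := ℂ) (G := fun _ : G => ℂ) g (1 : ℂ) y).trans (by simp)

/-- operators agreeing on the basis are equal -/
theorem ext_delta {x y : Ell G →L[ℂ] Ell G} (h : ∀ g, x (delta g) = y (delta g)) : x = y := by
  have key : ∀ z : Ell G →L[ℂ] Ell G, (∀ g, z (delta g) = 0) → z = 0 := by
    intro z hz
    ext f k
    show (z f) k = 0
    have h0 : (star z) (delta k) = 0 := by
      ext g
      show ((star z) (delta k)) g = 0
      rw [← inner_delta g, ContinuousLinearMap.star_eq_adjoint,
        ContinuousLinearMap.adjoint_inner_right, hz g, inner_zero_left]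
    rw [← inner_delta k, ← ContinuousLinearMap.adjoint_inner_left,
      ← ContinuousLinearMap.star_eq_adjoint, h0, inner_zero_left]
  have := key (x - y) (fun g => by
    rw [sub_apply, h g, sub_self])
  exact sub_eq_zero.1 this

end basic

section group
variable {G : Type} [Group G]

/-- the left regular representation: `(λ_g f)(h) = f(g⁻¹ h)` -/
noncomputable def lam (g : G) : Ell G →L[ℂ] Ell G := permOp (Equiv.mulLeft g⁻¹)

/-- the right regular representation: `(ρ_g f)(h) = f(h g)` -/
noncomputable def rho (g : G) : Ell G →L[ℂ] Ell G := permOp (Equiv.mulRight g)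

theorem lam_apply (g : G) (f : Ell G) (h : G) : (lam g f) h = f (g⁻¹ * h) := rfl

theorem rho_apply (g : G) (f : Ell G) (h : G) : (rho g f) h = f (h * g) := rfl

theorem lam_delta (g h : G) : lam g (delta h) = delta (g * h) := by
  classical
  ext k
  show (delta h : Ell G) (g⁻¹ * k) = (delta (g * h) : Ell G) k
  rw [delta_apply, delta_apply]
  have : g⁻¹ * k = h ↔ k = g * h := by
    constructor
    · rintro rfl; group
    · rintro rfl; group
  simp only [this]

theorem rho_delta (g h : G) : rho g (delta h) = delta (h * g⁻¹) := by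
  classical
  ext k
  show (delta h : Ell G) (k * g) = (delta (h * g⁻¹) : Ell G) k
  rw [delta_apply, delta_apply]
  have : k * g = h ↔ k = h * g⁻¹ := by
    constructor
    · rintro rfl; group
    · rintro rfl; group
  simp only [this]

theorem lam_mul (g h : G) : lam (g * h) = lam g * lam h := by
  unfold lam
  rw [permOp_mul]
  congr 1
  ext k
  show (g * h)⁻¹ * k = h⁻¹ * (g⁻¹ * k)
  group

theorem lam_one : lam (1 : G) = 1 := by
  unfold lam
  rw [← permOp_refl]
  congr 1
  ext k
  show (1 : G)⁻¹ * k = k
  group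

theorem star_lam (g : G) : star (lam g) = lam g⁻¹ := by
  unfold lam
  rw [star_permOp]
  congr 1
  ext k
  rfl

theorem star_rho (g : G) : star (rho g) = rho g⁻¹ := by
  unfold rho
  rw [star_permOp]
  congr 1
  ext k
  rfl

theorem lam_unitary (g : G) : lam g ∈ unitary (Ell G →L[ℂ] Ell G) := by
  rw [Unitary.mem_iff, star_lam, ← lam_mul, ← lam_mul, inv_mul_cancel, mul_inv_cancel, lam_one]
  exact ⟨rfl, rfl⟩

theorem lam_rho (g h : G) : lam g * rho h = rho h * lam g := by
  unfold lam rho
  rw [permOp_mul, permOp_mul]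
  congr 1
  ext k
  show g⁻¹ * k * h = g⁻¹ * (k * h)
  group

theorem norm_lam_apply (g : G) (f : Ell G) : ‖lam g f‖ = ‖f‖ :=
  (permIso (Equiv.mulLeft g⁻¹)).norm_map f

theorem norm_rho_apply (g : G) (f : Ell G) : ‖rho g f‖ = ‖f‖ :=
  (permIso (Equiv.mulRight g)).norm_map f

theorem coef_apply {x : Ell G →L[ℂ] Ell G} (hx : ∀ g, x * rho g = rho g * x) (h k : G) :
    (x (delta h)) k = (x (delta 1)) (k * h⁻¹) := by
  have h1 : (delta h : Ell G) = rho h⁻¹ (delta 1) := by
    rw [rho_delta]
    congr 1
    group
  have h2 := congrArg (fun z : Ell G →L[ℂ] Ell G => z (delta 1)) (hx h⁻¹)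
  have h3 : x (rho h⁻¹ (delta 1)) = rho h⁻¹ (x (delta 1)) := h2
  rw [h1, h3]
  rfl

theorem norm_apply_delta {x : Ell G →L[ℂ] Ell G} (hx : ∀ g, x * rho g = rho g * x) (h : G) :
    ‖x (delta h)‖ = ‖x (delta 1)‖ := by
  have h1 : (delta h : Ell G) = rho h⁻¹ (delta 1) := by
    rw [rho_delta]
    congr 1
    group
  have h2 := congrArg (fun z : Ell G →L[ℂ] Ell G => z (delta 1)) (hx h⁻¹)
  have h3 : x (rho h⁻¹ (delta 1)) = rho h⁻¹ (x (delta 1)) := h2
  rw [h1, h3, norm_rho_apply]

theorem star_coef {x : Ell G →L[ℂ] Ell G} (hx : ∀ g, x * rho g = rho g * x) (h : G) :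
    ((star x) (delta 1)) h = conj ((x (delta 1)) h⁻¹) := by
  rw [← inner_delta h, ContinuousLinearMap.star_eq_adjoint,
    ContinuousLinearMap.adjoint_inner_right, ← inner_conj_symm, inner_delta,
    coef_apply hx h 1, one_mul]

/-- an operator commuting with right translations: the trace property -/
theorem norm_star_delta {x : Ell G →L[ℂ] Ell G} (hx : ∀ g, x * rho g = rho g * x) :
    ‖(star x) (delta 1)‖ = ‖x (delta 1)‖ := by
  have h1 : (0 : ℝ) < (2 : ENNReal).toReal := by norm_num
  rw [lp.norm_eq_tsum_rpow h1, lp.norm_eq_tsum_rpow h1]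
  congr 1
  rw [← (Equiv.inv G).tsum_eq (fun h => ‖(x (delta 1)) h‖ ^ (2 : ENNReal).toReal)]
  refine tsum_congr fun h => ?_
  rw [star_coef hx h, RCLike.norm_conj]
  rfl

theorem star_comm_rho {x : Ell G →L[ℂ] Ell G} (hx : ∀ g, x * rho g = rho g * x) (g : G) :
    star x * rho g = rho g * star x := by
  have h1 := congrArg star (hx g⁻¹)
  rw [star_mul, star_mul, star_rho, inv_inv] at h1
  exact h1.symm

theorem coef_ext {x y : Ell G →L[ℂ] Ell G} (hx : ∀ g, x * rho g = rho g * x)
    (hy : ∀ g, y * rho g = rho g * y) (h : ∀ g, (x (delta 1)) g = (y (delta 1)) g) : x = y := by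
  refine ext_delta fun g => ?_
  ext k
  rw [coef_apply hx, coef_apply hy, h]

/-- The von Neumann algebra of the subgroup `H` acting on `ℓ²(G)`. -/
noncomputable def LH (H : Subgroup G) : VonNeumannAlgebra (Ell G) where
  toStarSubalgebra := StarSubalgebra.centralizer ℂ (Set.range (rho (G := G)) ∪ {cut (H : Set G)})
  centralizer_centralizer' := by
    show Set.centralizer (Set.centralizer ((StarSubalgebra.centralizer ℂ
      (Set.range (rho (G := G)) ∪ {cut (H : Set G)}) : StarSubalgebra ℂ (Ell G →L[ℂ] Ell G)) :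
        Set (Ell G →L[ℂ] Ell G))) = _
    rw [StarSubalgebra.coe_centralizer, Set.centralizer_centralizer_centralizer]
    rfl

theorem mem_LH {H : Subgroup G} {x : Ell G →L[ℂ] Ell G} : x ∈ LH H ↔
    (∀ g, x * rho g = rho g * x) ∧ ∀ g ∉ H, (x (delta 1)) g = 0 := by
  classical
  have h0 : x ∈ LH H ↔ ∀ t ∈ (Set.range (rho (G := G)) ∪ {cut (H : Set G)} :
      Set (Ell G →L[ℂ] Ell G)), t * x = x * t ∧ star t * x = x * star t :=
    StarSubalgebra.mem_centralizer_iff (R := ℂ)
  rw [h0]
  constructor
  · intro h
    refine ⟨fun g => ((h _ (Or.inl ⟨g, rfl⟩)).1).symm, fun g hg => ?_⟩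
    have h1 := (h (cut (H : Set G)) (Or.inr rfl)).1
    have h2 := congrArg (fun z : Ell G →L[ℂ] Ell G => (z (delta 1)) g) h1
    have h3 : cut (H : Set G) (delta 1) = delta 1 := by
      ext k
      rw [cut_apply]
      split_ifs with hk
      · rfl
      · rw [delta_apply, if_neg]
        rintro rfl
        exact hk H.one_mem
    have h4 : (cut (H : Set G) (x (delta 1))) g = (x (cut (H : Set G) (delta 1))) g := h2
    have hg' : g ∉ (H : Set G) := hg
    rw [h3, cut_apply, if_neg hg'] at h4
    exact h4.symm
  · rintro ⟨h1, h2⟩ t ht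
    have key : cut (H : Set G) * x = x * cut (H : Set G) := by
      refine ext_delta fun g => ?_
      ext k
      show (cut (H : Set G) (x (delta g))) k = (x (cut (H : Set G) (delta g))) k
      have h3 : cut (H : Set G) (delta g) = if g ∈ H then delta g else 0 := by
        ext k
        rw [cut_apply]
        by_cases hg : g ∈ H
        · rw [if_pos hg]
          split_ifs with hk
          · rfl
          · rw [delta_apply, if_neg]
            rintro rfl
            exact hk hg
        · rw [if_neg hg]
          split_ifs with hk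
          · rw [delta_apply, if_neg]
            · rfl
            rintro rfl
            exact hg hk
          · rfl
      rw [h3, cut_apply]
      by_cases hg : g ∈ H
      · rw [if_pos hg]
        split_ifs with hk
        · rfl
        · rw [coef_apply h1, h2]
          intro hm
          apply hk
          have := H.mul_mem hm hg
          simpa using this
      · rw [if_neg hg, map_zero]
        split_ifs with hk
        · rw [coef_apply h1, h2]
          · rfl
          intro hm
          apply hg
          have hk' : k ∈ H := hk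
          have := H.mul_mem (H.inv_mem hm) hk'
          simpa using this
        · rfl
    rcases ht with ⟨g, rfl⟩ | ht
    · rw [star_rho]
      exact ⟨(h1 g).symm, (h1 g⁻¹).symm⟩
    · rw [Set.mem_singleton_iff] at ht
      subst ht
      rw [star_cut]
      exact ⟨key, key⟩

theorem lam_mem {H : Subgroup G} {g : G} (hg : g ∈ H) : lam g ∈ LH H := by
  classical
  rw [mem_LH]
  refine ⟨fun k => lam_rho g k, fun k hk => ?_⟩
  rw [lam_delta, delta_apply, if_neg]
  rintro rfl
  exact hk (by simpa using hg)

theorem LH_mono {H K : Subgroup G} (h : H ≤ K) {x : Ell G →L[ℂ] Ell G} (hx : x ∈ LH H) :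
    x ∈ LH K := by
  rw [mem_LH] at hx ⊢
  exact ⟨hx.1, fun g hg => hx.2 g fun hg' => hg (h hg')⟩

end group

end Pool.Agent.Y563.TVN
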