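import Mathlib
import Pool.Agent.Y563.GvN

/-!
`L(H)` as a tracial von Neumann algebra; the trace norm.
-/

open Filter Topology
open scoped ComplexConjugate ENNReal InnerProductSpace ComplexOrder

namespace Pool.Agent.Y563.TVN

variable {G : Type} [Group G]

theorem tau_star_mul (x : Ell G →L[ℂ] Ell G) :
    ((star x * x) (delta 1)) 1 = ((‖x (delta 1)‖ ^ 2 : ℝ) : ℂ) := by
  rw [← inner_delta (1 : G) ((star x * x) (delta 1)), ContinuousLinearMap.star_eq_adjoint]
  show ⟪(delta 1 : Ell G), (ContinuousLinearMap.adjoint x) (x (delta 1))⟫_ℂ = _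
  rw [ContinuousLinearMap.adjoint_inner_right, inner_self_eq_norm_sq_to_K]
  norm_cast

theorem tau_mul {x y : Ell G →L[ℂ] Ell G} (hx : ∀ g, x * rho g = rho g * x) :
    HasSum (fun g : G => (x (delta 1)) g⁻¹ * (y (delta 1)) g) (((x * y) (delta 1)) 1) := by
  have h1 := lp.hasSum_inner (𝕜 := ℂ) ((star x) (delta 1)) (y (delta 1))
  have h2 : ⟪(star x) (delta 1), y (delta 1)⟫_ℂ = ((x * y) (delta 1)) 1 := by
    rw [ContinuousLinearMap.star_eq_adjoint, ContinuousLinearMap.adjoint_inner_left, inner_delta]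
    rfl
  rw [h2] at h1
  refine h1.congr_fun fun g => ?_
  rw [star_coef hx]
  simp [mul_comm]

/-- The canonical trace on `L(H)`. -/
noncomputable def trLH (H : Subgroup G) : (LH H).toStarSubalgebra →ₗ[ℂ] ℂ where
  toFun x := ((x : Ell G →L[ℂ] Ell G) (delta 1)) 1
  map_add' _ _ := rfl
  map_smul' _ _ := rfl

theorem elt_rho {H : Subgroup G} (x : (LH H).toStarSubalgebra) (g : G) :
    (x : Ell G →L[ℂ] Ell G) * rho g = rho g * (x : Ell G →L[ℂ] Ell G) :=
  (mem_LH.1 x.2).1 g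

theorem trLH_star_mul {H : Subgroup G} (x : (LH H).toStarSubalgebra) :
    trLH H (star x * x) = ((‖(x : Ell G →L[ℂ] Ell G) (delta 1)‖ ^ 2 : ℝ) : ℂ) :=
  tau_star_mul _

/-- `L(H)` as a tracial von Neumann algebra acting on `ℓ²(G)`. -/
noncomputable def gvn (H : Subgroup G) : TracialVN where
  H := Ell G
  M := LH H
  tr := trLH H
  tr_one := by
    classical
    show (delta (1 : G) : Ell G) 1 = 1
    rw [delta_apply, if_pos rfl]
  tr_nonneg := fun x => by
    rw [trLH_star_mul]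
    have : (0 : ℝ) ≤ ‖(x : Ell G →L[ℂ] Ell G) (delta 1)‖ ^ 2 := sq_nonneg _
    exact_mod_cast this
  tr_faithful := fun x hx => by
    rw [trLH_star_mul] at hx
    have h1 : ‖(x : Ell G →L[ℂ] Ell G) (delta 1)‖ = 0 := by
      have : (‖(x : Ell G →L[ℂ] Ell G) (delta 1)‖ ^ 2 : ℝ) = 0 := by exact_mod_cast hx
      exact pow_eq_zero_iff (two_ne_zero) |>.1 this
    have h2 : (x : Ell G →L[ℂ] Ell G) (delta 1) = 0 := norm_eq_zero.1 h1
    refine Subtype.ext ?_
    refine coef_ext (elt_rho x) (fun g => ?_) fun g => ?_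
    · show (0 : Ell G →L[ℂ] Ell G) * rho g = rho g * 0
      rw [zero_mul, mul_zero]
    · rw [h2]
      rfl
  tr_comm := fun x y => by
    have h1 := tau_mul (y := (y : Ell G →L[ℂ] Ell G)) (elt_rho x)
    have h2 := tau_mul (y := (x : Ell G →L[ℂ] Ell G)) (elt_rho y)
    have h3 := ((Equiv.inv G).hasSum_iff (f := fun g : G =>
      ((y : Ell G →L[ℂ] Ell G) (delta 1)) g⁻¹ * ((x : Ell G →L[ℂ] Ell G) (delta 1)) g)).2 h2
    refine h1.unique (h3.congr_fun fun g => ?_)
    show _ = ((y : Ell G →L[ℂ] Ell G) (delta 1)) g⁻¹⁻¹ *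
      ((x : Ell G →L[ℂ] Ell G) (delta 1)) g⁻¹
    rw [inv_inv, mul_comm]
  tr_normal := fun F x C _ h => by
    have := h (delta 1) (delta 1)
    simp only [inner_delta] at this
    exact this

/-- the underlying operator -/
noncomputable def op {H : Subgroup G} (x : (gvn H).Elt) : Ell G →L[ℂ] Ell G := x.1

theorem op_rho {H : Subgroup G} (x : (gvn H).Elt) (g : G) : op x * rho g = rho g * op x :=
  elt_rho (H := H) x g

theorem op_mem {H : Subgroup G} (x : (gvn H).Elt) : op x ∈ LH H := x.2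

theorem op_inj {H : Subgroup G} {x y : (gvn H).Elt} (h : op x = op y) : x = y := Subtype.ext h

theorem op_add {H : Subgroup G} (x y : (gvn H).Elt) : op (x + y) = op x + op y := rfl
theorem op_sub {H : Subgroup G} (x y : (gvn H).Elt) : op (x - y) = op x - op y := rfl
theorem op_mul {H : Subgroup G} (x y : (gvn H).Elt) : op (x * y) = op x * op y := rfl
theorem op_star {H : Subgroup G} (x : (gvn H).Elt) : op (star x) = star (op x) := rfl
theorem op_smul {H : Subgroup G} (c : ℂ) (x : (gvn H).Elt) : op (c • x) = c • op x := rfl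
theorem op_one {H : Subgroup G} : op (1 : (gvn H).Elt) = 1 := rfl
theorem op_zero {H : Subgroup G} : op (0 : (gvn H).Elt) = 0 := rfl

/-- an operator in `L(H)` as an element -/
noncomputable def mkE {H : Subgroup G} (x : Ell G →L[ℂ] Ell G) (hx : x ∈ LH H) : (gvn H).Elt :=
  ⟨x, hx⟩

theorem op_mkE {H : Subgroup G} (x : Ell G →L[ℂ] Ell G) (hx : x ∈ LH H) : op (mkE x hx) = x := rfl

theorem opNorm_eq {H : Subgroup G} (x : (gvn H).Elt) : (gvn H).opNorm x = ‖op x‖ := rfl

theorem tr_eq {H : Subgroup G} (x : (gvn H).Elt) : (gvn H).tr x = (op x (delta 1)) 1 := rfl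

/-- the trace norm -/
theorem norm2_gvn {H : Subgroup G} (x : (gvn H).Elt) :
    (gvn H).norm2 x = ‖op x (delta 1)‖ := by
  unfold TracialVN.norm2
  have : (gvn H).tr (star x * x) = ((‖op x (delta 1)‖ ^ 2 : ℝ) : ℂ) :=
    trLH_star_mul (H := H) x
  rw [this, Complex.ofReal_re, Real.sqrt_sq (norm_nonneg _)]

theorem norm2_nonneg {N : TracialVN} (x : N.Elt) : 0 ≤ N.norm2 x :=
  Real.sqrt_nonneg _

theorem opNorm_nonneg {N : TracialVN} (x : N.Elt) : 0 ≤ N.opNorm x := norm_nonneg _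

theorem norm2_add_le {H : Subgroup G} (x y : (gvn H).Elt) :
    (gvn H).norm2 (x + y) ≤ (gvn H).norm2 x + (gvn H).norm2 y := by
  rw [norm2_gvn, norm2_gvn, norm2_gvn, op_add]
  exact norm_add_le _ _

theorem norm2_sub_comm {H : Subgroup G} (x y : (gvn H).Elt) :
    (gvn H).norm2 (x - y) = (gvn H).norm2 (y - x) := by
  rw [norm2_gvn, norm2_gvn, op_sub, op_sub]
  exact norm_sub_rev _ _

theorem norm2_smul {H : Subgroup G} (c : ℂ) (x : (gvn H).Elt) :
    (gvn H).norm2 (c • x) = ‖c‖ * (gvn H).norm2 x := by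
  rw [norm2_gvn, norm2_gvn, op_smul]
  exact norm_smul c (op x (delta 1))

theorem norm2_star {H : Subgroup G} (x : (gvn H).Elt) :
    (gvn H).norm2 (star x) = (gvn H).norm2 x := by
  rw [norm2_gvn, norm2_gvn, op_star]
  exact norm_star_delta (op_rho x)

theorem norm2_mul_le {H : Subgroup G} (x y : (gvn H).Elt) :
    (gvn H).norm2 (x * y) ≤ (gvn H).opNorm x * (gvn H).norm2 y := by
  rw [norm2_gvn, norm2_gvn, op_mul]
  exact ContinuousLinearMap.le_opNorm (op x) _

theorem opNorm_star {H : Subgroup G} (x : (gvn H).Elt) :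
    (gvn H).opNorm (star x) = (gvn H).opNorm x := by
  rw [opNorm_eq, opNorm_eq, op_star]
  exact norm_star (op x)

theorem norm2_mul_le' {H : Subgroup G} (x y : (gvn H).Elt) :
    (gvn H).norm2 (x * y) ≤ (gvn H).norm2 x * (gvn H).opNorm y := by
  rw [← norm2_star, star_mul, ← norm2_star x, ← opNorm_star y, mul_comm]
  exact norm2_mul_le _ _

theorem opNorm_mul_le {H : Subgroup G} (x y : (gvn H).Elt) :
    (gvn H).opNorm (x * y) ≤ (gvn H).opNorm x * (gvn H).opNorm y :=
  norm_mul_le (op x) (op y)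

theorem opNorm_add_le {H : Subgroup G} (x y : (gvn H).Elt) :
    (gvn H).opNorm (x + y) ≤ (gvn H).opNorm x + (gvn H).opNorm y :=
  norm_add_le (op x) (op y)

theorem opNorm_smul {H : Subgroup G} (c : ℂ) (x : (gvn H).Elt) :
    (gvn H).opNorm (c • x) = ‖c‖ * (gvn H).opNorm x :=
  norm_smul c (op x)

theorem opNorm_zero {H : Subgroup G} : (gvn H).opNorm (0 : (gvn H).Elt) = 0 :=
  norm_zero (E := Ell G →L[ℂ] Ell G)

theorem opNorm_one_le {H : Subgroup G} : (gvn H).opNorm (1 : (gvn H).Elt) ≤ 1 :=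
  ContinuousLinearMap.norm_id_le (𝕜 := ℂ) (E := Ell G)

theorem norm2_le_opNorm {H : Subgroup G} (x : (gvn H).Elt) :
    (gvn H).norm2 x ≤ (gvn H).opNorm x := by
  rw [norm2_gvn]
  have := ContinuousLinearMap.le_opNorm (op x) (delta 1)
  rwa [norm_delta, mul_one] at this

theorem norm_tr_le {H : Subgroup G} (x : (gvn H).Elt) :
    ‖(gvn H).tr x‖ ≤ (gvn H).norm2 x := by
  rw [norm2_gvn, tr_eq]
  exact lp.norm_apply_le_norm (by norm_num) _ _

end Pool.Agent.Y563.TVN
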