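import Mathlib
import Pool.Agent.Y563.GvN2

/-!
Boundedness and uniform continuity of formulas on operator-norm balls, for `L(H)`.
-/

open Filter Topology

namespace Pool.Agent.Y563.TVN

variable {G : Type} [Group G] {H : Subgroup G}

theorem term_lip {β : Type} {n : ℕ} (v : β → (gvn H).Elt) (C : ℝ) (t : Term (β ⊕ Fin n)) :
    ∃ K : ℝ, 0 ≤ K ∧ ∀ w w' : Fin n → (gvn H).Elt, (∀ i, (gvn H).opNorm (w i) ≤ C) →
      (∀ i, (gvn H).opNorm (w' i) ≤ C) →
      (gvn H).opNorm (t.eval (Sum.elim v w)) ≤ K ∧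
      ∀ d : ℝ, 0 ≤ d → (∀ i, (gvn H).norm2 (w i - w' i) ≤ d) →
        (gvn H).norm2 (t.eval (Sum.elim v w) - t.eval (Sum.elim v w')) ≤ K * d := by
  induction t with
  | var a =>
    cases a with
    | inl b =>
      refine ⟨(gvn H).opNorm (v b), opNorm_nonneg _, fun w w' hw hw' => ⟨le_rfl, fun d hd h => ?_⟩⟩
      show (gvn H).norm2 (v b - v b) ≤ _
      rw [sub_self, norm2_gvn]
      show ‖(0 : Ell G →L[ℂ] Ell G) (delta 1)‖ ≤ _
      rw [zero_apply, norm_zero]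
      exact mul_nonneg (opNorm_nonneg _) hd
    | inr i =>
      refine ⟨max C 1, le_trans zero_le_one (le_max_right _ _), fun w w' hw hw' =>
        ⟨(hw i).trans (le_max_left _ _), fun d hd h => ?_⟩⟩
      show (gvn H).norm2 (w i - w' i) ≤ _
      calc (gvn H).norm2 (w i - w' i) ≤ 1 * d := by rw [one_mul]; exact h i
        _ ≤ max C 1 * d := mul_le_mul_of_nonneg_right (le_max_right _ _) hd
  | zero =>
    refine ⟨0, le_rfl, fun w w' hw hw' => ⟨?_, fun d hd h => ?_⟩⟩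
    · show (gvn H).opNorm (0 : (gvn H).Elt) ≤ 0
      rw [opNorm_zero]
    · show (gvn H).norm2 ((0 : (gvn H).Elt) - 0) ≤ _
      rw [sub_self, norm2_gvn]
      show ‖(0 : Ell G →L[ℂ] Ell G) (delta 1)‖ ≤ _
      rw [zero_apply, norm_zero, zero_mul]
  | one =>
    refine ⟨1, zero_le_one, fun w w' hw hw' => ⟨opNorm_one_le, fun d hd h => ?_⟩⟩
    show (gvn H).norm2 ((1 : (gvn H).Elt) - 1) ≤ _
    rw [sub_self, norm2_gvn]
    show ‖(0 : Ell G →L[ℂ] Ell G) (delta 1)‖ ≤ _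
    rw [zero_apply, norm_zero, one_mul]
    exact hd
  | add s t hs ht =>
    obtain ⟨K1, hK1, h1⟩ := hs
    obtain ⟨K2, hK2, h2⟩ := ht
    refine ⟨K1 + K2, add_nonneg hK1 hK2, fun w w' hw hw' => ⟨?_, fun d hd h => ?_⟩⟩
    · exact (opNorm_add_le _ _).trans (add_le_add (h1 w w' hw hw').1 (h2 w w' hw hw').1)
    · show (gvn H).norm2 ((s.eval (Sum.elim v w) + t.eval (Sum.elim v w)) -
        (s.eval (Sum.elim v w') + t.eval (Sum.elim v w'))) ≤ _
      rw [add_sub_add_comm, add_mul]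
      exact (norm2_add_le _ _).trans
        (add_le_add ((h1 w w' hw hw').2 d hd h) ((h2 w w' hw hw').2 d hd h))
  | mul s t hs ht =>
    obtain ⟨K1, hK1, h1⟩ := hs
    obtain ⟨K2, hK2, h2⟩ := ht
    refine ⟨2 * (K1 * K2), by positivity, fun w w' hw hw' => ⟨?_, fun d hd h => ?_⟩⟩
    · refine (opNorm_mul_le _ _).trans ?_
      have : (gvn H).opNorm (s.eval (Sum.elim v w)) * (gvn H).opNorm (t.eval (Sum.elim v w)) ≤
          K1 * K2 := mul_le_mul (h1 w w' hw hw').1 (h2 w w' hw hw').1 (opNorm_nonneg _) hK1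
      have h0 : 0 ≤ K1 * K2 := mul_nonneg hK1 hK2
      linarith
    · show (gvn H).norm2 ((s.eval (Sum.elim v w) * t.eval (Sum.elim v w)) -
        (s.eval (Sum.elim v w') * t.eval (Sum.elim v w'))) ≤ _
      have e : (s.eval (Sum.elim v w) * t.eval (Sum.elim v w)) -
        (s.eval (Sum.elim v w') * t.eval (Sum.elim v w')) =
        s.eval (Sum.elim v w) * (t.eval (Sum.elim v w) - t.eval (Sum.elim v w')) +
        (s.eval (Sum.elim v w) - s.eval (Sum.elim v w')) * t.eval (Sum.elim v w') := by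
        noncomm_ring
      rw [e]
      refine (norm2_add_le _ _).trans ?_
      have e1 := norm2_mul_le (s.eval (Sum.elim v w))
        (t.eval (Sum.elim v w) - t.eval (Sum.elim v w'))
      have e2 := norm2_mul_le' (s.eval (Sum.elim v w) - s.eval (Sum.elim v w'))
        (t.eval (Sum.elim v w'))
      have e3 := (h2 w w' hw hw').2 d hd h
      have e4 := (h1 w w' hw hw').2 d hd h
      have e5 := (h1 w w' hw hw').1
      have e6 := (h2 w' w hw' hw).1
      have e7 : (gvn H).opNorm (s.eval (Sum.elim v w)) *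
          (gvn H).norm2 (t.eval (Sum.elim v w) - t.eval (Sum.elim v w')) ≤ K1 * (K2 * d) :=
        mul_le_mul e5 e3 (norm2_nonneg _) hK1
      have e8 : (gvn H).norm2 (s.eval (Sum.elim v w) - s.eval (Sum.elim v w')) *
          (gvn H).opNorm (t.eval (Sum.elim v w')) ≤ (K1 * d) * K2 :=
        mul_le_mul e4 e6 (opNorm_nonneg _) (mul_nonneg hK1 hd)
      nlinarith
  | adj t ht =>
    obtain ⟨K, hK, h1⟩ := ht
    refine ⟨K, hK, fun w w' hw hw' => ⟨?_, fun d hd h => ?_⟩⟩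
    · show (gvn H).opNorm (star (t.eval (Sum.elim v w))) ≤ K
      rw [opNorm_star]
      exact (h1 w w' hw hw').1
    · show (gvn H).norm2 (star (t.eval (Sum.elim v w)) - star (t.eval (Sum.elim v w'))) ≤ _
      rw [← star_sub, norm2_star]
      exact (h1 w w' hw hw').2 d hd h
  | smul c t ht =>
    obtain ⟨K, hK, h1⟩ := ht
    refine ⟨‖c‖ * K, by positivity, fun w w' hw hw' => ⟨?_, fun d hd h => ?_⟩⟩
    · show (gvn H).opNorm (c • (t.eval (Sum.elim v w))) ≤ _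
      rw [opNorm_smul]
      exact mul_le_mul_of_nonneg_left (h1 w w' hw hw').1 (norm_nonneg _)
    · show (gvn H).norm2 (c • (t.eval (Sum.elim v w)) - c • (t.eval (Sum.elim v w'))) ≤ _
      rw [← smul_sub, norm2_smul, mul_assoc]
      exact mul_le_mul_of_nonneg_left ((h1 w w' hw hw').2 d hd h) (norm_nonneg _)

/-- the property of being bounded and uniformly continuous on balls -/
def UC (H : Subgroup G) {n : ℕ} (f : (Fin n → (gvn H).Elt) → ℝ) : Prop :=
  ∀ C : ℝ, (∃ K : ℝ, ∀ w : Fin n → (gvn H).Elt, (∀ i, (gvn H).opNorm (w i) ≤ C) → |f w| ≤ K) ∧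
    ∀ ε : ℝ, 0 < ε → ∃ d : ℝ, 0 < d ∧ ∀ w w' : Fin n → (gvn H).Elt,
      (∀ i, (gvn H).opNorm (w i) ≤ C) → (∀ i, (gvn H).opNorm (w' i) ≤ C) →
      (∀ i, (gvn H).norm2 (w i - w' i) ≤ d) → |f w - f w'| ≤ ε

theorem uc_tr {β : Type} {n : ℕ} (v : β → (gvn H).Elt) (t : Term (β ⊕ Fin n))
    (p : ℂ →ₗ[ℝ] ℝ) (hp : ∀ z, |p z| ≤ ‖z‖) :
    UC H (fun w => p ((gvn H).tr (t.eval (Sum.elim v w)))) := by
  intro C
  obtain ⟨K, hK, h⟩ := term_lip v C t
  refine ⟨⟨K, fun w hw => ?_⟩, fun ε hε => ?_⟩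
  · exact (hp _).trans ((norm_tr_le _).trans ((norm2_le_opNorm _).trans (h w w hw hw).1))
  · refine ⟨ε / (K + 1), by positivity, fun w w' hw hw' hd => ?_⟩
    rw [← map_sub, ← map_sub]
    refine (hp _).trans ((norm_tr_le _).trans (((h w w' hw hw').2 _ (by positivity) hd).trans ?_))
    rw [mul_div_assoc', div_le_iff₀ (by positivity)]
    nlinarith

theorem uc_conn {n k : ℕ} (u : (Fin k → ℝ) → ℝ) (hu : Continuous u)
    (f : Fin k → (Fin n → (gvn H).Elt) → ℝ) (hf : ∀ i, UC H (f i)) :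
    UC H (fun w => u fun i => f i w) := by
  intro C
  choose K hK using fun i => (hf i C).1
  obtain ⟨M, hM⟩ : ∃ M : ℝ, ∀ i, K i ≤ M := by
    refine ⟨∑ i, |K i|, fun i => (le_abs_self _).trans ?_⟩
    exact Finset.single_le_sum (f := fun i => |K i|) (fun _ _ => abs_nonneg _) (Finset.mem_univ i)
  have hcomp : IsCompact (Metric.closedBall (0 : Fin k → ℝ) (max M 0)) :=
    isCompact_closedBall _ _
  have hin : ∀ w : Fin n → (gvn H).Elt, (∀ i, (gvn H).opNorm (w i) ≤ C) →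
      (fun i => f i w) ∈ Metric.closedBall (0 : Fin k → ℝ) (max M 0) := by
    intro w hw
    rw [mem_closedBall_zero_iff, pi_norm_le_iff_of_nonneg (le_max_right _ _)]
    intro i
    rw [Real.norm_eq_abs]
    exact ((hK i w hw).trans (hM i)).trans (le_max_left _ _)
  refine ⟨?_, fun ε hε => ?_⟩
  · obtain ⟨B, hB⟩ := hcomp.exists_bound_of_continuousOn hu.continuousOn
    exact ⟨B, fun w hw => hB _ (hin w hw)⟩
  · have huc := hcomp.uniformContinuousOn_of_continuous hu.continuousOn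
    rw [Metric.uniformContinuousOn_iff_le] at huc
    obtain ⟨δ, hδ, h⟩ := huc ε hε
    choose d hd hd' using fun i => (hf i C).2 δ hδ
    obtain ⟨d0, hd0, hd0'⟩ : ∃ d0 : ℝ, 0 < d0 ∧ ∀ i, d0 ≤ d i := by
      rcases Nat.eq_zero_or_pos k with hk | hk
      · subst hk
        exact ⟨1, one_pos, fun i => i.elim0⟩
      · have : Nonempty (Fin k) := ⟨⟨0, hk⟩⟩
        obtain ⟨i0, hi0⟩ := Finite.exists_min d
        exact ⟨d i0, hd i0, hi0⟩
    refine ⟨d0, hd0, fun w w' hw hw' hdd => ?_⟩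
    have := h _ (hin w hw) _ (hin w' hw') (by
      rw [dist_pi_le_iff hδ.le]
      intro i
      rw [Real.dist_eq]
      exact hd' i w w' hw hw' fun j => (hdd j).trans (hd0' i))
    rwa [Real.dist_eq] at this

theorem snoc_le {n : ℕ} {w : Fin n → (gvn H).Elt} {C : ℝ} {r : ℕ}
    (hw : ∀ i, (gvn H).opNorm (w i) ≤ C) {x : (gvn H).Elt} (hx : (gvn H).opNorm x ≤ r + 1)
    (i : Fin (n + 1)) :
    (gvn H).opNorm ((Fin.snoc w x : Fin (n + 1) → (gvn H).Elt) i) ≤ max C (r + 1) := by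
  refine Fin.lastCases ?_ (fun j => ?_) i
  · rw [Fin.snoc_last]
    exact hx.trans (le_max_right _ _)
  · rw [Fin.snoc_castSucc]
    exact (hw j).trans (le_max_left _ _)

theorem snoc_dist {n : ℕ} {w w' : Fin n → (gvn H).Elt} {d : ℝ} (x : (gvn H).Elt) (hd : 0 ≤ d)
    (hw : ∀ i, (gvn H).norm2 (w i - w' i) ≤ d) (i : Fin (n + 1)) :
    (gvn H).norm2 ((Fin.snoc w x : Fin (n + 1) → (gvn H).Elt) i -
      (Fin.snoc w' x : Fin (n + 1) → (gvn H).Elt) i) ≤ d := by
  refine Fin.lastCases ?_ (fun j => ?_) i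
  · rw [Fin.snoc_last, Fin.snoc_last, sub_self, norm2_gvn]
    show ‖(0 : Ell G →L[ℂ] Ell G) (delta 1)‖ ≤ _
    rw [zero_apply, norm_zero]
    exact hd
  · rw [Fin.snoc_castSucc, Fin.snoc_castSucc]
    exact hw j

/-- nonemptiness of balls -/
instance ball_nonempty (r : ℕ) : Nonempty {x : (gvn H).Elt // (gvn H).opNorm x ≤ r + 1} :=
  ⟨⟨0, by rw [opNorm_zero]; positivity⟩⟩

theorem iSup_close {ι : Type} [Nonempty ι] {f g : ι → ℝ} {K ε : ℝ} (hf : ∀ i, |f i| ≤ K)
    (hg : ∀ i, |g i| ≤ K) (h : ∀ i, |f i - g i| ≤ ε) : |(⨆ i, f i) - ⨆ i, g i| ≤ ε := by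
  have bf : BddAbove (Set.range f) := ⟨K, by rintro _ ⟨i, rfl⟩; exact (abs_le.1 (hf i)).2⟩
  have bg : BddAbove (Set.range g) := ⟨K, by rintro _ ⟨i, rfl⟩; exact (abs_le.1 (hg i)).2⟩
  rw [abs_le]
  constructor
  · have : (⨆ i, g i) ≤ (⨆ i, f i) + ε := ciSup_le fun i => by
      have h1 := le_ciSup bf i
      have h2 := (abs_le.1 (h i)).1
      linarith
    linarith
  · have : (⨆ i, f i) ≤ (⨆ i, g i) + ε := ciSup_le fun i => by
      have h1 := le_ciSup bg i
      have h2 := (abs_le.1 (h i)).2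
      linarith
    linarith

theorem iInf_close {ι : Type} [Nonempty ι] {f g : ι → ℝ} {K ε : ℝ} (hf : ∀ i, |f i| ≤ K)
    (hg : ∀ i, |g i| ≤ K) (h : ∀ i, |f i - g i| ≤ ε) : |(⨅ i, f i) - ⨅ i, g i| ≤ ε := by
  have bf : BddBelow (Set.range f) := ⟨-K, by rintro _ ⟨i, rfl⟩; exact (abs_le.1 (hf i)).1⟩
  have bg : BddBelow (Set.range g) := ⟨-K, by rintro _ ⟨i, rfl⟩; exact (abs_le.1 (hg i)).1⟩
  rw [abs_le]
  constructor
  · have : (⨅ i, g i) - ε ≤ (⨅ i, f i) := le_ciInf fun i => by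
      have h1 := ciInf_le bg i
      have h2 := (abs_le.1 (h i)).1
      linarith
    linarith
  · have : (⨅ i, f i) - ε ≤ (⨅ i, g i) := le_ciInf fun i => by
      have h1 := ciInf_le bf i
      have h2 := (abs_le.1 (h i)).2
      linarith
    linarith

theorem iSup_abs_le {ι : Type} [Nonempty ι] {f : ι → ℝ} {K : ℝ} (hf : ∀ i, |f i| ≤ K) :
    |⨆ i, f i| ≤ K := by
  have h := iSup_close (f := f) (g := fun _ => 0) (K := K) (ε := K) hf
    (fun i => by simpa using (abs_nonneg (f i)).trans (hf i)) (fun i => by simpa using hf i)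
  simpa using h

theorem iInf_abs_le {ι : Type} [Nonempty ι] {f : ι → ℝ} {K : ℝ} (hf : ∀ i, |f i| ≤ K) :
    |⨅ i, f i| ≤ K := by
  have h := iInf_close (f := f) (g := fun _ => 0) (K := K) (ε := K) hf
    (fun i => by simpa using (abs_nonneg (f i)).trans (hf i)) (fun i => by simpa using hf i)
  simpa using h

/-- formulas are bounded and uniformly continuous on balls -/
theorem fml_uc {β : Type} (v : β → (gvn H).Elt) {n : ℕ} (φ : Fml β n) :
    UC H (fun w => φ.eval (gvn H) v w) := by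
  induction φ with
  | re t => exact uc_tr v t Complex.reLm Complex.abs_re_le_norm
  | im t => exact uc_tr v t Complex.imLm Complex.abs_im_le_norm
  | conn k u hu φ ih => exact uc_conn u hu _ ih
  | sup r φ ih =>
    intro C
    obtain ⟨⟨K, hK⟩, h2⟩ := ih (max C (r + 1))
    refine ⟨⟨K, fun w hw => ?_⟩, fun ε hε => ?_⟩
    · exact iSup_abs_le fun x => hK _ (snoc_le hw x.2)
    · obtain ⟨d, hd, h⟩ := h2 ε hε
      refine ⟨d, hd, fun w w' hw hw' hdd => ?_⟩
      exact iSup_close (fun x => hK _ (snoc_le hw x.2)) (fun x => hK _ (snoc_le hw' x.2))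
        fun x => h _ _ (snoc_le hw x.2) (snoc_le hw' x.2) (snoc_dist x.1 hd.le hdd)
  | inf r φ ih =>
    intro C
    obtain ⟨⟨K, hK⟩, h2⟩ := ih (max C (r + 1))
    refine ⟨⟨K, fun w hw => ?_⟩, fun ε hε => ?_⟩
    · exact iInf_abs_le fun x => hK _ (snoc_le hw x.2)
    · obtain ⟨d, hd, h⟩ := h2 ε hε
      refine ⟨d, hd, fun w w' hw hw' hdd => ?_⟩
      exact iInf_close (fun x => hK _ (snoc_le hw x.2)) (fun x => hK _ (snoc_le hw' x.2))
        fun x => h _ _ (snoc_le hw x.2) (snoc_le hw' x.2) (snoc_dist x.1 hd.le hdd)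

end Pool.Agent.Y563.TVN
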