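import Mathlib
import Pool.Agent.Y563.GvNUC

/-!
Invariance of formulas under isomorphisms, conjugation by group elements, and the trace-preserving
conditional expectation on a finite subgroup.
-/

open Filter Topology
open scoped ComplexConjugate ENNReal InnerProductSpace

namespace Pool.Agent.Y563.TVN

/-- `α` is an isomorphism of tracial von Neumann algebras. -/
structure IsTrIso (N N' : TracialVN) (α : N.Elt → N'.Elt) : Prop where
  surj : Function.Surjective α
  zero : α 0 = 0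
  one : α 1 = 1
  add : ∀ x y, α (x + y) = α x + α y
  mul : ∀ x y, α (x * y) = α x * α y
  star : ∀ x, α (star x) = star (α x)
  smul : ∀ (c : ℂ) x, α (c • x) = c • α x
  norm : ∀ x, N'.opNorm (α x) = N.opNorm x
  tr : ∀ x, N'.tr (α x) = N.tr x

theorem eval_term {N N' : TracialVN} {α : N.Elt → N'.Elt} (h : IsTrIso N N' α) {γ : Type}
    (v : γ → N.Elt) (t : Term γ) : t.eval (α ∘ v) = α (t.eval v) := by
  induction t with
  | var a => rfl
  | zero => exact h.zero.symm
  | one => exact h.one.symm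
  | add s t hs ht =>
    show s.eval (α ∘ v) + t.eval (α ∘ v) = α (s.eval v + t.eval v)
    rw [hs, ht, h.add]
  | mul s t hs ht =>
    show s.eval (α ∘ v) * t.eval (α ∘ v) = α (s.eval v * t.eval v)
    rw [hs, ht, h.mul]
  | adj t ht =>
    show star (t.eval (α ∘ v)) = α (star (t.eval v))
    rw [ht, h.star]
  | smul c t ht =>
    show c • (t.eval (α ∘ v)) = α (c • (t.eval v))
    rw [ht, h.smul]

theorem comp_snoc {A B : Type} (α : A → B) {n : ℕ} (w : Fin n → A) (x : A) :
    (Fin.snoc (α ∘ w) (α x) : Fin (n + 1) → B) = α ∘ (Fin.snoc w x : Fin (n + 1) → A) := by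
  funext i
  refine Fin.lastCases ?_ (fun j => ?_) i
  · simp
  · simp

theorem eval_iso {N N' : TracialVN} {α : N.Elt → N'.Elt} (h : IsTrIso N N' α) {β : Type}
    (v : β → N.Elt) {n : ℕ} (φ : Fml β n) (w : Fin n → N.Elt) :
    φ.eval N' (α ∘ v) (α ∘ w) = φ.eval N v w := by
  induction φ with
  | re t =>
    show (N'.tr (t.eval (Sum.elim (α ∘ v) (α ∘ w)))).re = (N.tr (t.eval (Sum.elim v w))).re
    rw [← Sum.comp_elim, eval_term h, h.tr]
  | im t =>
    show (N'.tr (t.eval (Sum.elim (α ∘ v) (α ∘ w)))).im = (N.tr (t.eval (Sum.elim v w))).im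
    rw [← Sum.comp_elim, eval_term h, h.tr]
  | conn k u hu φ ih =>
    show (u fun i => (φ i).eval N' (α ∘ v) (α ∘ w)) = u fun i => (φ i).eval N v w
    congr 1
    funext i
    exact ih i w
  | sup r φ ih =>
    show (⨆ x : {x : N'.Elt // N'.opNorm x ≤ r + 1}, φ.eval N' (α ∘ v) (Fin.snoc (α ∘ w) x.1)) =
      ⨆ x : {x : N.Elt // N.opNorm x ≤ r + 1}, φ.eval N v (Fin.snoc w x.1)
    symm
    refine Function.Surjective.iSup_congr (fun x : {x : N.Elt // N.opNorm x ≤ r + 1} =>
      (⟨α x.1, by rw [h.norm]; exact x.2⟩ : {x : N'.Elt // N'.opNorm x ≤ r + 1})) ?_ ?_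
    · rintro ⟨y, hy⟩
      obtain ⟨x, rfl⟩ := h.surj y
      exact ⟨⟨x, by rw [← h.norm]; exact hy⟩, rfl⟩
    · rintro ⟨x, hx⟩
      show φ.eval N' (α ∘ v) (Fin.snoc (α ∘ w) (α x)) = φ.eval N v (Fin.snoc w x)
      rw [comp_snoc, ih]
  | inf r φ ih =>
    show (⨅ x : {x : N'.Elt // N'.opNorm x ≤ r + 1}, φ.eval N' (α ∘ v) (Fin.snoc (α ∘ w) x.1)) =
      ⨅ x : {x : N.Elt // N.opNorm x ≤ r + 1}, φ.eval N v (Fin.snoc w x.1)
    symm
    refine Function.Surjective.iInf_congr (fun x : {x : N.Elt // N.opNorm x ≤ r + 1} =>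
      (⟨α x.1, by rw [h.norm]; exact x.2⟩ : {x : N'.Elt // N'.opNorm x ≤ r + 1})) ?_ ?_
    · rintro ⟨y, hy⟩
      obtain ⟨x, rfl⟩ := h.surj y
      exact ⟨⟨x, by rw [← h.norm]; exact hy⟩, rfl⟩
    · rintro ⟨x, hx⟩
      show φ.eval N' (α ∘ v) (Fin.snoc (α ∘ w) (α x)) = φ.eval N v (Fin.snoc w x)
      rw [comp_snoc, ih]

section conjugation
variable {G : Type} [Group G]

theorem conj_coef {x : Ell G →L[ℂ] Ell G} (hx : ∀ g, x * rho g = rho g * x) (s g : G) :
    ((lam s * x * lam s⁻¹) (delta 1)) g = (x (delta 1)) (s⁻¹ * g * s) := by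
  show (lam s (x (lam s⁻¹ (delta 1)))) g = _
  rw [lam_delta, mul_one, lam_apply, coef_apply hx, inv_inv]

theorem conj_rho {x : Ell G →L[ℂ] Ell G} (hx : ∀ g, x * rho g = rho g * x) (s g : G) :
    (lam s * x * lam s⁻¹) * rho g = rho g * (lam s * x * lam s⁻¹) := by
  rw [mul_assoc, lam_rho, ← mul_assoc, mul_assoc (lam s) x, hx, ← mul_assoc, lam_rho]
  simp only [mul_assoc]

theorem conj_mem {H K : Subgroup G} {x : Ell G →L[ℂ] Ell G} (hx : x ∈ LH H) (s : G)
    (h : ∀ g, s⁻¹ * g * s ∈ H → g ∈ K) : lam s * x * lam s⁻¹ ∈ LH K := by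
  rw [mem_LH] at hx ⊢
  refine ⟨conj_rho hx.1 s, fun g hg => ?_⟩
  rw [conj_coef hx.1]
  exact hx.2 _ fun h' => hg (h g h')

theorem conj_fix {H : Subgroup G} {x : Ell G →L[ℂ] Ell G} (hx : x ∈ LH H) (s : G)
    (h : ∀ g ∈ H, s * g = g * s) : lam s * x * lam s⁻¹ = x := by
  rw [mem_LH] at hx
  refine coef_ext (conj_rho hx.1 s) hx.1 fun g => ?_
  rw [conj_coef hx.1]
  by_cases hg : g ∈ H
  · rw [mul_assoc, ← h g hg, inv_mul_cancel_left]
  · rw [hx.2 g hg, hx.2]
    intro h'
    apply hg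
    have h1 := h _ h'
    have h2 : s * (s⁻¹ * g * s) = g * s := by group
    rw [h2] at h1
    have h3 : g = s⁻¹ * g * s := mul_right_cancel h1
    rw [h3]
    exact h'

theorem conj_norm (x : Ell G →L[ℂ] Ell G) (s : G) : ‖lam s * x * lam s⁻¹‖ = ‖x‖ := by
  rw [CStarRing.norm_mul_mem_unitary _ (lam_unitary _), CStarRing.norm_mem_unitary_mul _
    (lam_unitary _)]

theorem lam_inv_mul (s : G) : lam s⁻¹ * lam s = 1 := by
  rw [← lam_mul, inv_mul_cancel, lam_one]

theorem lam_mul_inv (s : G) : lam s * lam s⁻¹ = 1 := by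
  rw [← lam_mul, mul_inv_cancel, lam_one]

/-- conjugation by `λ(s)` on `L(K)`, `K` normal -/
noncomputable def conjE (K : Subgroup G) [hK : K.Normal] (s : G) (x : (gvn K).Elt) : (gvn K).Elt :=
  mkE (lam s * op x * lam s⁻¹) (conj_mem (op_mem x) s fun g hg => by
    have := hK.conj_mem _ hg s
    have e : s * (s⁻¹ * g * s) * s⁻¹ = g := by group
    rwa [e] at this)

theorem op_conjE (K : Subgroup G) [K.Normal] (s : G) (x : (gvn K).Elt) :
    op (conjE K s x) = lam s * op x * lam s⁻¹ := rfl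

theorem conjE_iso (K : Subgroup G) [K.Normal] (s : G) : IsTrIso (gvn K) (gvn K) (conjE K s) where
  surj := fun y => by
    refine ⟨conjE K s⁻¹ y, op_inj ?_⟩
    rw [op_conjE, op_conjE, inv_inv]
    calc lam s * (lam s⁻¹ * op y * lam s) * lam s⁻¹
        = (lam s * lam s⁻¹) * op y * (lam s * lam s⁻¹) := by simp only [mul_assoc]
      _ = op y := by rw [lam_mul_inv, one_mul, mul_one]
  zero := op_inj (by rw [op_conjE, op_zero, mul_zero, zero_mul])
  one := op_inj (by rw [op_conjE, op_one, mul_one, lam_mul_inv])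
  add := fun x y => op_inj (by
    rw [op_conjE, op_add, op_add, op_conjE, op_conjE, mul_add, add_mul])
  mul := fun x y => op_inj (by
    rw [op_conjE, op_mul, op_mul, op_conjE, op_conjE]
    calc lam s * (op x * op y) * lam s⁻¹ = lam s * op x * 1 * op y * lam s⁻¹ := by
          simp only [mul_assoc, one_mul]
      _ = lam s * op x * lam s⁻¹ * (lam s * op y * lam s⁻¹) := by
          rw [← lam_inv_mul s]; simp only [mul_assoc])
  star := fun x => op_inj (by
    rw [op_conjE, op_star, op_star, op_conjE, star_mul, star_mul, star_lam, star_lam, inv_inv,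
      mul_assoc])
  smul := fun c x => op_inj (by
    rw [op_conjE, op_smul, op_smul, op_conjE, mul_smul_comm, smul_mul_assoc])
  norm := fun x => by
    rw [opNorm_eq, opNorm_eq, op_conjE, conj_norm]
  tr := fun x => by
    rw [tr_eq, tr_eq, op_conjE, conj_coef (op_rho x)]
    have : s⁻¹ * 1 * s = 1 := by group
    rw [this]

end conjugation

section expectation
variable {G : Type} [Group G]

/-- restriction of the coefficients of `x` to the finite subgroup `S` -/
noncomputable def expE (S : Subgroup G) [Fintype S] (x : Ell G →L[ℂ] Ell G) :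
    Ell G →L[ℂ] Ell G := ∑ s : S, ((x (delta 1)) (s : G)) • lam (s : G)

theorem expE_apply (S : Subgroup G) [Fintype S] (x : Ell G →L[ℂ] Ell G) (f : Ell G) (g : G) :
    (expE S x f) g = ∑ s : S, (x (delta 1)) (s : G) * f ((s : G)⁻¹ * g) := by
  unfold expE
  rw [sum_apply, lp.coeFn_sum, Finset.sum_apply]
  rfl

theorem expE_rho (S : Subgroup G) [Fintype S] (x : Ell G →L[ℂ] Ell G) (g : G) :
    expE S x * rho g = rho g * expE S x := by
  ext f k
  show (expE S x (rho g f)) k = (expE S x f) (k * g)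
  rw [expE_apply, expE_apply]
  refine Finset.sum_congr rfl fun s _ => ?_
  rw [rho_apply, mul_assoc]

open Classical in
theorem expE_coef (S : Subgroup G) [Fintype S] (x : Ell G →L[ℂ] Ell G) (g : G) :
    (expE S x (delta 1)) g = if g ∈ S then (x (delta 1)) g else 0 := by
  rw [expE_apply]
  split_ifs with hg
  · rw [Finset.sum_eq_single (⟨g, hg⟩ : S)]
    · rw [delta_apply, if_pos (by group), mul_one]
    · intro s _ hs
      rw [delta_apply, if_neg, mul_zero]
      intro h
      apply hs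
      have : g = s := by
        rw [inv_mul_eq_one] at h
        exact h.symm
      exact Subtype.ext this.symm
    · intro h
      exact absurd (Finset.mem_univ _) h
  · refine Finset.sum_eq_zero fun s _ => ?_
    rw [delta_apply, if_neg, mul_zero]
    intro h
    rw [inv_mul_eq_one] at h
    exact hg (h ▸ s.2)

theorem expE_mem (S : Subgroup G) [Fintype S] (x : Ell G →L[ℂ] Ell G) : expE S x ∈ LH S := by
  rw [mem_LH]
  refine ⟨expE_rho S x, fun g hg => ?_⟩
  rw [expE_coef, if_neg hg]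

theorem tsum_shift (S : Subgroup G) [Fintype S] (f : Ell G) :
    HasSum (fun t : G => ∑ u : S, ‖f ((u : G) * t)‖ ^ 2) (Fintype.card S * ‖f‖ ^ 2) := by
  have h1 : ∀ u : S, HasSum (fun t : G => ‖f ((u : G) * t)‖ ^ 2) (‖f‖ ^ 2) := by
    intro u
    have h2 : HasSum (fun t : G => ‖f t‖ ^ 2) (‖f‖ ^ 2) := by
      rw [norm_sq_eq]
      exact (summable_sq f).hasSum
    exact ((Equiv.mulLeft (u : G)).hasSum_iff (f := fun t : G => ‖f t‖ ^ 2)).2 h2
  have h3 := hasSum_sum (s := (Finset.univ : Finset S)) (f := fun u : S => fun t : G =>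
    ‖f ((u : G) * t)‖ ^ 2) (a := fun _ => ‖f‖ ^ 2) fun u _ => h1 u
  rw [Finset.sum_const, nsmul_eq_mul, Finset.card_univ] at h3
  exact h3

theorem cut_eq_sum (S : Subgroup G) [Fintype S] (f : Ell G) :
    cut (S : Set G) f = ∑ u : S, f (u : G) • delta (u : G) := by
  classical
  ext g
  rw [cut_apply, lp.coeFn_sum, Finset.sum_apply]
  split_ifs with hg
  · rw [Finset.sum_eq_single (⟨g, hg⟩ : S)]
    · show f g = f g • (delta g : Ell G) g
      rw [delta_apply, if_pos rfl, smul_eq_mul, mul_one]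
    · intro s _ hs
      show f (s : G) • (delta (s : G) : Ell G) g = 0
      rw [delta_apply, if_neg, smul_zero]
      intro h
      exact hs (Subtype.ext h.symm)
    · intro h
      exact absurd (Finset.mem_univ _) h
  · symm
    refine Finset.sum_eq_zero fun s _ => ?_
    show f (s : G) • (delta (s : G) : Ell G) g = 0
    rw [delta_apply, if_neg, smul_zero]
    intro h
    exact hg (h ▸ s.2)

theorem norm_cut_sq (S : Subgroup G) [Fintype S] (f : Ell G) :
    ‖cut (S : Set G) f‖ ^ 2 = ∑ u : S, ‖f (u : G)‖ ^ 2 := by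
  classical
  rw [norm_sq_eq]
  have : (fun g : G => ‖cut (S : Set G) f g‖ ^ 2) =
      (S : Set G).indicator (fun g => ‖f g‖ ^ 2) := by
    funext g
    rw [cut_apply, Set.indicator_apply]
    split_ifs <;> simp
  rw [this, ← tsum_subtype]
  exact tsum_fintype _

theorem norm_expE_le (S : Subgroup G) [Fintype S] {x : Ell G →L[ℂ] Ell G}
    (hx : ∀ g, x * rho g = rho g * x) : ‖expE S x‖ ≤ ‖x‖ := by
  refine ContinuousLinearMap.opNorm_le_bound _ (norm_nonneg _) fun f => ?_
  have key : ∀ t : G, ∑ u : S, ‖(expE S x f) ((u : G) * t)‖ ^ 2 ≤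
      ‖x‖ ^ 2 * ∑ u : S, ‖f ((u : G) * t)‖ ^ 2 := by
    intro t
    have h1 : ∀ k : S, (expE S x f) ((k : G) * t) = (x (cut (S : Set G) (rho t f))) (k : G) := by
      intro k
      rw [cut_eq_sum, map_sum, lp.coeFn_sum, Finset.sum_apply, expE_apply]
      rw [← Equiv.sum_comp ((Equiv.inv S).trans (Equiv.mulLeft k))]
      refine Finset.sum_congr rfl fun u _ => ?_
      rw [map_smul]
      show (x (delta 1)) ((k * u⁻¹ : S) : G) * f (((k * u⁻¹ : S) : G)⁻¹ * ((k : G) * t)) =
        (rho t f) (u : G) • (x (delta (u : G))) (k : G)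
      rw [coef_apply hx (u : G) (k : G), rho_apply, smul_eq_mul, mul_comm]
      congr 2
      push_cast
      group
    have h2 : ‖cut (S : Set G) (rho t f)‖ ^ 2 = ∑ u : S, ‖f ((u : G) * t)‖ ^ 2 := norm_cut_sq S _
    calc ∑ u : S, ‖(expE S x f) ((u : G) * t)‖ ^ 2
        = ∑ u : S, ‖(x (cut (S : Set G) (rho t f))) (u : G)‖ ^ 2 := by
          refine Finset.sum_congr rfl fun u _ => ?_
          rw [h1]
      _ = ‖cut (S : Set G) (x (cut (S : Set G) (rho t f)))‖ ^ 2 := (norm_cut_sq S _).symm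
      _ ≤ ‖x (cut (S : Set G) (rho t f))‖ ^ 2 :=
          pow_le_pow_left₀ (norm_nonneg _) (norm_cutFun_le _ _) 2
      _ ≤ (‖x‖ * ‖cut (S : Set G) (rho t f)‖) ^ 2 :=
          pow_le_pow_left₀ (norm_nonneg _) (x.le_opNorm _) 2
      _ = ‖x‖ ^ 2 * ∑ u : S, ‖f ((u : G) * t)‖ ^ 2 := by rw [mul_pow, h2]
  have h3 := tsum_shift S (expE S x f)
  have h4 := (tsum_shift S f).mul_left (‖x‖ ^ 2)
  have h5 := hasSum_le key h3 h4
  have h6 : (0 : ℝ) < Fintype.card S := by exact_mod_cast Fintype.card_pos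
  have h7 : ‖expE S x f‖ ^ 2 ≤ (‖x‖ * ‖f‖) ^ 2 := by
    rw [mul_pow]
    have : (Fintype.card S : ℝ) * ‖expE S x f‖ ^ 2 ≤
        (Fintype.card S : ℝ) * (‖x‖ ^ 2 * ‖f‖ ^ 2) := by
      linarith
    exact le_of_mul_le_mul_left this h6
  exact le_of_sq_le_sq h7 (by positivity)

end expectation

end Pool.Agent.Y563.TVN
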