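import Mathlib
import Pool.Agent.Y563.GvNAut

/-!
Finitary permutations, density of the finite stages and elementary equivalence.
-/

open Filter Topology
open scoped ComplexConjugate ENNReal InnerProductSpace

namespace Pool.Agent.Y563.TVN

variable {J : Type}

/-- finitary permutations of `J` moving only points of `S` -/
def Hs (S : Set J) : Subgroup (Equiv.Perm J) where
  carrier := {σ | {j | σ j ≠ j}.Finite ∧ ∀ j, σ j ≠ j → j ∈ S}
  mul_mem' := by
    rintro a b ⟨ha, ha'⟩ ⟨hb, hb'⟩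
    have h : ∀ j, (a * b) j ≠ j → b j ≠ j ∨ a j ≠ j := by
      intro j hj
      by_contra hcon
      push Not at hcon
      apply hj
      rw [Equiv.Perm.mul_apply, hcon.1, hcon.2]
    refine ⟨(hb.union ha).subset fun j hj => h j hj, fun j hj => ?_⟩
    rcases h j hj with h | h
    · exact hb' j h
    · exact ha' j h
  one_mem' := ⟨by simp, fun j hj => absurd rfl hj⟩
  inv_mem' := by
    rintro a ⟨ha, ha'⟩
    have h : ∀ j, a⁻¹ j ≠ j → a j ≠ j := by
      intro j hj h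
      apply hj
      rw [Equiv.Perm.inv_eq_iff_eq, h]
    exact ⟨ha.subset fun j hj => h j hj, fun j hj => ha' j (h j hj)⟩

theorem mem_Hs {S : Set J} {σ : Equiv.Perm J} :
    σ ∈ Hs S ↔ {j | σ j ≠ j}.Finite ∧ ∀ j, σ j ≠ j → j ∈ S := Iff.rfl

theorem Hs_mono {S T : Set J} (h : S ⊆ T) : Hs S ≤ Hs T := fun _ hσ =>
  ⟨hσ.1, fun j hj => h (hσ.2 j hj)⟩

theorem app_inv (s : Equiv.Perm J) (j : J) : s (s⁻¹ j) = j := Equiv.apply_symm_apply s j

theorem conj_Hs {S : Set J} {g s : Equiv.Perm J} (h : s⁻¹ * g * s ∈ Hs S) : g ∈ Hs (s '' S) := by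
  have key : ∀ j, g j ≠ j → (s⁻¹ * g * s) (s⁻¹ j) ≠ s⁻¹ j := by
    intro j hj h'
    apply hj
    simp only [Equiv.Perm.mul_apply, app_inv] at h'
    exact (s⁻¹).injective h'
  refine ⟨?_, fun j hj => ?_⟩
  · have : {j | g j ≠ j} ⊆ s '' {j | (s⁻¹ * g * s) j ≠ j} := by
      intro j hj
      exact ⟨s⁻¹ j, key j hj, app_inv _ _⟩
    exact (h.1.image _).subset this
  · exact ⟨s⁻¹ j, h.2 _ (key j hj), app_inv _ _⟩

instance : (Hs (Set.univ : Set J)).Normal where
  conj_mem := by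
    intro n hn g
    have h1 : g⁻¹ * (g * n * g⁻¹) * g ∈ Hs (Set.univ : Set J) := by
      have : g⁻¹ * (g * n * g⁻¹) * g = n := by group
      rwa [this]
    exact Hs_mono (Set.subset_univ _) (conj_Hs h1)

theorem commute_of_fix {S : Set J} {s : Equiv.Perm J} (hs : ∀ j ∈ S, s j = j) :
    ∀ g ∈ Hs S, s * g = g * s := by
  rintro g ⟨_, hg⟩
  ext j
  rw [Equiv.Perm.mul_apply, Equiv.Perm.mul_apply]
  by_cases hj : g j = j
  · rw [hj]
    by_cases hj' : g (s j) = s j
    · rw [hj']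
    · have h1 := hs _ (hg _ hj')
      have h2 : s j = j := s.injective h1
      rw [h2] at hj'
      exact absurd hj hj'
  · have h1 : g (g j) ≠ g j := fun h => hj (g.injective h)
    rw [hs _ (hg _ hj), hs _ (hg _ h1)]

theorem finite_Hs {S : Set J} (hS : S.Finite) : Finite (Hs S) := by
  classical
  have := hS.to_subtype
  refine Finite.of_injective (fun g : Hs S => fun j : S => (⟨g.1 j.1, by
    by_contra hcon
    have h1 : g.1 j.1 ≠ j.1 := fun h => hcon (by rw [h]; exact j.2)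
    have h2 : g.1 (g.1 j.1) ≠ g.1 j.1 := fun h => h1 (g.1.injective h)
    exact hcon (g.2.2 _ h2)⟩ : S)) ?_
  intro g g' h
  refine Subtype.ext (Equiv.ext fun j => ?_)
  by_cases hj : j ∈ S
  · have := congrFun h ⟨j, hj⟩
    exact congrArg Subtype.val this
  · have h1 : g.1 j = j := by
      by_contra h
      exact hj (g.2.2 j h)
    have h2 : g'.1 j = j := by
      by_contra h
      exact hj (g'.2.2 j h)
    rw [h1, h2]

/-- moving a finite set into an infinite one while fixing a finite subset of the latter -/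
theorem exists_move {X : Set J} (hX : X.Infinite) {F : Set J} (hF : F.Finite) (hFX : F ⊆ X)
    {F' : Set J} (hF' : F'.Finite) : ∃ s : Equiv.Perm J, (∀ j ∈ F, s j = j) ∧ s '' F' ⊆ X := by
  classical
  induction F', hF' using Set.Finite.induction_on with
  | empty => exact ⟨1, fun j _ => rfl, by simp⟩
  | @insert j A hj hA ih =>
    obtain ⟨s, hs, hsA⟩ := ih
    by_cases hsj : s j ∈ X
    · refine ⟨s, hs, ?_⟩
      rw [Set.image_insert_eq]
      exact Set.insert_subset hsj hsA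
    · obtain ⟨x, hxX, hx⟩ := (hX.sdiff (hF.union (hA.image s))).nonempty
      have hxF : x ∉ F := fun h => hx (Or.inl h)
      have hxA : x ∉ s '' A := fun h => hx (Or.inr h)
      refine ⟨Equiv.swap (s j) x * s, fun i hi => ?_, ?_⟩
      · rw [Equiv.Perm.mul_apply, hs i hi, Equiv.swap_apply_of_ne_of_ne]
        · rintro rfl
          exact hsj (hFX hi)
        · rintro rfl
          exact hxF hi
      · rintro _ ⟨i, hi, rfl⟩
        rw [Equiv.Perm.mul_apply]
        rcases hi with rfl | hi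
        · rw [Equiv.swap_apply_left]
          exact hxX
        · rw [Equiv.swap_apply_of_ne_of_ne]
          · exact hsA ⟨i, hi, rfl⟩
          · intro h
            apply hsj
            rw [← h]
            exact hsA ⟨i, hi, rfl⟩
          · intro h
            exact hxA ⟨i, hi, h⟩

/-- finite stages are dense with norm control -/
theorem dense_stage {X : Set J} {x : Ell (Equiv.Perm J) →L[ℂ] Ell (Equiv.Perm J)}
    (hx : x ∈ LH (Hs X)) {ε : ℝ} (hε : 0 < ε) : ∃ F : Set J, F.Finite ∧ F ⊆ X ∧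
      ∀ F' : Set J, F'.Finite → F ⊆ F' → F' ⊆ X →
      ∃ y ∈ LH (Hs F'), ‖y‖ ≤ ‖x‖ ∧ ‖(x - y) (delta 1)‖ ≤ ε := by
  classical
  have hx' := mem_LH.1 hx
  set f : Ell (Equiv.Perm J) := x (delta 1) with hf
  have hs := (summable_sq f)
  have h1 := (tendsto_order.1 (tendsto_tsum_compl_atTop_zero (fun g => ‖f g‖ ^ 2))).2 (ε ^ 2)
    (by positivity)
  obtain ⟨T, hT⟩ := (eventually_atTop.1 h1)
  have hT := hT T le_rfl
  set F : Set J := ⋃ g ∈ {g | g ∈ T ∧ g ∈ Hs X}, {j | g j ≠ j} with hFdef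
  have hFfin : F.Finite := by
    refine Set.Finite.biUnion (T.finite_toSet.subset fun g hg => hg.1) fun g hg => hg.2.1
  have hFX : F ⊆ X := by
    intro j hj
    simp only [hFdef, Set.mem_iUnion] at hj
    obtain ⟨g, ⟨_, hg⟩, hj⟩ := hj
    exact hg.2 j hj
  refine ⟨F, hFfin, hFX, fun F' hF' hFF' hF'X => ?_⟩
  have := finite_Hs hF'
  have := Fintype.ofFinite (Hs F')
  refine ⟨expE (Hs F') x, expE_mem _ _, norm_expE_le _ hx'.1, ?_⟩
  have hTF : ∀ g ∈ T, g ∈ Hs X → g ∈ Hs F' := by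
    intro g hg hgX
    refine ⟨hgX.1, fun j hj => hFF' ?_⟩
    simp only [hFdef, Set.mem_iUnion]
    exact ⟨g, ⟨hg, hgX⟩, hj⟩
  have h2 : ‖(x - expE (Hs F') x) (delta 1)‖ ^ 2 ≤ ε ^ 2 := by
    rw [norm_sq_eq]
    have h3 : ∀ g, ‖((x - expE (Hs F') x) (delta 1)) g‖ ^ 2 ≤
        Set.indicator (T : Set (Equiv.Perm J))ᶜ (fun g => ‖f g‖ ^ 2) g := by
      intro g
      have h4 : ((x - expE (Hs F') x) (delta 1)) g = f g - (expE (Hs F') x (delta 1)) g := rfl
      rw [h4, expE_coef]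
      by_cases hgF : g ∈ Hs F'
      · rw [if_pos hgF, sub_self, norm_zero]
        simp only [ne_eq, OfNat.ofNat_ne_zero, not_false_eq_true, zero_pow]
        exact Set.indicator_nonneg (fun _ _ => by positivity) _
      · rw [if_neg hgF, sub_zero]
        by_cases hgT : g ∈ T
        · have : g ∉ Hs X := fun h => hgF (hTF g hgT h)
          rw [hf, hx'.2 g this, norm_zero]
          simp only [ne_eq, OfNat.ofNat_ne_zero, not_false_eq_true, zero_pow]
          exact Set.indicator_nonneg (fun _ _ => by positivity) _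
        · rw [Set.indicator_of_mem (by simpa using hgT)]
    calc ∑' g, ‖((x - expE (Hs F') x) (delta 1)) g‖ ^ 2
        ≤ ∑' g, Set.indicator (T : Set (Equiv.Perm J))ᶜ (fun g => ‖f g‖ ^ 2) g :=
          Summable.tsum_le_tsum h3 (summable_sq _) (hs.indicator _)
      _ = ∑' g : ((T : Set (Equiv.Perm J))ᶜ : Set (Equiv.Perm J)), ‖f g‖ ^ 2 :=
          (tsum_subtype _ _).symm
      _ ≤ ε ^ 2 := hT.le
  exact le_of_sq_le_sq h2 hε.le

/-- mutual approximation of two families gives the same sup and inf -/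
theorem iSup_eq_of_approx {A B : Type} [Nonempty A] [Nonempty B] {f : A → ℝ} {g : B → ℝ} {K : ℝ}
    (hf : ∀ a, |f a| ≤ K) (hg : ∀ b, |g b| ≤ K)
    (h1 : ∀ a, ∀ ε > 0, ∃ b, |f a - g b| ≤ ε) (h2 : ∀ b, ∀ ε > 0, ∃ a, |f a - g b| ≤ ε) :
    (⨆ a, f a) = ⨆ b, g b := by
  have bf : BddAbove (Set.range f) := ⟨K, by rintro _ ⟨i, rfl⟩; exact (abs_le.1 (hf i)).2⟩
  have bg : BddAbove (Set.range g) := ⟨K, by rintro _ ⟨i, rfl⟩; exact (abs_le.1 (hg i)).2⟩
  apply le_antisymm
  · refine ciSup_le fun a => le_of_forall_pos_le_add fun ε hε => ?_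
    obtain ⟨b, hb⟩ := h1 a ε hε
    have := le_ciSup bg b
    have := (abs_le.1 hb).2
    linarith
  · refine ciSup_le fun b => le_of_forall_pos_le_add fun ε hε => ?_
    obtain ⟨a, ha⟩ := h2 b ε hε
    have := le_ciSup bf a
    have := (abs_le.1 ha).1
    linarith

theorem iInf_eq_of_approx {A B : Type} [Nonempty A] [Nonempty B] {f : A → ℝ} {g : B → ℝ} {K : ℝ}
    (hf : ∀ a, |f a| ≤ K) (hg : ∀ b, |g b| ≤ K)
    (h1 : ∀ a, ∀ ε > 0, ∃ b, |f a - g b| ≤ ε) (h2 : ∀ b, ∀ ε > 0, ∃ a, |f a - g b| ≤ ε) :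
    (⨅ a, f a) = ⨅ b, g b := by
  have bf : BddBelow (Set.range f) := ⟨-K, by rintro _ ⟨i, rfl⟩; exact (abs_le.1 (hf i)).1⟩
  have bg : BddBelow (Set.range g) := ⟨-K, by rintro _ ⟨i, rfl⟩; exact (abs_le.1 (hg i)).1⟩
  apply le_antisymm
  · refine le_ciInf fun b => le_of_forall_pos_le_add fun ε hε => ?_
    obtain ⟨a, ha⟩ := h2 b ε hε
    have := ciInf_le bf a
    have := (abs_le.1 ha).2
    linarith
  · refine le_ciInf fun a => le_of_forall_pos_le_add fun ε hε => ?_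
    obtain ⟨b, hb⟩ := h1 a ε hε
    have := ciInf_le bg b
    have := (abs_le.1 hb).1
    linarith

/-- inclusion of `L(H)` in `L(K)` -/
noncomputable def incl {G : Type} [Group G] {H K : Subgroup G} (h : H ≤ K) (x : (gvn H).Elt) :
    (gvn K).Elt := mkE (op x) (LH_mono h (op_mem x))

theorem op_incl {G : Type} [Group G] {H K : Subgroup G} (h : H ≤ K) (x : (gvn H).Elt) :
    op (incl h x) = op x := by
  unfold incl
  exact op_mkE _ _

section inclLemmas
variable {G : Type} [Group G] {H K : Subgroup G} (h : H ≤ K)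

theorem incl_zero : incl h 0 = 0 := op_inj (by rw [op_incl, op_zero, op_zero])

theorem incl_one : incl h 1 = 1 := op_inj (by rw [op_incl, op_one, op_one])

theorem incl_add (x y : (gvn H).Elt) : incl h (x + y) = incl h x + incl h y :=
  op_inj (by rw [op_incl, op_add, op_add, op_incl, op_incl])

theorem incl_mul (x y : (gvn H).Elt) : incl h (x * y) = incl h x * incl h y :=
  op_inj (by rw [op_incl, op_mul, op_mul, op_incl, op_incl])

theorem incl_star (x : (gvn H).Elt) : incl h (star x) = star (incl h x) :=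
  op_inj (by rw [op_incl, op_star, op_star, op_incl])

theorem incl_smul (c : ℂ) (x : (gvn H).Elt) : incl h (c • x) = c • incl h x :=
  op_inj (by rw [op_incl, op_smul, op_smul, op_incl])

theorem tr_incl (x : (gvn H).Elt) : (gvn K).tr (incl h x) = (gvn H).tr x := by
  rw [tr_eq, tr_eq, op_incl]

theorem opNorm_incl (x : (gvn H).Elt) : (gvn K).opNorm (incl h x) = (gvn H).opNorm x := by
  rw [opNorm_eq, opNorm_eq, op_incl]

end inclLemmas

theorem term_incl {G : Type} [Group G] {H K : Subgroup G} (h : H ≤ K) {γ : Type}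
    (v : γ → (gvn H).Elt) (t : Term γ) : t.eval (incl h ∘ v) = incl h (t.eval v) := by
  induction t with
  | var a => rfl
  | zero => exact (incl_zero h).symm
  | one => exact (incl_one h).symm
  | add s t hs ht =>
    simp only [Term.eval]
    rw [hs, ht, incl_add]
  | mul s t hs ht =>
    simp only [Term.eval]
    rw [hs, ht, incl_mul]
  | adj t ht =>
    simp only [Term.eval]
    rw [ht, incl_star]
  | smul c t ht =>
    simp only [Term.eval]
    rw [ht, incl_smul]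

theorem exists_bound {N : TracialVN} {n : ℕ} (w : Fin n → N.Elt) :
    ∃ C : ℝ, ∀ i, N.opNorm (w i) ≤ C :=
  ⟨∑ i, N.opNorm (w i), fun i => Finset.single_le_sum (f := fun i => N.opNorm (w i))
    (fun _ _ => opNorm_nonneg _) (Finset.mem_univ i)⟩

theorem snoc_close {G : Type} [Group G] {H : Subgroup G} {n : ℕ} {w : Fin n → (gvn H).Elt}
    {d : ℝ} {x y : (gvn H).Elt} (hd : 0 ≤ d) (hw : (gvn H).norm2 (x - y) ≤ d) (i : Fin (n + 1)) :
    (gvn H).norm2 ((Fin.snoc w x : Fin (n + 1) → (gvn H).Elt) i -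
      (Fin.snoc w y : Fin (n + 1) → (gvn H).Elt) i) ≤ d := by
  refine Fin.lastCases ?_ (fun j => ?_) i
  · rw [Fin.snoc_last, Fin.snoc_last]
    exact hw
  · rw [Fin.snoc_castSucc, Fin.snoc_castSucc, sub_self, norm2_gvn]
    show ‖(0 : Ell G →L[ℂ] Ell G) (delta 1)‖ ≤ _
    rw [zero_apply, norm_zero]
    exact hd

/-- values of a formula at a point of a ball are approximated by values at finite stages -/
theorem approx_stage {S : Set J} {β : Type} (v : β → (gvn (Hs S)).Elt) {n : ℕ}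
    (φ : Fml β (n + 1)) (w : Fin n → (gvn (Hs S)).Elt) {r : ℕ} (x : (gvn (Hs S)).Elt)
    (hx : (gvn (Hs S)).opNorm x ≤ r + 1) {ε : ℝ} (hε : 0 < ε) :
    ∃ F : Set J, F.Finite ∧ F ⊆ S ∧ ∀ F' : Set J, F'.Finite → F ⊆ F' → F' ⊆ S →
      ∃ y : (gvn (Hs S)).Elt, op y ∈ LH (Hs F') ∧ (gvn (Hs S)).opNorm y ≤ r + 1 ∧
      |φ.eval (gvn (Hs S)) v (Fin.snoc w x) - φ.eval (gvn (Hs S)) v (Fin.snoc w y)| ≤ ε := by
  obtain ⟨C, hC⟩ := exists_bound w
  obtain ⟨d, hd, h⟩ := (fml_uc v φ (max C (r + 1))).2 ε hε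
  obtain ⟨F, hF, hFS, hF'⟩ := dense_stage (op_mem x) hd
  refine ⟨F, hF, hFS, fun F' hF'f hFF' hF'S => ?_⟩
  obtain ⟨y, hy, hyn, hyd⟩ := hF' F' hF'f hFF' hF'S
  have hy' : (gvn (Hs S)).opNorm (mkE y (LH_mono (Hs_mono hF'S) hy)) ≤ r + 1 := by
    rw [opNorm_eq, op_mkE]
    rw [opNorm_eq] at hx
    exact hyn.trans hx
  refine ⟨mkE y (LH_mono (Hs_mono hF'S) hy), by rw [op_mkE]; exact hy, hy', ?_⟩
  refine h _ _ (snoc_le hC hx) (snoc_le hC hy') (snoc_close hd.le ?_)
  rw [norm2_gvn, op_sub, op_mkE]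
  exact hyd

/-- inclusion of `L(Hs X)` in `L(Hs univ)` -/
noncomputable def iotaX (X : Set J) (x : (gvn (Hs X)).Elt) : (gvn (Hs (Set.univ : Set J))).Elt :=
  incl (Hs_mono (Set.subset_univ X)) x

theorem op_iota (X : Set J) (x : (gvn (Hs X)).Elt) : op (iotaX X x) = op x := op_incl _ _

theorem iota_snoc {X : Set J} {n : ℕ} {φ : Fml Empty (n + 1)}
    (ih : ∀ (w : Fin (n + 1) → (gvn (Hs X)).Elt)
      (F : Set J), F.Finite → F ⊆ X → (∀ i, op (w i) ∈ LH (Hs F)) →
      φ.eval (gvn (Hs (Set.univ : Set J))) Empty.elim (iotaX X ∘ w) =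
      φ.eval (gvn (Hs X)) Empty.elim w) {w : Fin n → (gvn (Hs X)).Elt} {F : Set J}
    (hw : ∀ i, op (w i) ∈ LH (Hs F)) (y : (gvn (Hs X)).Elt) {F' : Set J} (hF' : F'.Finite)
    (hFF' : F ⊆ F') (hF'X : F' ⊆ X) (hy : op y ∈ LH (Hs F')) :
    φ.eval (gvn (Hs (Set.univ : Set J))) Empty.elim (Fin.snoc (iotaX X ∘ w) (iotaX X y)) =
      φ.eval (gvn (Hs X)) Empty.elim (Fin.snoc w y) := by
  rw [comp_snoc]
  refine ih _ F' hF' hF'X fun i => ?_
  refine Fin.lastCases ?_ (fun j => ?_) i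
  · rw [Fin.snoc_last]
    exact hy
  · rw [Fin.snoc_castSucc]
    exact LH_mono (Hs_mono hFF') (hw j)

theorem key_one {X : Set J} (hX : X.Infinite) {n : ℕ} {φ : Fml Empty (n + 1)}
    (ih : ∀ (w : Fin (n + 1) → (gvn (Hs X)).Elt)
      (F : Set J), F.Finite → F ⊆ X → (∀ i, op (w i) ∈ LH (Hs F)) →
      φ.eval (gvn (Hs (Set.univ : Set J))) Empty.elim (iotaX X ∘ w) =
      φ.eval (gvn (Hs X)) Empty.elim w) {w : Fin n → (gvn (Hs X)).Elt} {F : Set J}
    (hF : F.Finite) (hFX : F ⊆ X) (hw : ∀ i, op (w i) ∈ LH (Hs F)) (r : ℕ)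
    (x : (gvn (Hs (Set.univ : Set J))).Elt) (hx : (gvn (Hs (Set.univ : Set J))).opNorm x ≤ r + 1)
    {ε : ℝ} (hε : 0 < ε) : ∃ y : (gvn (Hs X)).Elt, (gvn (Hs X)).opNorm y ≤ r + 1 ∧
        |φ.eval (gvn (Hs (Set.univ : Set J))) Empty.elim (Fin.snoc (iotaX X ∘ w) x) -
          φ.eval (gvn (Hs X)) Empty.elim (Fin.snoc w y)| ≤ ε := by
  obtain ⟨F0, hF0, _, h0⟩ :=
    approx_stage (S := (Set.univ : Set J)) Empty.elim φ (iotaX X ∘ w) x hx hε
  obtain ⟨z, hz, hzn, hzd⟩ := h0 F0 hF0 subset_rfl (Set.subset_univ _)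
  obtain ⟨s, hs, hsX⟩ := exists_move hX hF hFX hF0
  have hiso := conjE_iso (Hs (Set.univ : Set J)) s
  -- transport by the automorphism
  have h1 := eval_iso hiso Empty.elim φ (Fin.snoc (iotaX X ∘ w) z)
  have h6 : (conjE (Hs (Set.univ : Set J)) s) ∘ (iotaX X ∘ w) = iotaX X ∘ w := by
    funext i
    refine op_inj ?_
    rw [Function.comp_apply, op_conjE, Function.comp_apply, op_iota]
    exact conj_fix (hw i) s (commute_of_fix hs)
  have h2 : (conjE (Hs (Set.univ : Set J)) s) ∘ (Fin.snoc (iotaX X ∘ w) z) =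
      (Fin.snoc (iotaX X ∘ w) (conjE (Hs (Set.univ : Set J)) s z) :
        Fin (n + 1) → (gvn (Hs (Set.univ : Set J))).Elt) := by
    rw [← comp_snoc, h6]
  have h3 : (conjE (Hs (Set.univ : Set J)) s) ∘ Empty.elim = Empty.elim := by
    funext e
    exact e.elim
  rw [h2, h3] at h1
  have hzX : lam s * op z * lam s⁻¹ ∈ LH (Hs (s '' F0)) := conj_mem hz s fun g hg => conj_Hs hg
  have hzX' : lam s * op z * lam s⁻¹ ∈ LH (Hs X) := LH_mono (Hs_mono hsX) hzX
  have hn : (gvn (Hs X)).opNorm (mkE _ hzX') ≤ r + 1 := by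
    rw [opNorm_eq, op_mkE, conj_norm]
    rw [opNorm_eq] at hzn
    exact hzn
  refine ⟨mkE _ hzX', hn, ?_⟩
  have hzX2 : op (mkE (H := Hs X) _ hzX') ∈ LH (Hs (F ∪ s '' F0)) := by
    rw [op_mkE]
    exact LH_mono (Hs_mono Set.subset_union_right) hzX
  have h4 := iota_snoc ih hw (mkE _ hzX') (hF.union (hF0.image _)) Set.subset_union_left
    (Set.union_subset hFX hsX) hzX2
  rw [← h4]
  have h5 : iotaX X (mkE _ hzX') = conjE (Hs (Set.univ : Set J)) s z := by
    refine op_inj ?_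
    rw [op_iota, op_mkE, op_conjE]
  rw [h5, h1]
  exact hzd

theorem key_two {X : Set J} {n : ℕ} {φ : Fml Empty (n + 1)}
    (ih : ∀ (w : Fin (n + 1) → (gvn (Hs X)).Elt)
      (F : Set J), F.Finite → F ⊆ X → (∀ i, op (w i) ∈ LH (Hs F)) →
      φ.eval (gvn (Hs (Set.univ : Set J))) Empty.elim (iotaX X ∘ w) =
      φ.eval (gvn (Hs X)) Empty.elim w) {w : Fin n → (gvn (Hs X)).Elt} {F : Set J}
    (hF : F.Finite) (hFX : F ⊆ X) (hw : ∀ i, op (w i) ∈ LH (Hs F)) (r : ℕ)
    (y : (gvn (Hs X)).Elt) (hy : (gvn (Hs X)).opNorm y ≤ r + 1)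
    {ε : ℝ} (hε : 0 < ε) : ∃ x : (gvn (Hs (Set.univ : Set J))).Elt,
        (gvn (Hs (Set.univ : Set J))).opNorm x ≤ r + 1 ∧
        |φ.eval (gvn (Hs (Set.univ : Set J))) Empty.elim (Fin.snoc (iotaX X ∘ w) x) -
          φ.eval (gvn (Hs X)) Empty.elim (Fin.snoc w y)| ≤ ε := by
  obtain ⟨F0, hF0, hF0X, h0⟩ := approx_stage (S := X) Empty.elim φ w y hy hε
  obtain ⟨z, hz, hzn, hzd⟩ := h0 (F ∪ F0) (hF.union hF0) Set.subset_union_right
    (Set.union_subset hFX hF0X)
  refine ⟨iotaX X z, ?_, ?_⟩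
  · rw [opNorm_eq, op_iota]
    rw [opNorm_eq] at hzn
    exact hzn
  · rw [iota_snoc ih hw z (hF.union hF0) Set.subset_union_left (Set.union_subset hFX hF0X) hz,
      abs_sub_comm]
    exact hzd

/-- **Elementary equivalence** of `L(Hs X)` and `L(Hs univ)`, in the form: formulas with
parameters in finite stages have the same value. -/
theorem elem_incl {X : Set J} (hX : X.Infinite) {n : ℕ} (φ : Fml Empty n) :
    ∀ (w : Fin n → (gvn (Hs X)).Elt) (F : Set J), F.Finite → F ⊆ X →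
      (∀ i, op (w i) ∈ LH (Hs F)) →
      φ.eval (gvn (Hs (Set.univ : Set J))) Empty.elim (iotaX X ∘ w) =
      φ.eval (gvn (Hs X)) Empty.elim w := by
  have hE : (Empty.elim : Empty → (gvn (Hs (Set.univ : Set J))).Elt) = iotaX X ∘ Empty.elim := by
    funext e
    exact e.elim
  induction φ with
  | re t =>
    intro w F hF hFX hw
    simp only [Fml.eval]
    rw [hE, ← Sum.comp_elim]
    unfold iotaX
    rw [term_incl, tr_incl]
  | im t =>
    intro w F hF hFX hw
    simp only [Fml.eval]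
    rw [hE, ← Sum.comp_elim]
    unfold iotaX
    rw [term_incl, tr_incl]
  | conn k u hu φ ih =>
    intro w F hF hFX hw
    simp only [Fml.eval]
    congr 1
    funext i
    exact ih i w F hF hFX hw
  | sup r φ ih =>
    intro w F hF hFX hw
    obtain ⟨C, hC⟩ := exists_bound w
    obtain ⟨C', hC'⟩ := exists_bound (iotaX X ∘ w)
    obtain ⟨K, hK⟩ := (fml_uc (H := Hs X) Empty.elim φ (max C (r + 1))).1
    obtain ⟨K', hK'⟩ :=
      (fml_uc (H := Hs (Set.univ : Set J)) Empty.elim φ (max C' (r + 1))).1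
    simp only [Fml.eval]
    refine iSup_eq_of_approx (K := max K K')
      (fun x => (hK' _ (snoc_le hC' x.2)).trans (le_max_right _ _))
      (fun x => (hK _ (snoc_le hC x.2)).trans (le_max_left _ _)) (fun x ε hε => ?_)
      (fun y ε hε => ?_)
    · obtain ⟨y, hy, h⟩ := key_one hX ih hF hFX hw r x.1 x.2 hε
      exact ⟨⟨y, hy⟩, h⟩
    · obtain ⟨x, hx, h⟩ := key_two ih hF hFX hw r y.1 y.2 hε
      exact ⟨⟨x, hx⟩, h⟩
  | inf r φ ih =>
    intro w F hF hFX hw
    obtain ⟨C, hC⟩ := exists_bound w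
    obtain ⟨C', hC'⟩ := exists_bound (iotaX X ∘ w)
    obtain ⟨K, hK⟩ := (fml_uc (H := Hs X) Empty.elim φ (max C (r + 1))).1
    obtain ⟨K', hK'⟩ :=
      (fml_uc (H := Hs (Set.univ : Set J)) Empty.elim φ (max C' (r + 1))).1
    simp only [Fml.eval]
    refine iInf_eq_of_approx (K := max K K')
      (fun x => (hK' _ (snoc_le hC' x.2)).trans (le_max_right _ _))
      (fun x => (hK _ (snoc_le hC x.2)).trans (le_max_left _ _)) (fun x ε hε => ?_)
      (fun y ε hε => ?_)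
    · obtain ⟨y, hy, h⟩ := key_one hX ih hF hFX hw r x.1 x.2 hε
      exact ⟨⟨y, hy⟩, h⟩
    · obtain ⟨x, hx, h⟩ := key_two ih hF hFX hw r y.1 y.2 hε
      exact ⟨⟨x, hx⟩, h⟩

/-- the two algebras have the same theory -/
theorem elemEquiv {X : Set J} (hX : X.Infinite) :
    ElemEquiv (gvn (Hs X)) (gvn (Hs (Set.univ : Set J))) := by
  intro φ
  have := elem_incl hX φ ![] ∅ Set.finite_empty (Set.empty_subset _) (fun i => i.elim0)
  rw [← this]
  congr 1
  funext i
  exact i.elim0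

end Pool.Agent.Y563.TVN
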