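import Mathlib
import Pool.Agent.Y563.GvNPerm

/-!
A type over a set `B` in `L(S_fin(ℝ × Option ℕ × Bool))` that divides over every separable subset.
-/

open Filter Topology

namespace Pool.Agent.Y563.TVN

/-- the set of points -/
abbrev JJ : Type := ℝ × (Option ℕ × Bool)

/-- the group of finitary permutations -/
abbrev FF : Subgroup (Equiv.Perm JJ) := Hs (Set.univ : Set JJ)

/-- acting on the middle coordinate, depending on the first -/
def shear (s : ℝ → Equiv.Perm (Option ℕ)) : Equiv.Perm JJ :=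
  Equiv.prodShear (Equiv.refl ℝ) (fun i => (s i).prodCongr (Equiv.refl Bool))

theorem shear_apply (s : ℝ → Equiv.Perm (Option ℕ)) (i : ℝ) (o : Option ℕ) (b : Bool) :
    shear s (i, o, b) = (i, s i o, b) := rfl

/-- the transposition of `(i, o, false)` and `(i, o, true)` -/
noncomputable def sw (i : ℝ) (o : Option ℕ) : Equiv.Perm JJ :=
  Equiv.swap (i, o, false) (i, o, true)

theorem shear_sw (s : ℝ → Equiv.Perm (Option ℕ)) (i : ℝ) (o : Option ℕ) :
    shear s * sw i o = sw i (s i o) * shear s := by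
  unfold sw
  rw [Equiv.mul_swap_eq_swap_mul, shear_apply, shear_apply]

theorem mem_FF {g : Equiv.Perm JJ} (h : {j | g j ≠ j}.Finite) : g ∈ FF := ⟨h, fun _ _ => trivial⟩

theorem sw_mem (i : ℝ) (o : Option ℕ) : sw i o ∈ FF := by
  refine mem_FF (Set.Finite.subset (Set.toFinite {(i, o, false), (i, o, true)}) fun j hj => ?_)
  by_contra h
  simp only [Set.mem_insert_iff, Set.mem_singleton_iff, not_or] at h
  exact hj (Equiv.swap_apply_of_ne_of_ne h.1 h.2)

theorem sw_inj {i i' : ℝ} {o o' : Option ℕ} (h : sw i o = sw i' o') : i = i' ∧ o = o' := by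
  have h1 : sw i o (i, o, false) = (i, o, true) := Equiv.swap_apply_left _ _
  rw [h] at h1
  unfold sw at h1
  by_cases e : (i, o, false) = (i', o', false)
  · simp only [Prod.mk.injEq] at e
    exact ⟨e.1, e.2.1⟩
  · exfalso
    rw [Equiv.swap_apply_of_ne_of_ne e (by simp)] at h1
    simp at h1

open Classical in
/-- the conjugating permutation for a finite set of rows -/
noncomputable def gF (F : Finset ℝ) : Equiv.Perm JJ :=
  shear fun i => if i ∈ F then Equiv.swap none (some 0) else 1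

theorem gF_mem (F : Finset ℝ) : gF F ∈ FF := by
  classical
  refine mem_FF (Set.Finite.subset (Set.toFinite
    ((F : Set ℝ) ×ˢ (({none, some 0} : Set (Option ℕ)) ×ˢ (Set.univ : Set Bool)))) ?_)
  rintro ⟨i, o, b⟩ hj
  simp only [Set.mem_prod, Set.mem_insert_iff, Set.mem_singleton_iff, Set.mem_univ, and_true,
    Finset.mem_coe]
  have h1 : gF F (i, o, b) = (i, (if i ∈ F then Equiv.swap none (some 0) else 1 :
    Equiv.Perm (Option ℕ)) o, b) := rfl
  by_cases hi : i ∈ F
  · refine ⟨hi, ?_⟩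
    by_contra h
    push Not at h
    apply hj
    rw [h1, if_pos hi, Equiv.swap_apply_of_ne_of_ne h.1 h.2]
  · exfalso
    apply hj
    rw [h1, if_neg hi]
    rfl

theorem gF_sw {F : Finset ℝ} {i : ℝ} (hi : i ∈ F) : gF F * sw i none = sw i (some 0) * gF F := by
  classical
  unfold gF
  rw [shear_sw, if_pos hi, Equiv.swap_apply_left]

/-- the algebra -/
noncomputable abbrev NN : TracialVN := gvn FF

/-- group elements as elements of the algebra -/
noncomputable def LL (g : FF) : NN.Elt := mkE (lam (g : Equiv.Perm JJ)) (lam_mem g.2)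

theorem op_LL (g : FF) : op (LL g) = lam (g : Equiv.Perm JJ) := op_mkE _ _

theorem LL_mul (g h : FF) : LL (g * h) = LL g * LL h :=
  op_inj (by rw [op_mul, op_LL, op_LL, op_LL, Subgroup.coe_mul, lam_mul])

theorem LL_star_mul (g : FF) : LL g * star (LL g) = 1 :=
  op_inj (by rw [op_mul, op_star, op_LL, op_one, star_lam, lam_mul_inv])

theorem opNorm_LL (g : FF) : NN.opNorm (LL g) ≤ 1 := by
  rw [opNorm_eq, op_LL]
  exact ContinuousLinearMap.opNorm_le_bound _ zero_le_one fun f => by
    rw [norm_lam_apply, one_mul]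

theorem LL_dist {g h : FF} (hgh : g ≠ h) : 1 ≤ NN.norm2 (LL g - LL h) := by
  classical
  rw [norm2_gvn, op_sub, op_LL, op_LL]
  have h1 : ‖((lam (g : Equiv.Perm JJ) - lam (h : Equiv.Perm JJ)) (delta 1)) (g : Equiv.Perm JJ)‖
      = 1 := by
    have : ((lam (g : Equiv.Perm JJ) - lam (h : Equiv.Perm JJ)) (delta 1)) (g : Equiv.Perm JJ) =
      (lam (g : Equiv.Perm JJ) (delta 1)) (g : Equiv.Perm JJ) -
      (lam (h : Equiv.Perm JJ) (delta 1)) (g : Equiv.Perm JJ) := rfl
    rw [this, lam_delta, lam_delta, mul_one, mul_one, delta_apply, delta_apply, if_pos rfl, if_neg,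
      sub_zero, norm_one]
    intro e
    exact hgh (Subtype.ext e)
  rw [← h1]
  exact lp.norm_apply_le_norm (by norm_num) _ _

theorem LL_inj {g h : FF} (e : LL g = LL h) : g = h := by
  by_contra hne
  have := LL_dist hne
  rw [e, sub_self, norm2_gvn, op_zero, zero_apply, norm_zero] at this
  linarith

/-- the `a` elements -/
noncomputable def aE (i : ℝ) : NN.Elt := LL ⟨sw i none, sw_mem _ _⟩

/-- the `b` elements -/
noncomputable def bE (i : ℝ) (k : ℕ) : NN.Elt := LL ⟨sw i (some k), sw_mem _ _⟩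

/-- the realisations of finitely many rows -/
noncomputable def xE (F : Finset ℝ) : NN.Elt := LL ⟨gF F, gF_mem F⟩

theorem xE_mul {F : Finset ℝ} {i : ℝ} (hi : i ∈ F) : xE F * aE i = bE i 0 * xE F := by
  unfold xE aE bE
  rw [← LL_mul, ← LL_mul]
  congr 1
  exact Subtype.ext (gF_sw hi)

theorem bE_inj {i i' : ℝ} {k k' : ℕ} (h : bE i k = bE i' k') : i = i' ∧ k = k' := by
  have h1 := LL_inj h
  have h2 := sw_inj (congrArg Subtype.val h1)
  exact ⟨h2.1, Option.some_injective _ h2.2⟩

theorem aE_ne_bE (i i' : ℝ) (k : ℕ) : aE i ≠ bE i' k := by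
  intro h
  have h1 := LL_inj h
  have h2 := sw_inj (congrArg Subtype.val h1)
  exact absurd h2.2 (by simp)

/-- the parameter set -/
def BB : Set NN.Elt := Set.range aE ∪ Set.range fun i => bE i 0

/-- `a i` as a parameter -/
noncomputable def aB (i : ℝ) : BB := ⟨aE i, Or.inl ⟨i, rfl⟩⟩

/-- `b i 0` as a parameter -/
noncomputable def bB (i : ℝ) : BB := ⟨bE i 0, Or.inr ⟨i, rfl⟩⟩

/-- formula for the square of the trace norm of a term -/
noncomputable def sqF {β : Type} {n : ℕ} (t : Term (β ⊕ Fin n)) : Fml β n :=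
  Fml.re (Term.mul (Term.adj t) t)

/-- difference of terms -/
def tsub {γ : Type} (s t : Term γ) : Term γ := Term.add s (Term.smul (-1) t)

theorem eval_tsub {A : Type} [Ring A] [StarRing A] [Algebra ℂ A] {γ : Type} (v : γ → A)
    (s t : Term γ) : (tsub s t).eval v = s.eval v - t.eval v := by
  show s.eval v + (-1 : ℂ) • t.eval v = _
  rw [neg_one_smul, sub_eq_add_neg]

theorem eval_sqF {β : Type} {n : ℕ} (v : β → NN.Elt) (w : Fin n → NN.Elt)
    (t : Term (β ⊕ Fin n)) : (sqF t).eval NN v w = NN.norm2 (t.eval (Sum.elim v w)) ^ 2 := by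
  unfold TracialVN.norm2
  rw [Real.sq_sqrt]
  · rfl
  · exact (Complex.le_def.1 (NN.tr_nonneg (t.eval (Sum.elim v w)))).1

/-- `x x* = 1` -/
noncomputable def condU : Fml BB 1 :=
  sqF (tsub (Term.mul (Term.var (Sum.inr 0)) (Term.adj (Term.var (Sum.inr 0)))) Term.one)

/-- `x a_i = b_{i0} x` -/
noncomputable def condI (i : ℝ) : Fml BB 1 :=
  sqF (tsub (Term.mul (Term.var (Sum.inr 0)) (Term.var (Sum.inl (aB i))))
    (Term.mul (Term.var (Sum.inl (bB i))) (Term.var (Sum.inr 0))))

theorem eval_condU (v : BB → NN.Elt) (w : Fin 1 → NN.Elt) :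
    condU.eval NN v w = NN.norm2 (w 0 * star (w 0) - 1) ^ 2 := by
  unfold condU
  rw [eval_sqF, eval_tsub]
  rfl

theorem eval_condI (i : ℝ) (v : BB → NN.Elt) (w : Fin 1 → NN.Elt) :
    (condI i).eval NN v w = NN.norm2 (w 0 * v (aB i) - v (bB i) * w 0) ^ 2 := by
  unfold condI
  rw [eval_sqF, eval_tsub]
  rfl

theorem norm2_zero : NN.norm2 (0 : NN.Elt) = 0 := by
  rw [norm2_gvn, op_zero, zero_apply, norm_zero]

/-- the ultrafilter -/
noncomputable def UU : Ultrafilter (Finset ℝ) := Ultrafilter.of atTop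

theorem exists_lim (φ : Fml BB 1) : ∃ L : ℝ,
    Tendsto (fun F => φ.eval NN (fun b : BB => b.1) fun _ => xE F) UU (𝓝 L) := by
  obtain ⟨K, hK⟩ := (fml_uc (H := FF) (fun b : BB => b.1) φ 1).1
  have h1 : ∀ F, φ.eval NN (fun b : BB => b.1) (fun _ => xE F) ∈ Set.Icc (-K) K := fun F =>
    abs_le.1 (hK _ fun _ => opNorm_LL _)
  have h2 : (UU.map fun F => φ.eval NN (fun b : BB => b.1) fun _ => xE F : Filter ℝ) ≤
      𝓟 (Set.Icc (-K) K) := by
    rw [le_principal_iff]
    exact Filter.mem_map.2 (Filter.Eventually.of_forall h1)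
  obtain ⟨L, _, hL⟩ := isCompact_Icc.ultrafilter_le_nhds _ h2
  exact ⟨L, hL⟩

/-- the type -/
noncomputable def pT : CType NN BB (fun _ : Fin 1 => 0) where
  val φ := (exists_lim φ).choose
  sat := by
    intro s ε hε
    have h1 : ∀ᶠ F in (UU : Filter (Finset ℝ)), ∀ φ ∈ s,
        |φ.eval NN (fun b : BB => b.1) (fun _ => xE F) - (exists_lim φ).choose| < ε := by
      rw [Filter.eventually_all_finset]
      intro φ _
      have h2 := (exists_lim φ).choose_spec
      have h3 := (Metric.tendsto_nhds.1 h2) ε hε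
      filter_upwards [h3] with F hF
      rwa [Real.dist_eq] at hF
    obtain ⟨F, hF⟩ := h1.exists
    refine ⟨fun _ => xE F, fun _ => ?_, hF⟩
    have := opNorm_LL ⟨gF F, gF_mem F⟩
    show NN.opNorm (LL ⟨gF F, gF_mem F⟩) ≤ ((0 : ℕ) : ℝ) + 1
    rw [Nat.cast_zero, zero_add]
    exact this

theorem val_condU : pT.val condU = 0 := by
  have h1 := (exists_lim condU).choose_spec
  refine tendsto_nhds_unique h1 ?_
  have : (fun F => condU.eval NN (fun b : BB => b.1) fun _ => xE F) = fun _ => 0 := by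
    funext F
    rw [eval_condU]
    unfold xE
    rw [LL_star_mul, sub_self, norm2_zero]
    norm_num
  rw [this]
  exact tendsto_const_nhds

theorem val_condI (i : ℝ) : pT.val (condI i) = 0 := by
  have h1 := (exists_lim (condI i)).choose_spec
  refine tendsto_nhds_unique h1 ?_
  refine Tendsto.congr' (f₁ := fun _ => 0) ?_ tendsto_const_nhds
  have h2 : ∀ᶠ F in (UU : Filter (Finset ℝ)), {i} ≤ F :=
    (Ultrafilter.of_le (atTop : Filter (Finset ℝ))) (eventually_ge_atTop _)
  filter_upwards [h2] with F hF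
  rw [eval_condI]
  have hi : i ∈ F := hF (Finset.mem_singleton_self i)
  have : xE F * (aB i).1 - (bB i).1 * xE F = 0 := by
    show xE F * aE i - bE i 0 * xE F = 0
    rw [xE_mul hi, sub_self]
  rw [this, norm2_zero]
  norm_num

open Classical in
/-- the sequence of copies of `B` -/
noncomputable def seqB (i : ℝ) (k : ℕ) (c : BB) : NN.Elt :=
  if c.1 = bE i 0 then bE i k else c.1

theorem exists_row {A : Set NN.Elt} (hA : A ⊆ BB) (hsep : Separable NN A) :
    ∃ i, bE i 0 ∉ A := by
  by_contra hcon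
  push Not at hcon
  obtain ⟨D, hDA, hD, hd⟩ := hsep
  have h1 : ∀ i, bE i 0 ∈ D := by
    intro i
    obtain ⟨d, hdD, hlt⟩ := hd (bE i 0) (hcon i) 1 one_pos
    have hdB := hA (hDA hdD)
    have h2 : ∃ g : FF, d = LL g := by
      rcases hdB with ⟨j, rfl⟩ | ⟨j, rfl⟩
      · exact ⟨_, rfl⟩
      · exact ⟨_, rfl⟩
    obtain ⟨g, rfl⟩ := h2
    have h3 : bE i 0 = LL g := by
      by_contra hne
      unfold bE at hlt hne
      have := LL_dist (g := ⟨sw i (some 0), sw_mem _ _⟩) (h := g) (fun e => hne (by rw [e]))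
      linarith
    rw [h3]
    exact hdD
  have h2 : Function.Injective (fun i : ℝ => (⟨bE i 0, h1 i⟩ : D)) := by
    intro i j h
    exact (bE_inj (congrArg Subtype.val h)).1
  have := hD.to_subtype
  have h3 : Countable ℝ := h2.countable
  exact not_countable h3

/-- the automorphism permuting the `b i k` -/
theorem conj_seq (i : ℝ) {m : ℕ} {s t : Fin m → ℕ} (hs : Function.Injective s)
    (ht : Function.Injective t) : ∃ g : Equiv.Perm JJ,
      (∀ j, conjE FF g (bE i (s j)) = bE i (t j)) ∧ (∀ j, conjE FF g (aE j) = aE j) ∧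
      ∀ j, j ≠ i → ∀ k, conjE FF g (bE j k) = bE j k := by
  classical
  obtain ⟨τ, hτ⟩ := Equiv.Perm.exists_extending_pair s t hs ht
  set r : ℝ → Equiv.Perm (Option ℕ) := fun j => if j = i then Equiv.optionCongr τ else 1 with hr
  have key : ∀ (j : ℝ) (o : Option ℕ),
      conjE FF (shear r) (LL ⟨sw j o, sw_mem _ _⟩) = LL ⟨sw j (r j o), sw_mem _ _⟩ := by
    intro j o
    refine op_inj ?_
    rw [op_conjE, op_LL, op_LL, ← lam_mul, ← lam_mul]
    congr 1
    rw [shear_sw, mul_inv_cancel_right]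
  refine ⟨shear r, fun j => ?_, fun j => ?_, fun j hj k => ?_⟩
  · unfold bE
    rw [key]
    have : r i (some (s j)) = some (t j) := by
      rw [hr]
      simp only [if_true]
      show some (τ (s j)) = some (t j)
      rw [hτ]
    simp only [this]
  · unfold aE
    rw [key]
    have : r j none = none := by
      rw [hr]
      by_cases h : j = i
      · simp [h]
      · simp [h]
    simp only [this]
  · unfold bE
    rw [key]
    have : r j (some k) = some k := by
      rw [hr]
      simp [hj]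
    simp only [this]

theorem indisc {A : Set NN.Elt} (hA : A ⊆ BB) {i : ℝ} (hi : bE i 0 ∉ A) :
    Indiscernible NN A (seqB i) := by
  classical
  intro m s t hs ht φ
  obtain ⟨g, hg1, hg2, hg3⟩ := conj_seq i hs.injective ht.injective
  have h1 := eval_iso (conjE_iso FF g)
    (Sum.elim (fun a : A => a.1) fun p : Fin m × BB => seqB i (s p.1) p.2) φ ![]
  rw [← h1]
  have hfix : ∀ c ∈ BB, c ≠ bE i 0 → conjE FF g c = c := by
    rintro c (⟨j, rfl⟩ | ⟨j, rfl⟩) hc
    · exact hg2 j
    · refine hg3 j ?_ 0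
      rintro rfl
      exact hc rfl
  congr 1
  · funext q
    rcases q with a | ⟨j, c⟩
    · show conjE FF g a.1 = a.1
      exact hfix _ (hA a.2) fun h => hi (h ▸ a.2)
    · show conjE FF g (seqB i (s j) c) = seqB i (t j) c
      unfold seqB
      by_cases hc : c.1 = bE i 0
      · rw [if_pos hc, if_pos hc]
        exact hg1 j
      · rw [if_neg hc, if_neg hc]
        exact hfix _ c.2 hc
  · funext q
    exact q.elim0

theorem incons_core (i : ℝ) (x : NN.Elt) (hx1 : NN.opNorm x ≤ 1)
    (e1 : NN.norm2 (x * star x - 1) < 1 / 8) (e2 : NN.norm2 (x * aE i - bE i 0 * x) < 1 / 8)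
    (e3 : NN.norm2 (x * aE i - bE i 1 * x) < 1 / 8) : False := by
  set c : NN.Elt := bE i 0 - bE i 1 with hc
  have hc1 : 1 ≤ NN.norm2 c := by
    refine LL_dist ?_
    intro e
    have := (sw_inj (congrArg Subtype.val e)).2
    simp at this
  have hc2 : NN.opNorm c ≤ 2 := by
    have h1 : NN.opNorm c ≤ NN.opNorm (bE i 0) + NN.opNorm (bE i 1) := by
      rw [opNorm_eq, opNorm_eq, opNorm_eq, hc, op_sub]
      exact norm_sub_le _ _
    have h2 : NN.opNorm (bE i 0) ≤ 1 := opNorm_LL _
    have h3 : NN.opNorm (bE i 1) ≤ 1 := opNorm_LL _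
    linarith
  have h4 : NN.norm2 (c * x) ≤ 1 / 4 := by
    have : c * x = (x * aE i - bE i 1 * x) + (bE i 0 * x - x * aE i) := by
      rw [hc]
      noncomm_ring
    rw [this]
    have h5 := norm2_add_le (x * aE i - bE i 1 * x) (bE i 0 * x - x * aE i)
    rw [norm2_sub_comm (bE i 0 * x)] at h5
    linarith
  have h5 : NN.norm2 (c * x * star x) ≤ 1 / 4 := by
    refine (norm2_mul_le' _ _).trans ?_
    rw [opNorm_star]
    calc NN.norm2 (c * x) * NN.opNorm x ≤ NN.norm2 (c * x) * 1 :=
          mul_le_mul_of_nonneg_left hx1 (norm2_nonneg _)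
      _ ≤ 1 / 4 := by rw [mul_one]; exact h4
  have h6 : NN.norm2 (c * (1 - x * star x)) ≤ 1 / 4 := by
    refine (norm2_mul_le _ _).trans ?_
    rw [norm2_sub_comm]
    calc NN.opNorm c * NN.norm2 (x * star x - 1) ≤ 2 * (1 / 8) :=
          mul_le_mul hc2 e1.le (norm2_nonneg _) (by norm_num)
      _ = 1 / 4 := by norm_num
  have h7 : c = c * x * star x + c * (1 - x * star x) := by
    noncomm_ring
  have h8 := norm2_add_le (c * x * star x) (c * (1 - x * star x))
  rw [← h7] at h8
  linarith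

theorem small_of_sq {z : NN.Elt} (hz : |NN.norm2 z ^ 2 - 0| < 1 / 64) : NN.norm2 z < 1 / 8 := by
  rw [sub_zero] at hz
  have h1 := (abs_lt.1 hz).2
  have h2 := norm2_nonneg z
  by_contra hcon
  push Not at hcon
  nlinarith

theorem seqB_a (i : ℝ) (k : ℕ) : seqB i k (aB i) = aE i := if_neg (aE_ne_bE i i 0)

theorem seqB_b (i : ℝ) (k : ℕ) : seqB i k (bB i) = bE i k := if_pos rfl

end Pool.Agent.Y563.TVN
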