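import Mathlib
import Pool.Agent.Y563.GvNPerm

/-!
`L(Hs X)` is a hyperfinite II₁ factor for a countably infinite set `X`.
-/

open Filter Topology
open scoped ComplexConjugate ENNReal InnerProductSpace

namespace Pool.Agent.Y563.TVN

variable {J : Type}

theorem swap_mem_Hs [DecidableEq J] {X : Set J} {a b : J} (ha : a ∈ X) (hb : b ∈ X) :
    Equiv.swap a b ∈ Hs X := by
  have h : ∀ j, Equiv.swap a b j ≠ j → j ∈ ({a, b} : Set J) := by
    intro j hj
    by_contra h
    simp only [Set.mem_insert_iff, Set.mem_singleton_iff, not_or] at h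
    exact hj (Equiv.swap_apply_of_ne_of_ne h.1 h.2)
  refine ⟨(Set.toFinite {a, b}).subset fun j hj => h j hj, fun j hj => ?_⟩
  rcases h j hj with rfl | h'
  · exact ha
  · rw [Set.mem_singleton_iff] at h'
    rw [h']
    exact hb

/-- square-summable and constant along an injective sequence implies zero -/
theorem zero_of_const {G : Type} (f : Ell G) (u : ℕ → G) (hu : Function.Injective u) (c : ℂ)
    (h : ∀ n, f (u n) = c) : c = 0 := by
  have h1 : Summable fun n => ‖f (u n)‖ ^ 2 := (summable_sq f).comp_injective hu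
  have h2 : (fun n => ‖f (u n)‖ ^ 2) = fun _ => ‖c‖ ^ 2 := by
    funext n
    rw [h]
  rw [h2, summable_const_iff] at h1
  have h3 : ‖c‖ = 0 := by
    have := pow_eq_zero_iff (two_ne_zero) |>.1 h1
    exact this
  exact norm_eq_zero.1 h3

theorem central_coef {X : Set J} (hX : X.Infinite)
    {x : Ell (Equiv.Perm J) →L[ℂ] Ell (Equiv.Perm J)} (hx : x ∈ LH (Hs X))
    (hc : ∀ h ∈ Hs X, x * lam h = lam h * x) {g : Equiv.Perm J} (hg : g ∈ Hs X) (hg1 : g ≠ 1) :
    (x (delta 1)) g = 0 := by
  classical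
  have hx' := mem_LH.1 hx
  obtain ⟨a, ha⟩ : ∃ a, g a ≠ a := by
    by_contra hcon
    push Not at hcon
    exact hg1 (Equiv.ext hcon)
  have haX : a ∈ X := hg.2 a ha
  have hgaX : g a ∈ X := hg.2 _ fun h => ha (g.injective h)
  have hinf : (X \ {a, g a}).Infinite := hX.sdiff (Set.toFinite _)
  set c := hinf.natEmbedding with hcdef
  have hcX : ∀ n, (c n : J) ∈ X := fun n => (c n).2.1
  have hca : ∀ n, (c n : J) ≠ a := fun n h => (c n).2.2 (Or.inl h)
  set u : ℕ → Equiv.Perm J := fun n =>
    Equiv.swap (g a) (c n : J) * g * (Equiv.swap (g a) (c n : J))⁻¹ with hu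
  have hua : ∀ n, u n a = c n := by
    intro n
    rw [hu]
    show Equiv.swap (g a) (c n : J) (g ((Equiv.swap (g a) (c n : J))⁻¹ a)) = c n
    rw [Equiv.swap_inv, Equiv.swap_apply_of_ne_of_ne ha.symm (hca n).symm, Equiv.swap_apply_left]
  have huinj : Function.Injective u := by
    intro n m hnm
    have h1 := hua n
    rw [hnm, hua m] at h1
    exact c.injective (Subtype.ext h1.symm)
  refine zero_of_const (x (delta 1)) u huinj _ fun n => ?_
  have hs : Equiv.swap (g a) (c n : J) ∈ Hs X := swap_mem_Hs hgaX (hcX n)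
  have h1 : lam (Equiv.swap (g a) (c n : J)) * x * lam (Equiv.swap (g a) (c n : J))⁻¹ = x := by
    rw [← hc _ hs, mul_assoc, lam_mul_inv, mul_one]
  have h2 := conj_coef hx'.1 (Equiv.swap (g a) (c n : J)) (u n)
  rw [h1] at h2
  rw [h2, hu]
  congr 1
  simp only
  group

theorem factor {X : Set J} (hX : X.Infinite) : (gvn (Hs X)).IsFactor := by
  classical
  intro x hx
  have hc : ∀ h ∈ Hs X, op x * lam h = lam h * op x := by
    intro h hh
    have := congrArg op (hx (mkE (lam h) (lam_mem hh)))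
    rwa [op_mul, op_mul, op_mkE] at this
  refine ⟨(op x (delta 1)) 1, op_inj ?_⟩
  refine coef_ext (op_rho x) (op_rho _) fun g => ?_
  rw [op_smul, op_one]
  show _ = (op x (delta 1)) 1 * (delta 1 : Ell (Equiv.Perm J)) g
  rw [delta_apply]
  by_cases hg1 : g = 1
  · rw [if_pos hg1, mul_one, hg1]
  · rw [if_neg hg1, mul_zero]
    by_cases hg : g ∈ Hs X
    · exact central_coef hX (op_mem x) hc hg hg1
    · exact (mem_LH.1 (op_mem x)).2 g hg

/-- evaluation at `δ_1` -/
noncomputable def evL {G : Type} [Group G] (H : Subgroup G) : (gvn H).Elt →ₗ[ℂ] Ell G where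
  toFun x := op x (delta 1)
  map_add' _ _ := rfl
  map_smul' _ _ := rfl

theorem infinite_Hs {X : Set J} (hX : X.Infinite) : Infinite (Hs X) := by
  classical
  set c := hX.natEmbedding with hc
  refine Infinite.of_injective (fun n : ℕ => (⟨Equiv.swap (c 0 : J) (c (n + 1) : J),
    swap_mem_Hs (c 0).2 (c (n + 1)).2⟩ : Hs X)) fun n m h => ?_
  have h1 : Equiv.swap (c 0 : J) (c (n + 1) : J) = Equiv.swap (c 0 : J) (c (m + 1) : J) :=
    congrArg Subtype.val h
  have h2 := congrArg (fun e : Equiv.Perm J => e (c 0 : J)) h1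
  simp only [Equiv.swap_apply_left] at h2
  have := c.injective (Subtype.ext h2)
  omega

theorem orthonormal_delta {G : Type} : Orthonormal ℂ (fun g : G => (delta g : Ell G)) := by
  classical
  rw [orthonormal_iff_ite]
  intro i j
  rw [inner_delta, delta_apply]

theorem infinite_dim {X : Set J} (hX : X.Infinite) :
    ¬ FiniteDimensional ℂ (gvn (Hs X)).Elt := by
  intro hfd
  have h1 : LinearIndependent ℂ (fun g : Hs X => (mkE (lam g.1) (lam_mem g.2) :
      (gvn (Hs X)).Elt)) := by
    refine LinearIndependent.of_comp (evL (Hs X)) ?_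
    have h2 : (evL (Hs X)) ∘ (fun g : Hs X => (mkE (lam g.1) (lam_mem g.2) :
      (gvn (Hs X)).Elt)) = (fun g : Hs X => (delta g.1 : Ell (Equiv.Perm J))) := by
      funext g
      show op (mkE (H := Hs X) (lam g.1) (lam_mem g.2)) (delta 1) = _
      rw [op_mkE, lam_delta, mul_one]
    rw [h2]
    exact (orthonormal_delta.comp _ Subtype.val_injective).linearIndependent
  have h3 : Finite (Hs X) := h1.finite
  have h4 := infinite_Hs hX
  exact not_finite (Hs X)

theorem fd_stage {F : Set J} (hF : F.Finite) :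
    FiniteDimensional ℂ (LH (Hs F)).toStarSubalgebra := by
  have := finite_Hs hF
  set T : (LH (Hs F)).toStarSubalgebra →ₗ[ℂ] (Hs F → ℂ) :=
    { toFun := fun x s => ((x : Ell (Equiv.Perm J) →L[ℂ] Ell (Equiv.Perm J)) (delta 1)) s.1
      map_add' := fun _ _ => rfl
      map_smul' := fun _ _ => rfl } with hT
  refine FiniteDimensional.of_injective T ?_
  intro x y hxy
  refine Subtype.ext ?_
  refine coef_ext (elt_rho x) (elt_rho y) fun g => ?_
  by_cases hg : g ∈ Hs F
  · exact congrFun hxy ⟨g, hg⟩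
  · rw [(mem_LH.1 x.2).2 g hg, (mem_LH.1 y.2).2 g hg]

theorem stage_commute {X : Set J} {x y : Ell (Equiv.Perm J) →L[ℂ] Ell (Equiv.Perm J)}
    (hx : x ∈ LH (Hs X)) (h : ∀ ε > 0, ∃ z, (∀ g, z * rho g = rho g * z) ∧ z * y = y * z ∧
      ‖(x - z) (delta 1)‖ ≤ ε) : x * y = y * x := by
  have hx' := mem_LH.1 hx
  refine ext_delta fun g => ?_
  ext k
  have key : ∀ ε > 0, ‖((x * y) (delta g)) k - ((y * x) (delta g)) k‖ ≤ ε := by
    intro ε hε
    obtain ⟨z, hz, hzy, hd⟩ := h (ε / (2 * (‖y‖ + 1))) (by positivity)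
    have hxz : ∀ g, (x - z) * rho g = rho g * (x - z) := by
      intro g
      rw [sub_mul, mul_sub, hx'.1, hz]
    have e1 : ((x * y) (delta g)) k - ((y * x) (delta g)) k =
        (((x - z) * y) (delta g)) k - ((y * (x - z)) (delta g)) k := by
      have h1 : x * y - y * x = (x - z) * y - y * (x - z) := by
        rw [sub_mul, mul_sub, hzy]
        abel
      have h2 := congrArg (fun w : Ell (Equiv.Perm J) →L[ℂ] Ell (Equiv.Perm J) =>
        (w (delta g)) k) h1
      exact h2
    rw [e1]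
    have b1 : ‖((y * (x - z)) (delta g)) k‖ ≤ ‖y‖ * (ε / (2 * (‖y‖ + 1))) := by
      refine (lp.norm_apply_le_norm (by norm_num) _ _).trans ?_
      refine (y.le_opNorm ((x - z) (delta g))).trans ?_
      rw [norm_apply_delta hxz]
      exact mul_le_mul_of_nonneg_left hd (norm_nonneg _)
    have b2 : ‖(((x - z) * y) (delta g)) k‖ ≤ (ε / (2 * (‖y‖ + 1))) * ‖y‖ := by
      have h1 : (((x - z) * y) (delta g)) k =
          ⟪(star (x - z)) (delta k), y (delta g)⟫_ℂ := by
        rw [ContinuousLinearMap.star_eq_adjoint, ContinuousLinearMap.adjoint_inner_left,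
          inner_delta]
        rfl
      rw [h1]
      refine (norm_inner_le_norm _ _).trans ?_
      rw [norm_apply_delta (star_comm_rho hxz), norm_star_delta hxz]
      refine mul_le_mul hd ?_ (norm_nonneg _) (by positivity)
      have := y.le_opNorm (delta g)
      rwa [norm_delta, mul_one] at this
    refine (norm_sub_le _ _).trans ?_
    have h3 : (ε / (2 * (‖y‖ + 1))) * ‖y‖ ≤ ε / 2 := by
      rw [div_mul_eq_mul_div, div_le_div_iff₀ (by positivity) (by norm_num)]
      nlinarith [norm_nonneg y]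
    linarith
  have h0 : ‖((x * y) (delta g)) k - ((y * x) (delta g)) k‖ ≤ 0 :=
    le_of_forall_pos_le_add fun ε hε => by
      rw [zero_add]
      exact key ε hε
  exact sub_eq_zero.1 (norm_le_zero_iff.1 h0)

theorem hyperfinite_aux (f : ℕ → J) (hf : Function.Injective f) :
    Set.centralizer (Set.centralizer (⋃ n, ((LH (Hs (f '' Set.Iio n))).toStarSubalgebra :
      Set (Ell (Equiv.Perm J) →L[ℂ] Ell (Equiv.Perm J))))) =
      (LH (Hs (Set.range f)) : Set (Ell (Equiv.Perm J) →L[ℂ] Ell (Equiv.Perm J))) := by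
  apply Set.Subset.antisymm
  · have h1 : (⋃ n, ((LH (Hs (f '' Set.Iio n))).toStarSubalgebra :
        Set (Ell (Equiv.Perm J) →L[ℂ] Ell (Equiv.Perm J)))) ⊆
        (LH (Hs (Set.range f)) : Set (Ell (Equiv.Perm J) →L[ℂ] Ell (Equiv.Perm J))) := by
      refine Set.iUnion_subset fun n x hx => ?_
      exact LH_mono (Hs_mono (Set.image_subset_range _ _)) hx
    have h2 := Set.centralizer_subset (Set.centralizer_subset h1)
    rwa [VonNeumannAlgebra.centralizer_centralizer] at h2
  · intro x hx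
    rw [Set.mem_centralizer_iff]
    intro y hy
    rw [Set.mem_centralizer_iff] at hy
    symm
    refine stage_commute hx fun ε hε => ?_
    obtain ⟨F, hF, hFX, h⟩ := dense_stage hx hε
    obtain ⟨n, hn⟩ : ∃ n, F ⊆ f '' Set.Iio n := by
      have h1 : (f ⁻¹' F).Finite := hF.preimage hf.injOn
      obtain ⟨n, hn⟩ := h1.bddAbove
      refine ⟨n + 1, fun j hj => ?_⟩
      obtain ⟨k, rfl⟩ := hFX hj
      exact ⟨k, Nat.lt_succ_of_le (hn hj), rfl⟩
    obtain ⟨z, hz, _, hd⟩ := h (f '' Set.Iio n) ((Set.finite_Iio n).image f) hn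
      (Set.image_subset_range _ _)
    exact ⟨z, (mem_LH.1 hz).1, hy z (Set.mem_iUnion.2 ⟨n, hz⟩), hd⟩

end Pool.Agent.Y563.TVN
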