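import Mathlib
import Pool.Agent.Y563.CLT
import Pool.Agent.Y563.GvNDiv
import Pool.Agent.Y563.GvNHyp

/-!
The final statements over the definitions of `Pool.Agent.Y563.CLT`.
-/

open Filter Topology
open scoped ComplexConjugate ENNReal InnerProductSpace ComplexOrder

namespace Pool.Agent.Y563.CLTProof

open Pool.Agent.Y563

section
variable {G : Type} [Group G]

/-- the trace vector functional -/
noncomputable def tau (x : TVN.Ell G →L[ℂ] TVN.Ell G) : ℂ := (x (TVN.delta 1)) 1

/-- `L(H)` as a tracial von Neumann algebra in the sense of `CLT`. -/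
noncomputable def gnew (H : Subgroup G) : CLT.TracialVN where
  H := TVN.Ell G
  M := TVN.LH H
  tr := tau
  state :=
    { add := fun x _ y _ => rfl
      smul := fun c x _ => rfl
      one := (TVN.gvn H).tr_one
      nonneg := fun x hx => (TVN.gvn H).tr_nonneg ⟨x, hx⟩
      comm := fun x hx y hy => (TVN.gvn H).tr_comm ⟨x, hx⟩ ⟨y, hy⟩ }
  faithful := fun x hx h => congrArg Subtype.val ((TVN.gvn H).tr_faithful ⟨x, hx⟩ h)
  normal := fun F C x hx _ h => by
    have := h (TVN.delta 1) (TVN.delta 1)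
    simp only [TVN.inner_delta] at this
    exact this

/-- from old elements to new ones -/
noncomputable def psi (H : Subgroup G) (x : (TVN.gvn H).Elt) : (gnew H).str.carrier :=
  ⟨TVN.op x, TVN.op_mem x⟩

/-- and back -/
noncomputable def psi' (H : Subgroup G) (x : (gnew H).str.carrier) : (TVN.gvn H).Elt :=
  TVN.mkE x.1 x.2

theorem psi_psi' (H : Subgroup G) (x : (gnew H).str.carrier) : psi H (psi' H x) = x := rfl

theorem psi'_psi (H : Subgroup G) (x : (TVN.gvn H).Elt) : psi' H (psi H x) = x := rfl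

theorem psi_inj (H : Subgroup G) : Function.Injective (psi H) := fun x y h => by
  rw [← psi'_psi H x, h, psi'_psi]

/-- translation of terms -/
def tT {α α' : Type} (f : α → α') : CLT.Term α → TVN.Term α'
  | .var a => .var (f a)
  | .zero => .zero
  | .one => .one
  | .add s t => .add (tT f s) (tT f t)
  | .mul s t => .mul (tT f s) (tT f t)
  | .adj t => .adj (tT f t)
  | .smul c t => .smul c (tT f t)

/-- translation of formulas -/
def tF {β β' : Type} (f : β → β') : {n : ℕ} → CLT.Fml β n → TVN.Fml β' n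
  | _, .re t => .re (tT (Sum.map f id) t)
  | _, .im t => .im (tT (Sum.map f id) t)
  | _, .conn k u hu φ => .conn k u hu fun i => tF f (φ i)
  | _, .sup r φ => .sup r (tF f φ)
  | _, .inf r φ => .inf r (tF f φ)

theorem term_compat (H : Subgroup G) {α α' : Type} (f : α → α') (v : α' → (TVN.gvn H).Elt)
    (t : CLT.Term α) :
    t.eval (gnew H).str (fun a => psi H (v (f a))) = psi H ((tT f t).eval v) := by
  induction t with
  | var a => rfl
  | zero => rfl
  | one => rfl
  | add s t hs ht =>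
    show (gnew H).str.add _ _ = _
    rw [hs, ht]
    rfl
  | mul s t hs ht =>
    show (gnew H).str.mul _ _ = _
    rw [hs, ht]
    rfl
  | adj t ht =>
    show (gnew H).str.adj _ = _
    rw [ht]
    rfl
  | smul c t ht =>
    show (gnew H).str.smul c _ = _
    rw [ht]
    rfl

theorem elim_compat (H : Subgroup G) {β β' : Type} (f : β → β') (v : β' → (TVN.gvn H).Elt)
    {n : ℕ} (w : Fin n → (TVN.gvn H).Elt) :
    (Sum.elim (fun b => psi H (v (f b))) (fun i => psi H (w i))) =
      fun a => psi H (Sum.elim v w (Sum.map f id a)) := by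
  funext a
  rcases a with a | a <;> rfl

theorem snoc_compat (H : Subgroup G) {n : ℕ} (w : Fin n → (TVN.gvn H).Elt)
    (x : (TVN.gvn H).Elt) :
    CLT.snoc (fun i => psi H (w i)) (psi H x) =
      fun i => psi H ((Fin.snoc w x : Fin (n + 1) → (TVN.gvn H).Elt) i) := by
  funext i
  unfold CLT.snoc
  refine Fin.lastCases ?_ (fun j => ?_) i
  · rw [Fin.snoc_last, Fin.snoc_last]
  · rw [Fin.snoc_castSucc, Fin.snoc_castSucc]

theorem fml_compat (H : Subgroup G) {β β' : Type} (f : β → β') (v : β' → (TVN.gvn H).Elt)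
    {n : ℕ} (φ : CLT.Fml β n) (w : Fin n → (TVN.gvn H).Elt) :
    φ.eval (gnew H).str (fun b => psi H (v (f b))) (fun i => psi H (w i)) =
      (tF f φ).eval (TVN.gvn H) v w := by
  induction φ with
  | re t =>
    show ((gnew H).str.tr (t.eval (gnew H).str _)).re = _
    rw [elim_compat, term_compat]
    rfl
  | im t =>
    show ((gnew H).str.tr (t.eval (gnew H).str _)).im = _
    rw [elim_compat, term_compat]
    rfl
  | conn k u hu φ ih =>
    show (u fun i => (φ i).eval (gnew H).str _ _) = u fun i => (tF f (φ i)).eval (TVN.gvn H) v w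
    congr 1
    funext i
    exact ih i w
  | sup r φ ih =>
    show (⨆ x : CLT.Ball (gnew H).str r, φ.eval (gnew H).str _ (CLT.snoc _ x.1)) =
      ⨆ x : {x : (TVN.gvn H).Elt // (TVN.gvn H).opNorm x ≤ r + 1},
        (tF f φ).eval (TVN.gvn H) v (Fin.snoc w x.1)
    symm
    refine Function.Surjective.iSup_congr
      (fun x : {x : (TVN.gvn H).Elt // (TVN.gvn H).opNorm x ≤ r + 1} =>
        (⟨psi H x.1, x.2⟩ : CLT.Ball (gnew H).str r)) ?_ ?_
    · rintro ⟨y, hy⟩
      exact ⟨⟨psi' H y, hy⟩, rfl⟩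
    · rintro ⟨x, hx⟩
      show φ.eval (gnew H).str _ (CLT.snoc (fun i => psi H (w i)) (psi H x)) =
        (tF f φ).eval (TVN.gvn H) v (Fin.snoc w x)
      rw [snoc_compat, ih]
  | inf r φ ih =>
    show (⨅ x : CLT.Ball (gnew H).str r, φ.eval (gnew H).str _ (CLT.snoc _ x.1)) =
      ⨅ x : {x : (TVN.gvn H).Elt // (TVN.gvn H).opNorm x ≤ r + 1},
        (tF f φ).eval (TVN.gvn H) v (Fin.snoc w x.1)
    symm
    refine Function.Surjective.iInf_congr
      (fun x : {x : (TVN.gvn H).Elt // (TVN.gvn H).opNorm x ≤ r + 1} =>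
        (⟨psi H x.1, x.2⟩ : CLT.Ball (gnew H).str r)) ?_ ?_
    · rintro ⟨y, hy⟩
      exact ⟨⟨psi' H y, hy⟩, rfl⟩
    · rintro ⟨x, hx⟩
      show φ.eval (gnew H).str _ (CLT.snoc (fun i => psi H (w i)) (psi H x)) =
        (tF f φ).eval (TVN.gvn H) v (Fin.snoc w x)
      rw [snoc_compat, ih]

theorem val_compat (H : Subgroup G) {β β' : Type} (f : β → β') (v : β' → (TVN.gvn H).Elt)
    (φ : CLT.Fml β 0) :
    φ.val (gnew H).str (fun b => psi H (v (f b))) = (tF f φ).eval (TVN.gvn H) v ![] := by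
  rw [← fml_compat]
  unfold CLT.Fml.val
  congr 1

end

theorem elemEquiv_new {J : Type} {X : Set J} (hX : X.Infinite) :
    CLT.ElemEquiv (gnew (TVN.Hs X)).str (gnew (TVN.Hs (Set.univ : Set J))).str := by
  intro φ
  have h := TVN.elemEquiv hX (tF id φ)
  have e1 := val_compat (TVN.Hs (Set.univ : Set J)) (id : Empty → Empty) Empty.elim φ
  have e2 := val_compat (TVN.Hs X) (id : Empty → Empty) Empty.elim φ
  rw [← e1, ← e2] at h
  have e3 : (fun b : Empty => psi (TVN.Hs (Set.univ : Set J)) (Empty.elim (id b))) =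
    Empty.elim := by
    funext b
    exact b.elim
  have e4 : (fun b : Empty => psi (TVN.Hs X) (Empty.elim (id b))) = Empty.elim := by
    funext b
    exact b.elim
  rw [e3, e4] at h
  exact h

/-- the algebra -/
noncomputable abbrev N1 : CLT.TracialVN := gnew TVN.FF

/-- the parameter set -/
def B1 : Set N1.str.carrier := {x | psi' TVN.FF x ∈ TVN.BB}

/-- the identification of parameters -/
noncomputable def fB (b : B1) : TVN.BB := ⟨psi' TVN.FF b.1, b.2⟩

theorem fB_val (b : B1) : psi TVN.FF (fB b).1 = b.1 := rfl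

/-- parameters -/
noncomputable def a1 (i : ℝ) : B1 := ⟨psi TVN.FF (TVN.aE i), Or.inl ⟨i, rfl⟩⟩

/-- parameters -/
noncomputable def b1 (i : ℝ) : B1 := ⟨psi TVN.FF (TVN.bE i 0), Or.inr ⟨i, rfl⟩⟩

/-- formula for the square of the trace norm of a term -/
noncomputable def sqF {β : Type} {n : ℕ} (t : CLT.Term (β ⊕ Fin n)) : CLT.Fml β n :=
  .re (.mul (.adj t) t)

/-- difference of terms -/
def tsub {γ : Type} (s t : CLT.Term γ) : CLT.Term γ := .add s (.smul (-1) t)

/-- `x x* = 1` -/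
noncomputable def cU : CLT.Fml B1 1 :=
  sqF (tsub (.mul (.var (Sum.inr 0)) (.adj (.var (Sum.inr 0)))) .one)

/-- `x a_i = b_{i0} x` -/
noncomputable def cI (i : ℝ) : CLT.Fml B1 1 :=
  sqF (tsub (.mul (.var (Sum.inr 0)) (.var (Sum.inl (a1 i))))
    (.mul (.var (Sum.inl (b1 i))) (.var (Sum.inr 0))))

theorem tF_cU : tF fB cU = TVN.condU := rfl

theorem tF_cI (i : ℝ) : tF fB (cI i) = TVN.condI i := rfl

/-- the type -/
noncomputable def p1 (φ : CLT.Fml B1 1) : ℝ := TVN.pT.val (tF fB φ)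

theorem isType_p1 : CLT.IsType N1.str B1 (fun _ : Fin 1 => 0) p1 := by
  classical
  intro s ε hε
  obtain ⟨x, hx, h⟩ := TVN.pT.sat (s.image fun q => tF fB q.2) ε hε
  refine ⟨fun i => psi TVN.FF (x i), hx, fun q hq => ?_⟩
  have h1 := h (tF fB q.2) (Finset.mem_image_of_mem _ hq)
  rw [← fml_compat] at h1
  exact h1

/-- the set of old elements -/
def oldS (A : Set N1.str.carrier) : Set TVN.NN.Elt := {x | psi TVN.FF x ∈ A}

theorem oldS_sub {A : Set N1.str.carrier} (hA : A ⊆ B1) : oldS A ⊆ TVN.BB := fun _ hx => hA hx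

theorem oldS_sep {A : Set N1.str.carrier} (h : CLT.Separable N1.str A) :
    TVN.Separable TVN.NN (oldS A) := by
  obtain ⟨D, hDA, hD, hd⟩ := h
  refine ⟨oldS D, fun x hx => hDA hx, hD.preimage (psi_inj TVN.FF), fun a ha ε hε => ?_⟩
  obtain ⟨d, hdD, hlt⟩ := hd (psi TVN.FF a) ha (ε ^ 2) (by positivity)
  refine ⟨psi' TVN.FF d, hdD, ?_⟩
  have e : (N1.str.tr (N1.str.mul (N1.str.adj (N1.str.add (psi TVN.FF a)
      (N1.str.smul (-1) d))) (N1.str.add (psi TVN.FF a) (N1.str.smul (-1) d)))) =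
      TVN.NN.tr (star (a + (-1 : ℂ) • psi' TVN.FF d) * (a + (-1 : ℂ) • psi' TVN.FF d)) := rfl
  rw [e] at hlt
  have e2 : a + (-1 : ℂ) • psi' TVN.FF d = a - psi' TVN.FF d := by
    rw [neg_one_smul, sub_eq_add_neg]
  rw [e2] at hlt
  unfold TVN.TracialVN.norm2
  rw [Real.sqrt_lt' hε]
  exact hlt

theorem divides_new {A : Set N1.str.carrier} (hA : A ⊆ B1) (hsep : CLT.Separable N1.str A) :
    CLT.Divides N1.str B1 (fun _ : Fin 1 => 0) p1 A := by
  classical
  obtain ⟨i, hi⟩ := TVN.exists_row (oldS_sub hA) (oldS_sep hsep)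
  refine ⟨N1, id, fun k c => psi TVN.FF (TVN.seqB i k (fB c)),
    ⟨fun x => rfl, fun β φ v => rfl⟩, fun c => ?_, ?_, ?_⟩
  · have : TVN.seqB i 0 (fB c) = (fB c).1 := by
      unfold TVN.seqB
      split_ifs with h
      · exact h.symm
      · rfl
    show psi TVN.FF (TVN.seqB i 0 (fB c)) = c.1
    rw [this]
    rfl
  · rw [Set.image_id]
    intro m s t hs ht φ
    set g : A ⊕ Fin m × B1 → oldS A ⊕ Fin m × TVN.BB :=
      Sum.map (fun a => ⟨psi' TVN.FF a.1, a.2⟩) (Prod.map id fB) with hg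
    have h := TVN.indisc (oldS_sub hA) hi m s t hs ht (tF g φ)
    rw [← val_compat, ← val_compat] at h
    have e : ∀ s : Fin m → ℕ, (fun b => psi TVN.FF (Sum.elim (fun a : oldS A => a.1)
        (fun p : Fin m × TVN.BB => TVN.seqB i (s p.1) p.2) (g b))) =
        Sum.elim (fun a : A => a.1) fun p => psi TVN.FF (TVN.seqB i (s p.1) (fB p.2)) := by
      intro s
      funext b
      rcases b with a | ⟨j, c⟩
      · rfl
      · rfl
    rw [e, e] at h
    exact h
  · intro hcon
    obtain ⟨x, hx, h⟩ := hcon {(0, cU), (0, cI i), (1, cI i)} (1 / 64) (by norm_num)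
    set y : Fin 1 → TVN.NN.Elt := fun j => psi' TVN.FF (x j) with hy
    have hxy : x = fun j => psi TVN.FF (y j) := rfl
    have hx1 : TVN.NN.opNorm (y 0) ≤ 1 := by
      have := hx 0
      rw [Nat.cast_zero, zero_add] at this
      exact this
    have conv : ∀ (k : ℕ) (φ : CLT.Fml B1 1),
        φ.eval N1.str (fun c => psi TVN.FF (TVN.seqB i k (fB c))) x =
        (tF fB φ).eval TVN.NN (TVN.seqB i k) y := by
      intro k φ
      exact fml_compat TVN.FF fB (TVN.seqB i k) φ y
    have e1 : TVN.NN.norm2 (y 0 * star (y 0) - 1) < 1 / 8 := by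
      have h1 := h (0, cU) (by simp)
      simp only [conv] at h1
      unfold p1 at h1
      rw [tF_cU, TVN.val_condU, TVN.eval_condU] at h1
      exact TVN.small_of_sq h1
    have e2 : TVN.NN.norm2 (y 0 * TVN.aE i - TVN.bE i 0 * y 0) < 1 / 8 := by
      have h1 := h (0, cI i) (by simp)
      simp only [conv] at h1
      unfold p1 at h1
      rw [tF_cI, TVN.val_condI, TVN.eval_condI, TVN.seqB_a, TVN.seqB_b] at h1
      exact TVN.small_of_sq h1
    have e3 : TVN.NN.norm2 (y 0 * TVN.aE i - TVN.bE i 1 * y 0) < 1 / 8 := by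
      have h1 := h (1, cI i) (by simp)
      simp only [conv] at h1
      unfold p1 at h1
      rw [tF_cI, TVN.val_condI, TVN.eval_condI, TVN.seqB_a, TVN.seqB_b] at h1
      exact TVN.small_of_sq h1
    exact TVN.incons_core i (y 0) hx1 e1 e2 e3

section hyp
variable {J : Type}

theorem factor_new {X : Set J} (hX : X.Infinite) : CLT.IsFactor (TVN.LH (TVN.Hs X)) := by
  intro x hx h
  obtain ⟨c, hc⟩ := TVN.factor hX (TVN.mkE x hx) (fun y => by
    refine TVN.op_inj ?_
    rw [TVN.op_mul, TVN.op_mul, TVN.op_mkE]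
    exact h _ (TVN.op_mem y))
  refine ⟨c, ?_⟩
  have := congrArg TVN.op hc
  rwa [TVN.op_mkE, TVN.op_smul, TVN.op_one] at this

/-- evaluation at `δ_1` -/
noncomputable def evT (G : Type) [Group G] :
    (TVN.Ell G →L[ℂ] TVN.Ell G) →ₗ[ℂ] TVN.Ell G where
  toFun x := x (TVN.delta 1)
  map_add' _ _ := rfl
  map_smul' _ _ := rfl

theorem infdim_new {X : Set J} (hX : X.Infinite) :
    ¬ CLT.IsFinDim (TVN.LH (TVN.Hs X) : Set (TVN.Ell (Equiv.Perm J) →L[ℂ]
      TVN.Ell (Equiv.Perm J))) := by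
  rintro ⟨s, hs⟩
  set W : Submodule ℂ (TVN.Ell (Equiv.Perm J) →L[ℂ] TVN.Ell (Equiv.Perm J)) :=
    Submodule.span ℂ (s : Set (TVN.Ell (Equiv.Perm J) →L[ℂ] TVN.Ell (Equiv.Perm J))) with hW
  have hfd : FiniteDimensional ℂ W := FiniteDimensional.span_finset ℂ s
  have h1 : LinearIndependent ℂ (fun g : TVN.Hs X => (⟨TVN.lam g.1,
      hs (TVN.lam_mem g.2)⟩ : W)) := by
    refine LinearIndependent.of_comp ((evT (Equiv.Perm J)).comp W.subtype) ?_
    have h2 : ((evT (Equiv.Perm J)).comp W.subtype) ∘ (fun g : TVN.Hs X => (⟨TVN.lam g.1,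
        hs (TVN.lam_mem g.2)⟩ : W)) = (fun g : TVN.Hs X => TVN.delta g.1) := by
      funext g
      show TVN.lam g.1 (TVN.delta 1) = _
      rw [TVN.lam_delta, mul_one]
    rw [h2]
    exact (TVN.orthonormal_delta.comp _ Subtype.val_injective).linearIndependent
  have h3 : Finite (TVN.Hs X) := h1.finite
  have h4 := TVN.infinite_Hs hX
  exact not_finite (TVN.Hs X)

theorem findim_stage {F : Set J} (hF : F.Finite) :
    CLT.IsFinDim (TVN.LH (TVN.Hs F) : Set (TVN.Ell (Equiv.Perm J) →L[ℂ]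
      TVN.Ell (Equiv.Perm J))) := by
  classical
  have := TVN.finite_Hs hF
  have := Fintype.ofFinite (TVN.Hs F)
  refine ⟨Finset.univ.image fun g : TVN.Hs F => TVN.lam (g : Equiv.Perm J), fun x hx => ?_⟩
  have hx' : x ∈ TVN.LH (TVN.Hs F) := hx
  have h1 : x = TVN.expE (TVN.Hs F) x := by
    refine TVN.coef_ext (TVN.mem_LH.1 hx').1 (TVN.expE_rho _ _) fun g => ?_
    rw [TVN.expE_coef]
    split_ifs with hg
    · rfl
    · exact (TVN.mem_LH.1 hx').2 g hg
  rw [h1]
  unfold TVN.expE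
  refine Submodule.sum_mem _ fun g _ => Submodule.smul_mem _ _ (Submodule.subset_span ?_)
  simp

theorem hyperfinite_new (f : ℕ → J) (hf : Function.Injective f) :
    CLT.IsHyperfinite (TVN.LH (TVN.Hs (Set.range f))) := by
  refine ⟨fun n => (TVN.LH (TVN.Hs (f '' Set.Iio n))).toStarSubalgebra, ?_, fun n => ?_, ?_⟩
  · intro n m hnm x hx
    exact TVN.LH_mono (TVN.Hs_mono (Set.image_mono (Set.Iio_subset_Iio hnm))) hx
  · exact findim_stage ((Set.finite_Iio n).image f)
  · exact TVN.hyperfinite_aux f hf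

theorem hyp_new (f : ℕ → J) (hf : Function.Injective f) :
    (gnew (TVN.Hs (Set.range f))).IsHyperfiniteIIOneFactor :=
  ⟨factor_new (Set.infinite_range_of_injective hf), infdim_new (Set.infinite_range_of_injective hf),
    hyperfinite_new f hf⟩

end hyp

/-- **The continuous theory of the hyperfinite II₁ factor is not simple.** -/
theorem main : ∃ R : CLT.TracialVN, R.IsHyperfiniteIIOneFactor ∧ ¬ CLT.IsSimpleTheory R := by
  have hf : Function.Injective (fun n : ℕ => (((0 : ℝ), some n, false) : TVN.JJ)) := by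
    intro n m h
    simpa using h
  refine ⟨gnew (TVN.Hs (Set.range fun n : ℕ => (((0 : ℝ), some n, false) : TVN.JJ))),
    hyp_new _ hf, ?_⟩
  intro hsimple
  obtain ⟨A, hA, hsep, hdiv⟩ := hsimple N1 (elemEquiv_new (Set.infinite_range_of_injective hf)) B1 1
    _ p1 isType_p1
  exact hdiv (divides_new hA hsep)

end Pool.Agent.Y563.CLTProof
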