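import Pool.Agent.Y563.PolyCases

/-!
The case of a finite field and at least two variables: powers are definable.
-/

set_option autoImplicit false

namespace Pool.Agent.Y563.PolyFinite

open MvPolynomial Pool.Agent.Y563.RingDef Pool.Agent.Y563.PolyHomog Pool.Agent.Y563.PolyCases
open Pool.Agent.Y563.PolyGB

variable {P : Type} [Field P] {m : ℕ}

/-- first-order definition of the set of powers of `s` -/
def Pow (s v : MvPolynomial (Fin m) P) : Prop :=
  (∀ w, w ∣ v → (IsUnit w ∨ s ∣ w)) ∧ (s - 1) ∣ (v - 1)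

/-- irreducibility -/
def Irr (s : MvPolynomial (Fin m) P) : Prop :=
  ¬ IsUnit s ∧ ∀ a b, s = a * b → (IsUnit a ∨ IsUnit b)

def Good (t s : MvPolynomial (Fin m) P) : Prop :=
  Irr s ∧ (Irr (t - s) ∧ (¬ (t - s) ∣ t ∧ ∀ T', Pow t T' → (¬ T' = 1 → ¬ (t - s) ∣ (T' - 1))))

/-- `G` is the power of `f` with the same exponent as `T` over `t` -/
def E (t T f G : MvPolynomial (Fin m) P) : Prop :=
  ∀ s S, Good t s → (Pow s S → ((t - s) ∣ (T - S) → (s - f) ∣ (S - G)))

def Lam (t T : MvPolynomial (Fin m) P) : Prop :=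
  Pow t T ∧ ((∀ f g F G, E t T f F → (E t T g G → E t T (f + g) (F + G))) ∧
    (∀ c, IsC c → E t T c c))

lemma irr_iff (s : MvPolynomial (Fin m) P) : Irr s ↔ Irreducible s := by
  rw [irreducible_iff]
  constructor
  · rintro ⟨h1, h2⟩; exact ⟨h1, fun {a b} h => h2 a b h⟩
  · rintro ⟨h1, h2⟩; exact ⟨h1, fun a b h => h2 h⟩

section defs

variable {α : Type}

lemma D_Pow {s v : (α → MvPolynomial (Fin m) P) → MvPolynomial (Fin m) P}
    (hs : T (kap P m) α s) (hv : T (kap P m) α v) : D (kap P m) α (fun x => Pow (s x) (v x)) := by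
  unfold Pow
  apply D_and
  · apply D_all
    apply D_imp
    · exact D_dvd (T_var _) (T_lift hv Sum.inl)
    · exact D_or (D_isUnit (T_var _)) (D_dvd (T_lift hs Sum.inl) (T_var _))
  · exact D_dvd (T_sub hs T_one) (T_sub hv T_one)

lemma D_Irr {s : (α → MvPolynomial (Fin m) P) → MvPolynomial (Fin m) P}
    (hs : T (kap P m) α s) : D (kap P m) α (fun x => Irr (s x)) := by
  unfold Irr
  apply D_and
  · exact D_not (D_isUnit hs)
  · apply D_all
    apply D_all
    apply D_imp
    · exact D_eq (T_lift (T_lift hs Sum.inl) Sum.inl) (T_mul (T_var _) (T_var _))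
    · exact D_or (D_isUnit (T_var _)) (D_isUnit (T_var _))

lemma D_Good {t s : (α → MvPolynomial (Fin m) P) → MvPolynomial (Fin m) P}
    (ht : T (kap P m) α t) (hs : T (kap P m) α s) :
    D (kap P m) α (fun x => Good (t x) (s x)) := by
  unfold Good
  apply D_and (D_Irr hs)
  apply D_and (D_Irr (T_sub ht hs))
  apply D_and (D_not (D_dvd (T_sub ht hs) ht))
  apply D_all
  apply D_imp
  · exact D_Pow (T_lift ht Sum.inl) (T_var _)
  · apply D_imp
    · exact D_not (D_eq (T_var _) T_one)
    · exact D_not (D_dvd (T_sub (T_lift ht Sum.inl) (T_lift hs Sum.inl)) (T_sub (T_var _) T_one))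

lemma D_E {t T' f g : (α → MvPolynomial (Fin m) P) → MvPolynomial (Fin m) P}
    (ht : T (kap P m) α t) (hT : T (kap P m) α T') (hf : T (kap P m) α f)
    (hg : T (kap P m) α g) :
    D (kap P m) α (fun x => E (t x) (T' x) (f x) (g x)) := by
  unfold E
  apply D_all
  apply D_all
  apply D_imp
  · exact D_Good (T_lift (T_lift ht Sum.inl) Sum.inl) (T_var _)
  apply D_imp
  · exact D_Pow (T_var _) (T_var _)
  apply D_imp
  · exact D_dvd (T_sub (T_lift (T_lift ht Sum.inl) Sum.inl) (T_var _))
      (T_sub (T_lift (T_lift hT Sum.inl) Sum.inl) (T_var _))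
  · exact D_dvd (T_sub (T_var _) (T_lift (T_lift hf Sum.inl) Sum.inl))
      (T_sub (T_var _) (T_lift (T_lift hg Sum.inl) Sum.inl))

lemma D_Lam {t T' : (α → MvPolynomial (Fin m) P) → MvPolynomial (Fin m) P}
    (ht : T (kap P m) α t) (hT : T (kap P m) α T') :
    D (kap P m) α (fun x => Lam (t x) (T' x)) := by
  unfold Lam
  apply D_and (D_Pow ht hT)
  apply D_and
  · apply D_all
    apply D_all
    apply D_all
    apply D_all
    have ht4 := T_lift (T_lift (T_lift (T_lift ht (Sum.inl : α → α ⊕ Unit)) (Sum.inl : _ → _ ⊕ Unit))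
      (Sum.inl : _ → _ ⊕ Unit)) (Sum.inl : _ → _ ⊕ Unit)
    have hT4 := T_lift (T_lift (T_lift (T_lift hT (Sum.inl : α → α ⊕ Unit)) (Sum.inl : _ → _ ⊕ Unit))
      (Sum.inl : _ → _ ⊕ Unit)) (Sum.inl : _ → _ ⊕ Unit)
    apply D_imp
    · exact D_E ht4 hT4 (T_var _) (T_var _)
    apply D_imp
    · exact D_E ht4 hT4 (T_var _) (T_var _)
    · exact D_E ht4 hT4 (T_add (T_var _) (T_var _)) (T_add (T_var _) (T_var _))
  · apply D_all
    apply D_imp
    · exact D_isC (T_var _)
    · exact D_E (T_lift ht Sum.inl) (T_lift hT Sum.inl) (T_var _) (T_var _)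

end defs

lemma not_isC_of_irr {s : MvPolynomial (Fin m) P} (hs : Irreducible s) : ¬ IsC s := by
  rintro (h | h)
  · exact hs.ne_zero h
  · exact hs.not_isUnit h

lemma not_isUnit_sub_one {s : MvPolynomial (Fin m) P} (hs : Irreducible s) : ¬ IsUnit (s - 1) := by
  intro h
  obtain ⟨a, ha⟩ := (isC_iff (s - 1)).1 (Or.inr h)
  apply not_isC_of_irr hs
  rw [isC_iff]
  refine ⟨a + 1, ?_⟩
  rw [map_add, ← ha]
  simp

lemma pow_iff {s : MvPolynomial (Fin m) P} (hs : Irreducible s) (v : MvPolynomial (Fin m) P) :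
    Pow s v ↔ ∃ n : ℕ, v = s ^ n := by
  have hp : Prime s := UniqueFactorizationMonoid.irreducible_iff_prime.1 hs
  constructor
  · rintro ⟨h1, h2⟩
    have hv0 : v ≠ 0 := by
      intro h
      rcases h1 (s - 1) (by rw [h]; exact dvd_zero _) with h | h
      · exact not_isUnit_sub_one hs h
      · have : s ∣ 1 := by
          have h3 := dvd_sub (dvd_refl s) h
          simpa using h3
        exact hs.not_isUnit (isUnit_of_dvd_one this)
    obtain ⟨n, a, ha, rfl⟩ := WfDvdMonoid.max_power_factor hv0 hs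
    refine ⟨n, ?_⟩
    have hau : IsUnit a := by
      rcases h1 a (Dvd.intro_left _ rfl) with h | h
      · exact h
      · exact absurd h ha
    obtain ⟨r, rfl⟩ := (isC_iff a).1 (Or.inr hau)
    have h3 : (s - 1) ∣ C (r - 1) := by
      have e : (C (r - 1) : MvPolynomial (Fin m) P) = (s ^ n * C r - 1) - (s ^ n - 1) * C r := by
        rw [map_sub, C_1]; ring
      rw [e]
      apply dvd_sub h2
      exact Dvd.dvd.mul_right (by simpa using sub_dvd_pow_sub_pow s 1 n) _
    have hr : r = 1 := by
      by_contra hne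
      apply not_isUnit_sub_one hs
      apply isUnit_of_dvd_unit h3
      exact (isUnit_iff_ne_zero.2 (sub_ne_zero.2 hne)).map C
    rw [hr]
    simp
  · rintro ⟨n, rfl⟩
    constructor
    · intro w hw
      obtain ⟨i, _, hi⟩ := (dvd_prime_pow hp n).1 hw
      rcases Nat.eq_zero_or_pos i with h | h
      · left
        rw [h, pow_zero] at hi
        exact hi.symm.isUnit isUnit_one
      · right
        exact (dvd_pow_self s h.ne').trans hi.symm.dvd
    · simpa using sub_dvd_pow_sub_pow s 1 n

lemma good_exp {t s : MvPolynomial (Fin m) P} (ht : Irreducible t) (h : Good t s) (n j : ℕ)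
    (hd : (t - s) ∣ (t ^ n - s ^ j)) : n = j := by
  obtain ⟨_, h2, h3, h4⟩ := h
  rw [irr_iff] at h2
  have hp : Prime (t - s) := UniqueFactorizationMonoid.irreducible_iff_prime.1 h2
  have h5 : (t - s) ∣ (t ^ n - t ^ j) := by
    have e : t ^ n - t ^ j = (t ^ n - s ^ j) - (t ^ j - s ^ j) := by ring
    rw [e]
    exact dvd_sub hd (sub_dvd_pow_sub_pow t s j)
  have key : ∀ a b : ℕ, a < b → ¬ (t - s) ∣ t ^ a * (t ^ (b - a) - 1) := by
    intro a b hab hdiv
    rcases hp.dvd_or_dvd hdiv with h | h
    · exact h3 (hp.dvd_of_dvd_pow h)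
    · refine h4 (t ^ (b - a)) ((pow_iff ht _).2 ⟨_, rfl⟩) ?_ h
      intro h1
      have : IsUnit t := IsUnit.of_pow_eq_one h1 (by omega)
      exact ht.not_isUnit this
  rcases lt_trichotomy n j with h | h | h
  · exfalso
    apply key n j h
    have e : t ^ n * (t ^ (j - n) - 1) = - (t ^ n - t ^ j) := by
      rw [mul_sub, ← pow_add, Nat.add_sub_cancel' h.le]; ring
    rw [e]
    exact (dvd_neg).2 h5
  · exact h
  · exfalso
    apply key j n h
    have e : t ^ j * (t ^ (n - j) - 1) = (t ^ n - t ^ j) := by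
      rw [mul_sub, ← pow_add, Nat.add_sub_cancel' h.le]; ring
    rw [e]
    exact h5

section two

variable (i0 i1 : Fin m) (hne : i0 ≠ i1)

/-- elementary automorphism adding `c` to `X i1` -/
noncomputable def el (i1 : Fin m) (c : MvPolynomial (Fin m) P) :
    MvPolynomial (Fin m) P →ₐ[P] MvPolynomial (Fin m) P :=
  aeval (fun i => if i = i1 then X i1 + c else X i)

lemma el_other (c : MvPolynomial (Fin m) P) (i : Fin m) (h : i ≠ i1) : el i1 c (X i) = X i := by
  simp [el, h]

lemma el_self (c : MvPolynomial (Fin m) P) : el i1 c (X i1) = X i1 + c := by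
  simp [el]

include hne in
lemma el_fix (c : MvPolynomial (Fin m) P) (u : Polynomial P) :
    el i1 c (Polynomial.aeval (X i0) u) = Polynomial.aeval (X i0) u := by
  rw [← Polynomial.aeval_algHom_apply, el_other i1 c i0 hne]

include hne in
lemma el_inv (u : Polynomial P) :
    (el i1 (Polynomial.aeval (X i0) u)).comp (el i1 (- Polynomial.aeval (X i0) u)) =
      AlgHom.id P (MvPolynomial (Fin m) P) := by
  apply MvPolynomial.algHom_ext
  intro i
  by_cases h : i = i1
  · subst h
    rw [AlgHom.comp_apply, el_self, map_add, map_neg, el_self, el_fix i0 i hne]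
    simp
  · rw [AlgHom.comp_apply, el_other i1 _ i h, el_other i1 _ i h]
    simp

include hne in
lemma irr_shift (u : Polynomial P) :
    Irreducible (X i1 + Polynomial.aeval (X i0) u : MvPolynomial (Fin m) P) := by
  let e : MvPolynomial (Fin m) P ≃ₐ[P] MvPolynomial (Fin m) P :=
    AlgEquiv.ofAlgHom (el i1 (Polynomial.aeval (X i0) u)) (el i1 (- Polynomial.aeval (X i0) u))
      (el_inv i0 i1 hne u) (by
        have := el_inv (P := P) i0 i1 hne (-u)
        simpa using this)
  have h1 : Irreducible (X i1 : MvPolynomial (Fin m) P) := (X_prime).irreducible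
  have h2 : Irreducible (e (X i1)) := (MulEquiv.irreducible_iff e).2 h1
  have h3 : e (X i1) = X i1 + Polynomial.aeval (X i0) u := el_self i1 _
  rwa [h3] at h2

/-- the test elements -/
noncomputable def st (N : ℕ) : MvPolynomial (Fin m) P := X i1 + X i0 ^ N

include hne in
lemma st_irr (N : ℕ) : Irreducible (st i0 i1 N : MvPolynomial (Fin m) P) := by
  have := irr_shift (P := P) i0 i1 hne (Polynomial.X ^ N)
  simpa [st] using this

include hne in
lemma st_irr' (N : ℕ) : Irreducible (X i0 - st i0 i1 N : MvPolynomial (Fin m) P) := by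
  have h := irr_shift (P := P) i0 i1 hne (Polynomial.X ^ N - Polynomial.X)
  have e : (X i0 - st i0 i1 N : MvPolynomial (Fin m) P) =
      - (X i1 + Polynomial.aeval (X i0) (Polynomial.X ^ N - Polynomial.X : Polynomial P)) := by
    simp only [st, map_sub, map_pow, Polynomial.aeval_X]
    ring
  rw [e]
  exact (Associated.irreducible_iff (Associated.neg_left (Associated.refl _))).2 h

include hne in
lemma st_good (N : ℕ) : Good (X i0 : MvPolynomial (Fin m) P) (st i0 i1 N) := by
  -- evaluation killing X i0 - st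
  let ε : MvPolynomial (Fin m) P →ₐ[P] MvPolynomial (Fin m) P :=
    aeval (fun i => if i = i1 then X i0 - X i0 ^ N else X i)
  have h0 : ε (X i0) = X i0 := by simp [ε, hne]
  have h1 : ε (X i1) = X i0 - X i0 ^ N := by simp [ε]
  have hk : ε (X i0 - st i0 i1 N) = 0 := by
    simp only [st, map_sub, map_add, map_pow, h0, h1]
    ring
  have hX : Irreducible (X i0 : MvPolynomial (Fin m) P) := (X_prime).irreducible
  refine ⟨(irr_iff _).2 (st_irr i0 i1 hne N), (irr_iff _).2 (st_irr' i0 i1 hne N), ?_, ?_⟩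
  · rintro ⟨q, hq⟩
    have := congrArg ε hq
    rw [map_mul, hk, zero_mul, h0] at this
    exact hX.ne_zero this
  · intro T' hT' hne1 ⟨q, hq⟩
    obtain ⟨n, rfl⟩ := (pow_iff hX _).1 hT'
    have := congrArg ε hq
    rw [map_mul, hk, zero_mul, map_sub, map_pow, h0, map_one, sub_eq_zero] at this
    exact hne1 this

include hne in
lemma E_iff (n : ℕ) (f g : MvPolynomial (Fin m) P) :
    E (X i0) (X i0 ^ n) f g ↔ g = f ^ n := by
  have hX : Irreducible (X i0 : MvPolynomial (Fin m) P) := (X_prime).irreducible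
  constructor
  · intro h
    have h1 : ∀ N, (st i0 i1 N - f) ∣ (f ^ n - g) := by
      intro N
      have h2 := h (st i0 i1 N) (st i0 i1 N ^ n) (st_good i0 i1 hne N)
        ((pow_iff (st_irr i0 i1 hne N) _).2 ⟨n, rfl⟩) (sub_dvd_pow_sub_pow _ _ n)
      have e : f ^ n - g = (st i0 i1 N ^ n - g) - (st i0 i1 N ^ n - f ^ n) := by ring
      rw [e]
      exact dvd_sub h2 (sub_dvd_pow_sub_pow _ _ n)
    by_contra hcon
    have hne0 : f ^ n - g ≠ 0 := fun h => hcon (sub_eq_zero.1 h).symm
    set N := f.totalDegree + (f ^ n - g).totalDegree + 2 with hN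
    obtain ⟨q, hq⟩ := h1 N
    have hq0 : q ≠ 0 := by
      intro h; rw [h, mul_zero] at hq; exact hne0 hq
    have hs0 : (st i0 i1 N - f) ≠ 0 := by
      intro h; rw [h, zero_mul] at hq; exact hne0 hq
    have hdeg := congrArg totalDegree hq
    rw [totalDegree_mul_of_isDomain hs0 hq0] at hdeg
    have h3 : N ≤ (st i0 i1 N - f : MvPolynomial (Fin m) P).totalDegree := by
      have hmem : Finsupp.single i0 N ∈ (st i0 i1 N - f : MvPolynomial (Fin m) P).support := by
        rw [mem_support_iff]
        have hc1 : coeff (Finsupp.single i0 N) (st i0 i1 N : MvPolynomial (Fin m) P) = 1 := by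
          unfold st
          rw [coeff_add, coeff_X, if_neg, X_pow_eq_monomial, coeff_monomial, if_pos rfl, zero_add]
          intro hh
          have := DFunLike.congr_fun hh i0
          rw [Finsupp.single_eq_of_ne hne, Finsupp.single_eq_same] at this
          omega
        have hc2 : coeff (Finsupp.single i0 N) f = 0 := by
          apply coeff_eq_zero_of_totalDegree_lt
          rw [Finsupp.support_single_ne_zero _ (by omega)]
          simp
          omega
        rw [coeff_sub, hc1, hc2, sub_zero]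
        exact one_ne_zero
      have := le_totalDegree hmem
      simpa using this
    omega
  · rintro rfl s S hs hS hd
    obtain ⟨j, rfl⟩ := (pow_iff ((irr_iff s).1 hs.1) S).1 hS
    have := good_exp hX hs n j hd
    subst this
    exact sub_dvd_pow_sub_pow _ _ _

include hne in
lemma Lam_iff (T' : MvPolynomial (Fin m) P) : Lam (X i0) T' ↔
    ∃ n : ℕ, T' = X i0 ^ n ∧ (∀ f g : MvPolynomial (Fin m) P, (f + g) ^ n = f ^ n + g ^ n) ∧
      ∀ c : P, c ^ n = c := by
  have hX : Irreducible (X i0 : MvPolynomial (Fin m) P) := (X_prime).irreducible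
  constructor
  · rintro ⟨h1, h2, h3⟩
    obtain ⟨n, rfl⟩ := (pow_iff hX _).1 h1
    refine ⟨n, rfl, ?_, ?_⟩
    · intro f g
      have := h2 f g (f ^ n) (g ^ n) ((E_iff i0 i1 hne _ _ _).2 rfl) ((E_iff i0 i1 hne _ _ _).2 rfl)
      rw [E_iff i0 i1 hne] at this
      exact this.symm
    · intro c
      have := h3 (C c) ((isC_iff _).2 ⟨c, rfl⟩)
      rw [E_iff i0 i1 hne, ← C_pow] at this
      exact (C_injective _ _ this).symm
  · rintro ⟨n, rfl, h2, h3⟩
    refine ⟨(pow_iff hX _).2 ⟨n, rfl⟩, ?_, ?_⟩
    · intro f g F G hF hG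
      rw [E_iff i0 i1 hne] at hF hG ⊢
      rw [hF, hG, h2]
    · intro c hc
      obtain ⟨a, rfl⟩ := (isC_iff c).1 hc
      rw [E_iff i0 i1 hne, ← C_pow, h3]

include hne in
theorem concl_finite_aux [Fintype P] : Concl P m := by
  apply framework (fun z x' g h => ∀ T' G : MvPolynomial (Fin m) P,
    ∀ W : Fin m → MvPolynomial (Fin m) P,
    Lam (z i0) T' → (E (z i0) T' g G → ((∀ i, E (z i0) T' (z i) (W i)) →
      InSp (fun i => x' i - W i) (h - G))))
  · apply D_all
    apply D_all
    apply D_allB
    apply D_imp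
    · exact D_Lam (T_var _) (T_var _)
    apply D_imp
    · exact D_E (T_var _) (T_var _) (T_var _) (T_var _)
    apply D_imp
    · exact D_forall_fin _ (fun i => D_E (T_var _) (T_var _) (T_var _) (T_var _))
    · exact D_InSp (fun i => T_sub (T_var _) (T_var _)) (T_sub (T_var _) (T_var _))
  · intro x' g h
    have hfrob : ∀ n : ℕ, (∀ f g : MvPolynomial (Fin m) P, (f + g) ^ n = f ^ n + g ^ n) →
        (∀ c : P, c ^ n = c) → ∀ g : MvPolynomial (Fin m) P,
        aeval (fun i => (X i : MvPolynomial (Fin m) P) ^ n) g = g ^ n := by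
      intro n h1 h2 g
      induction g using MvPolynomial.induction_on with
      | C a => rw [← C_pow, h2]; simp
      | add p q hp hq => rw [map_add, hp, hq, h1]
      | mul_X p i hp => rw [map_mul, hp, aeval_X, mul_pow]
    constructor
    · intro H
      -- Frobenius powers
      have hcard : 1 < Fintype.card P := Fintype.one_lt_card
      obtain ⟨p, hchar⟩ := CharP.exists P
      have := hchar
      have : Fact p.Prime := ⟨CharP.char_is_prime P p⟩
      have : CharP (MvPolynomial (Fin m) P) p := inferInstance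
      obtain ⟨e, _, he⟩ := FiniteField.card P p
      have hadd : ∀ k : ℕ, ∀ f g : MvPolynomial (Fin m) P,
          (f + g) ^ (Fintype.card P ^ k) = f ^ (Fintype.card P ^ k) + g ^ (Fintype.card P ^ k) := by
        intro k f g
        rw [he, ← pow_mul]
        exact add_pow_char_pow _ _ _ _
      set d : ℕ := (∑ i, (x' i).totalDegree) + (h - aeval x' g).totalDegree + 1 with hd
      set n : ℕ := Fintype.card P ^ d with hn
      have hdn : d < n := Nat.lt_pow_self hcard
      have h1 := H (X i0 ^ n) (g ^ n) (fun i => X i ^ n)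
        ((Lam_iff i0 i1 hne _).2 ⟨n, rfl, hadd d, fun c => FiniteField.pow_card_pow d c⟩)
        ((E_iff i0 i1 hne _ _ _).2 rfl) (fun i => (E_iff i0 i1 hne _ _ _).2 rfl)
      have h2 := InSp_aeval x' (fun i => (X i : MvPolynomial (Fin m) P) ^ n) g
      rw [hfrob n (hadd d) (fun c => FiniteField.pow_card_pow d c)] at h2
      have h3 : InSp (fun i => x' i - X i ^ n) (h - aeval x' g) := by
        have h4 := InSp_add h1 (InSp_mul h2 (-1))
        have e : h - g ^ n + (aeval x' g - g ^ n) * -1 = h - aeval x' g := by ring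
        rwa [e] at h4
      obtain ⟨u, hu⟩ := h3
      have := gb n x' (fun i => by
        have : (x' i).totalDegree ≤ ∑ i, (x' i).totalDegree :=
          Finset.single_le_sum (f := fun i => (x' i).totalDegree) (fun _ _ => Nat.zero_le _)
            (Finset.mem_univ i)
        omega) (h - aeval x' g) (by omega) u hu
      exact sub_eq_zero.1 this
    · rintro rfl T' G W hT hG hW
      obtain ⟨n, rfl, h1, h2⟩ := (Lam_iff i0 i1 hne _).1 hT
      rw [E_iff i0 i1 hne] at hG
      simp only [E_iff i0 i1 hne] at hW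
      have hW' : W = fun i => X i ^ n := funext hW
      rw [hG, hW', ← hfrob n h1 h2]
      exact InSp_aeval _ _ _

end two

theorem concl_finite [Fintype P] (hm : 2 ≤ m) : Concl P m :=
  concl_finite_aux (⟨0, by omega⟩ : Fin m) (⟨1, by omega⟩ : Fin m) (by simp)

theorem concl_all (P : Type) [Field P] (m : ℕ) : Concl P m := by
  rcases finite_or_infinite P with h | h
  · have := Fintype.ofFinite P
    rcases m with _ | _ | m
    · exact concl_zero
    · exact concl_one
    · exact concl_finite (by omega)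
  · exact concl_infinite

end Pool.Agent.Y563.PolyFinite
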