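import Mathlib

/-!
Elements of the ideal generated by the polynomials `y_i - X_i ^ n`, where every `y_i` has total
degree less than `n`: the only one of total degree less than `n` is zero.
-/

set_option autoImplicit false

namespace Pool.Agent.Y563.PolyGB

open MvPolynomial

variable {P : Type} [Field P] {m : ℕ}

/-- all monomials have degree less than `d` -/
def DL (p : MvPolynomial (Fin m) P) (d : ℕ) : Prop := ∀ μ ∈ p.support, μ.degree < d

lemma DL_of_lt {p : MvPolynomial (Fin m) P} {d : ℕ} (h : p.totalDegree < d) : DL p d := by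
  intro μ hμ
  have := MvPolynomial.le_totalDegree hμ
  rw [Finsupp.degree_eq_sum] 
  rw [Finsupp.sum_fintype _ _ (fun _ => rfl)] at this
  omega

lemma DL_mul {p q : MvPolynomial (Fin m) P} {d e : ℕ} (hp : DL p d) (hq : q.totalDegree ≤ e) :
    DL (p * q) (d + e) := by
  classical
  intro μ hμ
  have h1 := MvPolynomial.support_mul p q hμ
  rw [Finset.mem_add] at h1
  obtain ⟨a, ha, b, hb, rfl⟩ := h1
  have h2 := hp a ha
  have h3 : b.degree < e + 1 := DL_of_lt (by omega : q.totalDegree < e + 1) b hb
  rw [map_add]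
  omega

lemma DL_add {p q : MvPolynomial (Fin m) P} {d : ℕ} (hp : DL p d) (hq : DL q d) :
    DL (p + q) d := by
  classical
  intro μ hμ
  have h1 := MvPolynomial.support_add hμ
  rw [Finset.mem_union] at h1
  rcases h1 with h | h
  · exact hp μ h
  · exact hq μ h

lemma DL_zero (d : ℕ) : DL (0 : MvPolynomial (Fin m) P) d := by
  intro μ hμ
  simp at hμ

lemma DL_mono {p : MvPolynomial (Fin m) P} {d e : ℕ} (hp : DL p d) (h : d ≤ e) : DL p e :=
  fun μ hμ => lt_of_lt_of_le (hp μ hμ) h

lemma DL_sum {ι : Type} (I : Finset ι) (p : ι → MvPolynomial (Fin m) P) {d : ℕ}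
    (hp : ∀ i ∈ I, DL (p i) d) : DL (∑ i ∈ I, p i) d := by
  classical
  induction I using Finset.induction_on with
  | empty => simpa using DL_zero d
  | insert a I ha ih =>
    rw [Finset.sum_insert ha]
    exact DL_add (hp a (Finset.mem_insert_self _ _))
      (ih (fun i hi => hp i (Finset.mem_insert_of_mem hi)))

lemma DL_coeff {p : MvPolynomial (Fin m) P} {d : ℕ} (hp : DL p d) (μ : Fin m →₀ ℕ)
    (h : d ≤ μ.degree) : coeff μ p = 0 := by
  by_contra hne
  have := hp μ (MvPolynomial.mem_support_iff.2 hne)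
  omega

/-- geometric sum -/
noncomputable def Q (n K : ℕ) (y : Fin m → MvPolynomial (Fin m) P) (i : Fin m) :
    MvPolynomial (Fin m) P :=
  ∑ k ∈ Finset.range K, (X i ^ n) ^ k * y i ^ (K - 1 - k)

lemma Q_mul (n K : ℕ) (y : Fin m → MvPolynomial (Fin m) P) (i : Fin m) :
    Q n K y i * (X i ^ n - y i) = (X i ^ n) ^ K - y i ^ K :=
  (Commute.all _ _).geom_sum₂_mul K

lemma totalDegree_Xpow (i : Fin m) (a b : ℕ) :
    (((X i : MvPolynomial (Fin m) P) ^ a) ^ b).totalDegree ≤ a * b := by
  rw [← pow_mul]
  calc ((X i : MvPolynomial (Fin m) P) ^ (a * b)).totalDegree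
      ≤ (a * b) * (X i : MvPolynomial (Fin m) P).totalDegree := totalDegree_pow _ _
    _ = a * b := by rw [totalDegree_X, mul_one]

lemma Q_top (n K : ℕ) (y : Fin m → MvPolynomial (Fin m) P) (hy : ∀ i, (y i).totalDegree < n)
    (i : Fin m) : DL (Q n (K + 1) y i - (X i ^ n) ^ K) (n * K) := by
  unfold Q
  rw [Finset.sum_range_succ]
  have h0 : (X i ^ n : MvPolynomial (Fin m) P) ^ K * y i ^ (K + 1 - 1 - K) = (X i ^ n) ^ K := by
    simp
  rw [h0, add_sub_cancel_right]
  apply DL_sum
  intro k hk
  rw [Finset.mem_range] at hk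
  apply DL_of_lt
  have h1 := totalDegree_mul ((X i ^ n : MvPolynomial (Fin m) P) ^ k) (y i ^ (K + 1 - 1 - k))
  have h2 := totalDegree_Xpow (P := P) i n k
  have h3 := totalDegree_pow (y i) (K + 1 - 1 - k)
  have h4 : (K + 1 - 1 - k) * (y i).totalDegree ≤ (K + 1 - 1 - k) * (n - 1) :=
    Nat.mul_le_mul_left _ (by have := hy i; omega)
  have h5 : n * k + (K + 1 - 1 - k) * (n - 1) < n * K := by
    obtain ⟨c, rfl⟩ := Nat.exists_eq_add_of_lt hk
    obtain ⟨n', rfl⟩ : ∃ n', n = n' + 1 := ⟨n - 1, by have := hy i; omega⟩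
    have : k + c + 1 + 1 - 1 - k = c + 1 := by omega
    rw [this]
    simp only [Nat.add_sub_cancel]
    nlinarith
  omega

lemma Q_deg (n K : ℕ) (y : Fin m → MvPolynomial (Fin m) P) (hy : ∀ i, (y i).totalDegree < n)
    (i : Fin m) : (Q n (K + 1) y i).totalDegree ≤ n * K := by
  unfold Q
  apply totalDegree_finsetSum_le
  intro k hk
  rw [Finset.mem_range] at hk
  have h1 := totalDegree_mul ((X i ^ n : MvPolynomial (Fin m) P) ^ k) (y i ^ (K + 1 - 1 - k))
  have h2 := totalDegree_Xpow (P := P) i n k
  have h3 := totalDegree_pow (y i) (K + 1 - 1 - k)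
  have h4 : (K + 1 - 1 - k) * (y i).totalDegree ≤ (K + 1 - 1 - k) * n :=
    Nat.mul_le_mul_left _ (by have := hy i; omega)
  have h5 : n * k + (K + 1 - 1 - k) * n = n * K := by
    obtain ⟨c, rfl⟩ := Nat.exists_eq_add_of_le (Nat.lt_succ_iff.1 hk)
    have : k + c + 1 - 1 - k = c := by omega
    rw [this]
    ring
  omega

lemma prod_deg (n K : ℕ) (y : Fin m → MvPolynomial (Fin m) P) (hy : ∀ i, (y i).totalDegree < n)
    (s : Finset (Fin m)) : (∏ i ∈ s, Q n (K + 1) y i).totalDegree ≤ s.card * (n * K) := by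
  calc (∏ i ∈ s, Q n (K + 1) y i).totalDegree ≤ ∑ i ∈ s, (Q n (K + 1) y i).totalDegree :=
        totalDegree_finsetProd _ _
    _ ≤ ∑ i ∈ s, (n * K) := Finset.sum_le_sum (fun i _ => Q_deg n K y hy i)
    _ = s.card * (n * K) := by rw [Finset.sum_const, smul_eq_mul]

lemma prod_top (n K : ℕ) (y : Fin m → MvPolynomial (Fin m) P) (hy : ∀ i, (y i).totalDegree < n)
    (s : Finset (Fin m)) :
    DL (∏ i ∈ s, Q n (K + 1) y i - ∏ i ∈ s, (X i ^ n) ^ K) (s.card * (n * K)) := by
  classical
  induction s using Finset.induction_on with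
  | empty => simpa using DL_zero _
  | insert a s ha ih =>
    rw [Finset.prod_insert ha, Finset.prod_insert ha, Finset.card_insert_of_notMem ha]
    have h1 : Q n (K + 1) y a * ∏ i ∈ s, Q n (K + 1) y i - (X a ^ n) ^ K * ∏ i ∈ s, (X i ^ n) ^ K
        = (∏ i ∈ s, Q n (K + 1) y i - ∏ i ∈ s, (X i ^ n) ^ K) * (X a ^ n) ^ K +
          (Q n (K + 1) y a - (X a ^ n) ^ K) * ∏ i ∈ s, Q n (K + 1) y i := by ring
    rw [h1]
    apply DL_add
    · have := DL_mul ih (totalDegree_Xpow (P := P) a n K)
      exact DL_mono this (by ring_nf; rfl)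
    · have := DL_mul (Q_top n K y hy a) (prod_deg n K y hy s)
      exact DL_mono this (by ring_nf; rfl)

theorem gb (n : ℕ) (y : Fin m → MvPolynomial (Fin m) P) (hy : ∀ i, (y i).totalDegree < n)
    (r : MvPolynomial (Fin m) P) (hr : r.totalDegree < n)
    (u : Fin m → MvPolynomial (Fin m) P) (hu : r = ∑ i, u i * (y i - X i ^ n)) : r = 0 := by
  classical
  by_contra hne
  -- a monomial of r
  obtain ⟨α, hα, hαd⟩ : ∃ α ∈ r.support, α.degree = r.totalDegree := by
    have hsupp : r.support.Nonempty := by
      rw [Finset.nonempty_iff_ne_empty]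
      intro h
      exact hne (MvPolynomial.support_eq_empty.1 h)
    obtain ⟨α, hα, h⟩ := Finset.exists_mem_eq_sup r.support hsupp (fun s => s.sum fun _ e => e)
    refine ⟨α, hα, ?_⟩
    unfold MvPolynomial.totalDegree
    rw [h, Finsupp.degree_eq_sum, Finsupp.sum_fintype _ _ (fun _ => rfl)]
  have hαi : ∀ i, α i < n := by
    intro i
    have : α i ≤ α.degree := Finsupp.le_degree i α
    omega
  set K : ℕ := ∑ i, (u i).totalDegree + n with hK
  -- exponent vectors
  let γ : Fin m →₀ ℕ := Finsupp.equivFunOnFinite.symm (fun i => n - 1 - α i)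
  let κ : Fin m →₀ ℕ := Finsupp.equivFunOnFinite.symm (fun _ => n * K)
  let μ : Fin m →₀ ℕ := Finsupp.equivFunOnFinite.symm (fun _ => n * (K + 1) - 1)
  have hsum : α + (γ + κ) = μ := by
    ext i
    simp only [Finsupp.add_apply, γ, κ, μ, Finsupp.equivFunOnFinite_symm_apply_apply]
    have := hαi i
    have e : n * (K + 1) = n * K + n := by ring
    rw [e]
    omega
  have hκ : (∏ i : Fin m, (X i ^ n : MvPolynomial (Fin m) P) ^ K) = monomial κ 1 := by
    rw [MvPolynomial.monomial_eq, C_1, one_mul, Finsupp.prod_fintype _ _ (fun _ => pow_zero _)]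
    apply Finset.prod_congr rfl
    intro i _
    simp only [κ, Finsupp.equivFunOnFinite_symm_apply_apply]
    rw [pow_mul]
  have hdegμ : μ.degree = m * (n * (K + 1) - 1) := by
    rw [Finsupp.degree_eq_sum]
    simp [μ]
  have hdegsum : μ.degree = α.degree + γ.degree + m * (n * K) := by
    rw [← hsum, map_add, map_add]
    have : κ.degree = m * (n * K) := by
      rw [Finsupp.degree_eq_sum]
      simp [κ]
    omega
  set M : MvPolynomial (Fin m) P := ∏ i, Q n (K + 1) y i with hM
  have hMtop := prod_top n K y hy Finset.univ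
  rw [← hM, hκ, Finset.card_fin] at hMtop
  -- first computation
  have hA : coeff μ (r * monomial γ 1 * M) = coeff α r := by
    have e1 : r * monomial γ 1 * M = r * monomial (γ + κ) 1 + (M - monomial κ 1) * (r * monomial γ 1) := by
      have : (monomial (γ + κ) (1 : P)) = monomial γ 1 * monomial κ 1 := by
        rw [monomial_mul, one_mul]
      rw [this]
      ring
    rw [e1, coeff_add]
    have e2 : coeff μ (r * monomial (γ + κ) 1) = coeff α r := by
      rw [← hsum, coeff_mul_monomial, mul_one]
    have e3 : coeff μ ((M - monomial κ 1) * (r * monomial γ 1)) = 0 := by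
      have hd : (r * monomial γ (1 : P)).totalDegree ≤ α.degree + γ.degree := by
        refine (totalDegree_mul _ _).trans ?_
        rw [hαd]
        apply Nat.add_le_add_left
        refine (totalDegree_monomial_le _ _).trans ?_
        rw [Finsupp.degree_eq_sum, Finsupp.sum_fintype _ _ (fun _ => rfl)]
        simp
      apply DL_coeff (DL_mul hMtop hd)
      omega
    rw [e2, e3, add_zero]
  -- second computation
  have hB : coeff μ (r * monomial γ 1 * M) = 0 := by
    rw [hu, Finset.sum_mul, Finset.sum_mul, coeff_sum]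
    apply Finset.sum_eq_zero
    intro i _
    have e1 : M = Q n (K + 1) y i * ∏ j ∈ Finset.univ.erase i, Q n (K + 1) y j := by
      rw [hM, Finset.mul_prod_erase _ _ (Finset.mem_univ i)]
    have e2 : u i * (y i - X i ^ n) * monomial γ 1 * M =
        u i * monomial γ 1 * y i ^ (K + 1) * (∏ j ∈ Finset.univ.erase i, Q n (K + 1) y j)
        - (u i * monomial γ 1 * (∏ j ∈ Finset.univ.erase i, Q n (K + 1) y j)) *
          monomial (Finsupp.single i (n * (K + 1))) 1 := by
      have e3 : (monomial (Finsupp.single i (n * (K + 1))) (1 : P)) = (X i ^ n) ^ (K + 1) := by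
        rw [← pow_mul, X_pow_eq_monomial]
      rw [e3, e1]
      have e4 := Q_mul n (K + 1) y i
      have e5 : (X i ^ n : MvPolynomial (Fin m) P) ^ (K + 1) =
        Q n (K + 1) y i * (X i ^ n - y i) + y i ^ (K + 1) := by rw [e4]; ring
      rw [e5]
      ring
    rw [e2, coeff_sub]
    have e6 : coeff μ ((u i * monomial γ 1 * (∏ j ∈ Finset.univ.erase i, Q n (K + 1) y j)) *
          monomial (Finsupp.single i (n * (K + 1))) 1) = 0 := by
      rw [coeff_mul_monomial', if_neg]
      intro hle
      have := hle i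
      simp only [Finsupp.single_eq_same, μ, Finsupp.equivFunOnFinite_symm_apply_apply] at this
      have hn : 0 < n := by have := hy i; omega
      have : 0 < n * (K + 1) := by positivity
      omega
    have e7 : coeff μ (u i * monomial γ 1 * y i ^ (K + 1) *
        (∏ j ∈ Finset.univ.erase i, Q n (K + 1) y j)) = 0 := by
      have d1 : (u i).totalDegree ≤ ∑ i, (u i).totalDegree :=
        Finset.single_le_sum (f := fun i => (u i).totalDegree) (fun _ _ => Nat.zero_le _)
          (Finset.mem_univ i)
      have d2 : (monomial γ (1 : P)).totalDegree ≤ m * (n - 1) := by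
        refine (totalDegree_monomial_le _ _).trans ?_
        rw [Finsupp.sum_fintype _ _ (fun _ => rfl)]
        calc ∑ i, γ i ≤ ∑ _i : Fin m, (n - 1) := by
              apply Finset.sum_le_sum
              intro i _
              simp only [γ, Finsupp.equivFunOnFinite_symm_apply_apply]
              omega
          _ = m * (n - 1) := by simp
      have d3 : (y i ^ (K + 1)).totalDegree ≤ (K + 1) * (n - 1) := by
        refine (totalDegree_pow _ _).trans ?_
        apply Nat.mul_le_mul_left
        have := hy i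
        omega
      have d4 := prod_deg n K y hy (Finset.univ.erase i)
      rw [Finset.card_erase_of_mem (Finset.mem_univ i), Finset.card_fin] at d4
      have hm : 1 ≤ m := by have := i.2; omega
      have d5 : (u i * monomial γ 1 * y i ^ (K + 1) *
        (∏ j ∈ Finset.univ.erase i, Q n (K + 1) y j)).totalDegree < μ.degree := by
        refine lt_of_le_of_lt (totalDegree_mul _ _) ?_
        refine lt_of_le_of_lt (Nat.add_le_add_right (totalDegree_mul _ _) _) ?_
        refine lt_of_le_of_lt (Nat.add_le_add_right (Nat.add_le_add_right (totalDegree_mul _ _) _) _) ?_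
        refine lt_of_le_of_lt (Nat.add_le_add (Nat.add_le_add (Nat.add_le_add d1 d2) d3) d4) ?_
        rw [hdegμ]
        have hn : 0 < n := by have := hy i; omega
        obtain ⟨n', rfl⟩ : ∃ n', n = n' + 1 := ⟨n - 1, by omega⟩
        obtain ⟨m', rfl⟩ : ∃ m', m = m' + 1 := ⟨m - 1, by omega⟩
        have e8 : (n' + 1) * (K + 1) - 1 = n' * (K + 1) + K := by
          have : (n' + 1) * (K + 1) = n' * (K + 1) + K + 1 := by ring
          omega
        rw [e8]
        simp only [Nat.add_sub_cancel]
        have hK' : ∑ i, (u i).totalDegree = K - (n' + 1) := by omega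
        have hK2 : n' + 1 ≤ K := by omega
        obtain ⟨c, hc⟩ := Nat.exists_eq_add_of_le hK2
        rw [hK', hc]
        have : n' + 1 + c - (n' + 1) = c := by omega
        rw [this]
        ring_nf
        nlinarith
      exact DL_coeff (DL_of_lt d5) μ le_rfl
    rw [e6, e7, sub_zero]
  rw [hA] at hB
  exact (MvPolynomial.mem_support_iff.1 hα) hB

end Pool.Agent.Y563.PolyGB
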