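import Pool.Agent.Y563.PolyHomog
import Pool.Agent.Y563.PolyGB

/-!
The family of all endomorphisms of `P[X_1..X_m]` is definable from the generators.
-/

set_option autoImplicit false

namespace Pool.Agent.Y563.PolyCases

open MvPolynomial Pool.Agent.Y563.RingDef Pool.Agent.Y563.PolyHomog

variable {P : Type} [Field P] {m : ℕ}

/-- `p` is in the ideal generated by the `f j` -/
def InSp (f : Fin m → MvPolynomial (Fin m) P) (p : MvPolynomial (Fin m) P) : Prop :=
  ∃ u : Fin m → MvPolynomial (Fin m) P, p = ∑ j, u j * f j

lemma D_InSp {α : Type} {f : Fin m → (α → MvPolynomial (Fin m) P) → MvPolynomial (Fin m) P}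
    {p : (α → MvPolynomial (Fin m) P) → MvPolynomial (Fin m) P}
    (hf : ∀ j, T (kap P m) α (f j)) (hp : T (kap P m) α p) :
    D (kap P m) α (fun v => InSp (fun j => f j v) (p v)) := by
  unfold InSp
  apply D_exB
  apply D_eq (T_lift hp Sum.inl)
  apply T_sum
  intro j
  exact T_mul (T_var (Sum.inr j)) (T_lift (hf j) Sum.inl)

lemma InSp_zero (f : Fin m → MvPolynomial (Fin m) P) : InSp f 0 := ⟨fun _ => 0, by simp⟩

lemma InSp_add {f : Fin m → MvPolynomial (Fin m) P} {p q : MvPolynomial (Fin m) P}
    (hp : InSp f p) (hq : InSp f q) : InSp f (p + q) := by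
  obtain ⟨u, hu⟩ := hp
  obtain ⟨w, hw⟩ := hq
  refine ⟨fun j => u j + w j, ?_⟩
  rw [hu, hw, ← Finset.sum_add_distrib]
  exact Finset.sum_congr rfl (fun j _ => by ring)

lemma InSp_mul {f : Fin m → MvPolynomial (Fin m) P} {p : MvPolynomial (Fin m) P}
    (hp : InSp f p) (q : MvPolynomial (Fin m) P) : InSp f (p * q) := by
  obtain ⟨u, hu⟩ := hp
  refine ⟨fun j => u j * q, ?_⟩
  rw [hu, Finset.sum_mul]
  exact Finset.sum_congr rfl (fun j _ => by ring)

lemma InSp_gen (f : Fin m → MvPolynomial (Fin m) P) (j : Fin m) : InSp f (f j) := by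
  classical
  refine ⟨fun i => if i = j then 1 else 0, ?_⟩
  simp

/-- substitution congruence -/
lemma InSp_aeval (x w : Fin m → MvPolynomial (Fin m) P) (g : MvPolynomial (Fin m) P) :
    InSp (fun i => x i - w i) (aeval x g - aeval w g) := by
  induction g using MvPolynomial.induction_on with
  | C a => simpa using InSp_zero _
  | add p q hp hq =>
    have : aeval x (p + q) - aeval w (p + q) = (aeval x p - aeval w p) + (aeval x q - aeval w q) := by
      rw [map_add, map_add]; ring
    rw [this]
    exact InSp_add hp hq
  | mul_X p i hp =>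
    have : aeval x (p * X i) - aeval w (p * X i) =
        (aeval x p - aeval w p) * x i + (x i - w i) * aeval w p := by
      rw [map_mul, map_mul, aeval_X, aeval_X]; ring
    rw [this]
    exact InSp_add (InSp_mul hp _) (InSp_mul (InSp_gen (fun i => x i - w i) i) _)

/-! ### infinite fields -/

lemma InSp_eval (a : Fin m → P) (p : MvPolynomial (Fin m) P) :
    InSp (fun j => X j - C (a j)) p ↔ eval a p = 0 := by
  constructor
  · rintro ⟨u, hu⟩
    rw [hu]
    simp
  · intro h
    have h1 := InSp_aeval (X : Fin m → MvPolynomial (Fin m) P) (fun j => C (a j)) p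
    have h2 : aeval (fun j => C (a j)) p = (C (eval a p) : MvPolynomial (Fin m) P) := by
      have : (aeval (fun j => C (a j)) : MvPolynomial (Fin m) P →ₐ[P] MvPolynomial (Fin m) P) =
          (Algebra.ofId P (MvPolynomial (Fin m) P)).comp (aeval a) := by
        apply MvPolynomial.algHom_ext
        intro i
        simp [Algebra.ofId_apply]
      have h3 := DFunLike.congr_fun this p
      rw [h3]
      simp [Algebra.ofId_apply, aeval_eq_eval]
    rw [h2, h] at h1
    simpa using h1

theorem concl_infinite [Infinite P] : Concl P m := by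
  apply framework (fun z x' g h => ∀ a b : Fin m → MvPolynomial (Fin m) P,
    ∀ c : MvPolynomial (Fin m) P,
    (∀ i, IsC (a i)) → ((∀ i, IsC (b i)) → (IsC c → ((∀ i, InSp (fun j => z j - a j) (x' i - b i)) →
      (InSp (fun j => z j - a j) (h - c) → InSp (fun j => z j - b j) (g - c))))))
  · apply D_allB
    apply D_allB
    apply D_all
    apply D_imp
    · exact D_forall_fin _ (fun i => D_isC (T_var _))
    apply D_imp
    · exact D_forall_fin _ (fun i => D_isC (T_var _))
    apply D_imp
    · exact D_isC (T_var _)
    apply D_imp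
    · apply D_forall_fin
      intro i
      exact D_InSp (fun j => T_sub (T_var _) (T_var _)) (T_sub (T_var _) (T_var _))
    apply D_imp
    · exact D_InSp (fun j => T_sub (T_var _) (T_var _)) (T_sub (T_var _) (T_var _))
    · exact D_InSp (fun j => T_sub (T_var _) (T_var _)) (T_sub (T_var _) (T_var _))
  · intro x' g h
    have hcomp : ∀ a : Fin m → P, eval a (aeval x' g) = eval (fun i => eval a (x' i)) g := by
      intro a
      have : (aeval a).comp (aeval x' : MvPolynomial (Fin m) P →ₐ[P] MvPolynomial (Fin m) P)
          = (aeval (fun i => eval a (x' i)) : MvPolynomial (Fin m) P →ₐ[P] P) := by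
        apply MvPolynomial.algHom_ext
        intro i
        simp [aeval_eq_eval]
      have h3 := DFunLike.congr_fun this g
      simpa [aeval_eq_eval] using h3
    constructor
    · intro H
      apply MvPolynomial.funext
      intro a
      have := H (fun i => C (a i)) (fun i => C (eval a (x' i))) (C (eval a h))
        (fun i => (isC_iff _).2 ⟨_, rfl⟩) (fun i => (isC_iff _).2 ⟨_, rfl⟩)
        ((isC_iff _).2 ⟨_, rfl⟩)
        (fun i => by rw [InSp_eval]; simp) (by rw [InSp_eval]; simp)
      rw [InSp_eval] at this
      rw [map_sub, eval_C, sub_eq_zero] at this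
      rw [hcomp, this]
    · intro H a b c ha hb hc hx hh
      simp only [isC_iff] at ha hb hc
      choose a' ha' using ha
      choose b' hb' using hb
      obtain ⟨c', rfl⟩ := hc
      have ea : a = fun i => C (a' i) := funext ha'
      have eb : b = fun i => C (b' i) := funext hb'
      subst ea
      subst eb
      simp only [InSp_eval] at hx hh ⊢
      have e1 : (fun i => eval a' (x' i)) = b' := by
        funext i
        have := hx i
        rw [map_sub, eval_C, sub_eq_zero] at this
        exact this
      rw [map_sub, eval_C, sub_eq_zero] at hh ⊢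
      rw [H, hcomp, e1] at hh
      exact hh

/-! ### few variables -/

theorem concl_zero : Concl P 0 := by
  apply concl_of_gen (fun _ => True) D_true trivial
  intro z _
  exact ⟨AlgEquiv.refl, fun i => i.elim0⟩

theorem concl_one : Concl P 1 := by
  apply concl_of_gen (fun z => ¬ IsC (z 0) ∧ ∀ f, ∃ c, IsC c ∧ z 0 ∣ f - c)
  · apply D_and
    · exact D_not (D_isC (T_var _))
    · apply D_all
      apply D_ex
      apply D_and
      · exact D_isC (T_var _)
      · exact D_dvd (T_var _) (T_sub (T_var _) (T_var _))
  · constructor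
    · rw [isC_iff]
      rintro ⟨a, ha⟩
      have h1 := congrArg totalDegree ha
      rw [totalDegree_X, totalDegree_C] at h1
      omega
    · intro f
      refine ⟨C (eval (fun _ => 0) f), (isC_iff _).2 ⟨_, rfl⟩, ?_⟩
      have h1 : InSp (fun j => X j - C ((fun _ => (0 : P)) j)) (f - C (eval (fun _ => 0) f)) := by
        rw [InSp_eval]; simp
      obtain ⟨u, hu⟩ := h1
      rw [hu]
      simp
  · rintro z ⟨hz1, hz2⟩
    have hdeg : 1 ≤ (z 0).totalDegree := by
      by_contra h
      push Not at h
      apply hz1
      rw [isC_iff]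
      exact ⟨_, totalDegree_eq_zero_iff_eq_C.1 (by omega)⟩
    have hz0 : z 0 ≠ 0 := by
      intro h
      rw [h] at hdeg
      simp at hdeg
    have hsurj : ∀ d : ℕ, ∀ f : MvPolynomial (Fin 1) P, f.totalDegree ≤ d →
        ∃ g : MvPolynomial (Fin 1) P, aeval z g = f := by
      intro d
      induction d with
      | zero =>
        intro f hf
        refine ⟨f, ?_⟩
        rw [totalDegree_eq_zero_iff_eq_C.1 (by omega : f.totalDegree = 0)]
        simp
      | succ d ih =>
        intro f hf
        obtain ⟨c, hc, u, hu⟩ := hz2 f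
        obtain ⟨c', rfl⟩ := (isC_iff c).1 hc
        by_cases hu0 : u = 0
        · refine ⟨C c', ?_⟩
          rw [hu0, mul_zero, sub_eq_zero] at hu
          rw [hu]
          simp
        · have h1 : (f - C c').totalDegree ≤ d + 1 := by
            refine (totalDegree_sub _ _).trans ?_
            rw [totalDegree_C]
            simpa using hf
          rw [hu, totalDegree_mul_of_isDomain hz0 hu0] at h1
          obtain ⟨g, hg⟩ := ih u (by omega)
          refine ⟨C c' + X 0 * g, ?_⟩
          rw [map_add, map_mul, aeval_X, hg]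
          have : f = C c' + z 0 * u := by rw [← hu]; ring
          rw [this]
          simp
    obtain ⟨σ, hσ⟩ := exists_aut (aeval z) (fun f => hsurj _ f le_rfl)
    refine ⟨σ, fun i => ?_⟩
    rw [hσ, aeval_X]

end Pool.Agent.Y563.PolyCases
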