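import Pool.Agent.Y563.RingDef

/-!
Framework: if the family of all `P`-endomorphisms of `P[X_1..X_m]` is uniformly definable with the
generators as parameters, then the polynomial ring is logically homogeneous.
-/

set_option autoImplicit false

namespace Pool.Agent.Y563.PolyHomog

open MvPolynomial Pool.Agent.Y563.RingDef FirstOrder FirstOrder.Language

variable {P : Type} [Field P] {m : ℕ}

attribute [local instance] FirstOrder.Ring.compatibleRingOfRing

/-- the constants -/
noncomputable def kap (P : Type) [Field P] (m : ℕ) : P → MvPolynomial (Fin m) P :=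
  algebraMap P (MvPolynomial (Fin m) P)

/-- first-order way of saying that an element is a constant -/
def IsC (c : MvPolynomial (Fin m) P) : Prop := c = 0 ∨ IsUnit c

lemma isC_iff (c : MvPolynomial (Fin m) P) : IsC c ↔ ∃ a : P, c = C a := by
  unfold IsC
  constructor
  · rintro (h | h)
    · exact ⟨0, by simp [h]⟩
    · rw [MvPolynomial.isUnit_iff_eq_C_of_isReduced] at h
      obtain ⟨r, _, h⟩ := h
      exact ⟨r, h⟩
  · rintro ⟨a, rfl⟩
    by_cases h : a = 0
    · left; simp [h]
    · right
      exact (isUnit_iff_ne_zero.2 h).map C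

lemma D_isC {α : Type} {s : (α → MvPolynomial (Fin m) P) → MvPolynomial (Fin m) P}
    (hs : T (kap P m) α s) : D (kap P m) α (fun v => IsC (s v)) :=
  D_or (D_eq hs T_zero) (D_isUnit hs)

/-- A surjective endomorphism of a Noetherian ring is injective. -/
lemma noeth_inj {R : Type} [CommRing R] [IsNoetherianRing R] (f : R →+* R)
    (hf : Function.Surjective f) : Function.Injective f := by
  let K : ℕ →o Ideal R :=
    { toFun := fun n => RingHom.ker (f ^ n)
      monotone' := by
        intro a b hab x hx
        rw [RingHom.mem_ker] at hx ⊢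
        obtain ⟨c, rfl⟩ := Nat.exists_eq_add_of_le hab
        rw [add_comm, pow_add, RingHom.mul_def, RingHom.comp_apply, hx, map_zero] }
  obtain ⟨n, hn⟩ := monotone_stabilizes_iff_noetherian.2 ‹IsNoetherianRing R› K
  rw [injective_iff_map_eq_zero]
  intro x hx
  have hsurj : Function.Surjective (f ^ n : R →+* R) := by
    clear hn
    induction n with
    | zero => exact fun y => ⟨y, rfl⟩
    | succ n ih =>
      rw [pow_succ, RingHom.mul_def, RingHom.coe_comp]
      exact ih.comp hf
  obtain ⟨y, hy⟩ := hsurj x
  have h1 : y ∈ K (n + 1) := by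
    show y ∈ RingHom.ker (f ^ (n + 1))
    rw [RingHom.mem_ker, pow_succ', RingHom.mul_def, RingHom.comp_apply, hy, hx]
  rw [← hn (n + 1) (Nat.le_succ n)] at h1
  have h2 : (f ^ n) y = 0 := h1
  rw [← hy, h2]

/-- surjective endomorphism gives an automorphism -/
lemma exists_aut (φ : MvPolynomial (Fin m) P →ₐ[P] MvPolynomial (Fin m) P)
    (hφ : Function.Surjective φ) :
    ∃ σ : MvPolynomial (Fin m) P ≃ₐ[P] MvPolynomial (Fin m) P, ∀ x, σ x = φ x := by
  have hinj : Function.Injective φ := noeth_inj φ.toRingHom hφ
  exact ⟨AlgEquiv.ofBijective φ ⟨hinj, hφ⟩, fun x => rfl⟩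

lemma surj_of_X (φ : MvPolynomial (Fin m) P →ₐ[P] MvPolynomial (Fin m) P)
    (z : Fin m → MvPolynomial (Fin m) P) (hz : ∀ i, φ (z i) = X i) : Function.Surjective φ := by
  intro p
  refine ⟨aeval z p, ?_⟩
  have : φ.comp (aeval z) = AlgHom.id P _ := by
    apply MvPolynomial.algHom_ext
    intro i
    simp [hz]
  have h2 := DFunLike.congr_fun this p
  simpa using h2

/-- Conclusion of logical homogeneity for given tuples. -/
def Concl (P : Type) [Field P] (m : ℕ) : Prop :=
  ∀ (n : ℕ) (a b : Fin n → MvPolynomial (Fin m) P),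
      (∀ φ : FirstOrder.Language.ring.Formula (Fin n ⊕ P),
        (φ.Realize (Sum.elim a (kap P m)) ↔ φ.Realize (Sum.elim b (kap P m)))) →
      ∃ σ : MvPolynomial (Fin m) P ≃ₐ[P] MvPolynomial (Fin m) P, ∀ i, σ (a i) = b i

lemma T_aeval {α : Type} {k : ℕ} (q : MvPolynomial (Fin k) P)
    (s : Fin k → (α → MvPolynomial (Fin m) P) → MvPolynomial (Fin m) P)
    (hs : ∀ i, T (kap P m) α (s i)) :
    T (kap P m) α (fun v => aeval (fun i => s i v) q) := by
  induction q using MvPolynomial.induction_on with
  | C a =>
    have := T_const (κ := kap P m) (α := α) a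
    simpa [kap] using this
  | add p q hp hq => simpa using T_add hp hq
  | mul_X p i hp => simpa using T_mul hp (hs i)

/-- If a definable set of tuples contains the generators and consists of automorphic images of
the generators, then homogeneity holds. -/
theorem concl_of_gen (Gen : (Fin m → MvPolynomial (Fin m) P) → Prop)
    (hD : D (kap P m) (Fin m) Gen) (hX : Gen X)
    (hG : ∀ z, Gen z → ∃ σ : MvPolynomial (Fin m) P ≃ₐ[P] MvPolynomial (Fin m) P,
      ∀ i, σ (X i) = z i) : Concl P m := by
  intro n a b hab
  have h1 : D (kap P m) (Fin n) (fun v => ∃ z : Fin m → MvPolynomial (Fin m) P,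
      Gen z ∧ ∀ i, v i = aeval z (a i)) := by
    apply D_exB
    apply D_and
    · exact D_lift hD Sum.inr
    · apply D_forall_fin
      intro i
      exact D_eq (T_var (Sum.inl i)) (T_aeval (a i) (fun j u => u (Sum.inr j))
        (fun j => T_var (Sum.inr j)))
  obtain ⟨φ, hφ⟩ := h1
  have h2 := (hab φ).1 ((hφ a).2 ⟨X, hX, fun i => by simp⟩)
  rw [hφ] at h2
  obtain ⟨z, hz, hzb⟩ := h2
  obtain ⟨σ, hσ⟩ := hG z hz
  refine ⟨σ, fun i => ?_⟩
  rw [hzb i]
  have : (σ : MvPolynomial (Fin m) P →ₐ[P] MvPolynomial (Fin m) P) = aeval z := by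
    apply MvPolynomial.algHom_ext
    intro i
    simp [hσ]
  have h3 := DFunLike.congr_fun this (a i)
  simpa using h3

/-- The framework theorem. -/
theorem framework
    (Φ : (Fin m → MvPolynomial (Fin m) P) → (Fin m → MvPolynomial (Fin m) P) →
      MvPolynomial (Fin m) P → MvPolynomial (Fin m) P → Prop)
    (hD : D (kap P m) ((Fin m ⊕ Fin m) ⊕ Fin 2) (fun u =>
      Φ (fun i => u (Sum.inl (Sum.inl i))) (fun i => u (Sum.inl (Sum.inr i)))
        (u (Sum.inr 0)) (u (Sum.inr 1))))
    (hX : ∀ x' g h, Φ X x' g h ↔ h = aeval x' g) : Concl P m := by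
  -- a substitution lemma for Φ
  have hsub : ∀ {α : Type} (z x' : Fin m → (α → MvPolynomial (Fin m) P) → MvPolynomial (Fin m) P)
      (g h : (α → MvPolynomial (Fin m) P) → MvPolynomial (Fin m) P),
      (∀ i, T (kap P m) α (z i)) → (∀ i, T (kap P m) α (x' i)) → T (kap P m) α g →
      T (kap P m) α h → D (kap P m) α (fun v => Φ (fun i => z i v) (fun i => x' i v) (g v) (h v)) := by
    intro α z x' g h hz hx' hg hh
    have := D_subst hD (fun x => match x with
      | Sum.inl (Sum.inl i) => z i
      | Sum.inl (Sum.inr i) => x' i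
      | Sum.inr k => if k = 0 then g else h) (by
        rintro ((i | i) | k)
        · exact hz i
        · exact hx' i
        · by_cases hk : k = 0
          · simpa [hk] using hg
          · simpa [hk] using hh)
    exact this
  let Gen : (Fin m → MvPolynomial (Fin m) P) → Prop := fun z =>
    ∀ x' : Fin m → MvPolynomial (Fin m) P,
      ((∀ g, ∃ h, Φ z x' g h) ∧ (∀ g h h', Φ z x' g h → Φ z x' g h' → h = h')) ∧
      ((∀ g₁ g₂ h₁ h₂, Φ z x' g₁ h₁ → Φ z x' g₂ h₂ →
        Φ z x' (g₁ + g₂) (h₁ + h₂) ∧ Φ z x' (g₁ * g₂) (h₁ * h₂)) ∧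
      ((∀ c, IsC c → Φ z x' c c) ∧ (∀ i, Φ z x' (z i) (x' i))))
  apply concl_of_gen Gen
  · apply D_allB
    apply D_and
    · apply D_and
      · apply D_all
        apply D_ex
        apply hsub <;> intros <;> exact T_var _
      · apply D_all
        apply D_all
        apply D_all
        apply D_imp
        · apply hsub <;> intros <;> exact T_var _
        · apply D_imp
          · apply hsub <;> intros <;> exact T_var _
          · exact D_eq (T_var _) (T_var _)
    · apply D_and
      · apply D_all
        apply D_all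
        apply D_all
        apply D_all
        apply D_imp
        · apply hsub <;> intros <;> exact T_var _
        · apply D_imp
          · apply hsub <;> intros <;> exact T_var _
          · apply D_and
            · apply hsub
              · intro i; exact T_var _
              · intro i; exact T_var _
              · exact T_add (T_var _) (T_var _)
              · exact T_add (T_var _) (T_var _)
            · apply hsub
              · intro i; exact T_var _
              · intro i; exact T_var _
              · exact T_mul (T_var _) (T_var _)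
              · exact T_mul (T_var _) (T_var _)
      · apply D_and
        · apply D_all
          apply D_imp
          · exact D_isC (T_var _)
          · apply hsub <;> intros <;> exact T_var _
        · apply D_forall_fin
          intro i
          apply hsub <;> intros <;> exact T_var _
  · intro x'
    simp only [hX]
    refine ⟨⟨fun g => ⟨_, rfl⟩, ?_⟩, ?_, ?_, ?_⟩
    · intro g h h' e e'; rw [e, e']
    · intro g₁ g₂ h₁ h₂ e₁ e₂
      rw [e₁, e₂]
      simp
    · intro c hc
      obtain ⟨a, rfl⟩ := (isC_iff c).1 hc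
      simp
    · intro i; simp
  · intro z hz
    obtain ⟨⟨htot, hfun⟩, hhom, hconst, hgen⟩ := hz X
    choose f hf using htot
    let φ : MvPolynomial (Fin m) P →ₐ[P] MvPolynomial (Fin m) P :=
      { toFun := f
        map_one' := hfun _ _ _ (hf 1) (hconst 1 ((isC_iff _).2 ⟨1, by simp⟩))
        map_mul' := fun a b => hfun _ _ _ (hf _) (hhom _ _ _ _ (hf a) (hf b)).2
        map_zero' := hfun _ _ _ (hf 0) (hconst 0 ((isC_iff _).2 ⟨0, by simp⟩))
        map_add' := fun a b => hfun _ _ _ (hf _) (hhom _ _ _ _ (hf a) (hf b)).1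
        commutes' := fun r => hfun _ _ _ (hf _) (hconst _ ((isC_iff _).2 ⟨r, rfl⟩)) }
    have hφz : ∀ i, φ (z i) = X i := fun i => hfun _ _ _ (hf _) (hgen i)
    obtain ⟨σ, hσ⟩ := exists_aut φ (surj_of_X φ z hφz)
    refine ⟨σ.symm, fun i => ?_⟩
    rw [AlgEquiv.symm_apply_eq, hσ, hφz]

end Pool.Agent.Y563.PolyHomog
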