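import Mathlib

/-!
A small semantic calculus for first-order definability in commutative rings with a family of
named constants `κ : P → H`.
-/

set_option autoImplicit false

namespace Pool.Agent.Y563.RingDef

open FirstOrder FirstOrder.Language

variable {H : Type} [CommRing H] {P : Type} (κ : P → H)

attribute [local instance] FirstOrder.Ring.compatibleRingOfRing

/-- A predicate on assignments `α → H` given by a ring formula with constants from `P`. -/
def D (α : Type) (S : (α → H) → Prop) : Prop :=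
  ∃ φ : Language.ring.Formula (α ⊕ P), ∀ v : α → H, φ.Realize (Sum.elim v κ) ↔ S v

/-- A function on assignments given by a ring term with constants from `P`. -/
def T (α : Type) (t : (α → H) → H) : Prop :=
  ∃ τ : Language.ring.Term (α ⊕ P), ∀ v : α → H, τ.realize (Sum.elim v κ) = t v

variable {κ} {α β : Type}

lemma T_var (i : α) : T κ α (fun v => v i) := ⟨Term.var (Sum.inl i), fun _ => rfl⟩

lemma T_const (c : P) : T κ α (fun _ => κ c) := ⟨Term.var (Sum.inr c), fun _ => rfl⟩

lemma T_zero : T κ α (fun _ => 0) := ⟨0, fun _ => FirstOrder.Ring.realize_zero _⟩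

lemma T_one : T κ α (fun _ => 1) := ⟨1, fun _ => FirstOrder.Ring.realize_one _⟩

lemma T_add {s t : (α → H) → H} (hs : T κ α s) (ht : T κ α t) : T κ α (fun v => s v + t v) := by
  obtain ⟨σ, hσ⟩ := hs
  obtain ⟨τ, hτ⟩ := ht
  exact ⟨σ + τ, fun v => by rw [FirstOrder.Ring.realize_add, hσ, hτ]⟩

lemma T_mul {s t : (α → H) → H} (hs : T κ α s) (ht : T κ α t) : T κ α (fun v => s v * t v) := by
  obtain ⟨σ, hσ⟩ := hs
  obtain ⟨τ, hτ⟩ := ht
  exact ⟨σ * τ, fun v => by rw [FirstOrder.Ring.realize_mul, hσ, hτ]⟩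

lemma T_neg {s : (α → H) → H} (hs : T κ α s) : T κ α (fun v => - s v) := by
  obtain ⟨σ, hσ⟩ := hs
  exact ⟨-σ, fun v => by rw [FirstOrder.Ring.realize_neg, hσ]⟩

lemma T_sub {s t : (α → H) → H} (hs : T κ α s) (ht : T κ α t) : T κ α (fun v => s v - t v) := by
  have := T_add hs (T_neg ht)
  simpa [sub_eq_add_neg] using this

lemma T_pow {s : (α → H) → H} (hs : T κ α s) (n : ℕ) : T κ α (fun v => s v ^ n) := by
  induction n with
  | zero => simpa using (T_one (κ := κ) (α := α))
  | succ n ih => simpa [pow_succ] using T_mul ih hs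

lemma T_sum {ι : Type} (I : Finset ι) (s : ι → (α → H) → H) (hs : ∀ i, T κ α (s i)) :
    T κ α (fun v => ∑ i ∈ I, s i v) := by
  classical
  induction I using Finset.induction_on with
  | empty => simpa using (T_zero (κ := κ) (α := α))
  | insert a I ha ih =>
    have := T_add (hs a) ih
    simpa [Finset.sum_insert ha] using this

lemma D_congr {S S' : (α → H) → Prop} (h : D κ α S) (hSS : ∀ v, S v ↔ S' v) : D κ α S' := by
  obtain ⟨φ, hφ⟩ := h
  exact ⟨φ, fun v => (hφ v).trans (hSS v)⟩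

lemma D_eq {s t : (α → H) → H} (hs : T κ α s) (ht : T κ α t) : D κ α (fun v => s v = t v) := by
  obtain ⟨σ, hσ⟩ := hs
  obtain ⟨τ, hτ⟩ := ht
  exact ⟨σ.equal τ, fun v => by rw [Formula.realize_equal, hσ, hτ]⟩

lemma D_not {S : (α → H) → Prop} (h : D κ α S) : D κ α (fun v => ¬ S v) := by
  obtain ⟨φ, hφ⟩ := h
  exact ⟨∼φ, fun v => by rw [Formula.realize_not, hφ]⟩

lemma D_and {S S' : (α → H) → Prop} (h : D κ α S) (h' : D κ α S') :
    D κ α (fun v => S v ∧ S' v) := by
  obtain ⟨φ, hφ⟩ := h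
  obtain ⟨ψ, hψ⟩ := h'
  exact ⟨φ ⊓ ψ, fun v => by rw [Formula.realize_inf, hφ, hψ]⟩

lemma D_or {S S' : (α → H) → Prop} (h : D κ α S) (h' : D κ α S') :
    D κ α (fun v => S v ∨ S' v) := by
  obtain ⟨φ, hφ⟩ := h
  obtain ⟨ψ, hψ⟩ := h'
  exact ⟨φ ⊔ ψ, fun v => by rw [Formula.realize_sup, hφ, hψ]⟩

lemma D_imp {S S' : (α → H) → Prop} (h : D κ α S) (h' : D κ α S') :
    D κ α (fun v => S v → S' v) := by
  obtain ⟨φ, hφ⟩ := h
  obtain ⟨ψ, hψ⟩ := h'
  exact ⟨φ.imp ψ, fun v => by rw [Formula.realize_imp, hφ, hψ]⟩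

lemma D_iff {S S' : (α → H) → Prop} (h : D κ α S) (h' : D κ α S') :
    D κ α (fun v => S v ↔ S' v) := by
  refine D_congr (D_and (D_imp h h') (D_imp h' h)) (fun v => ?_)
  constructor
  · rintro ⟨h1, h2⟩; exact ⟨h1, h2⟩
  · intro h; exact ⟨h.1, h.2⟩

lemma D_true : D κ α (fun _ => True) := D_congr (D_eq T_zero T_zero) (fun v => by simp)

lemma D_forall_fin {ι : Type} [Finite ι] (S : ι → (α → H) → Prop) (h : ∀ i, D κ α (S i)) :
    D κ α (fun v => ∀ i, S i v) := by
  classical
  obtain ⟨_⟩ := nonempty_fintype ι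
  have key : ∀ I : Finset ι, D κ α (fun v => ∀ i ∈ I, S i v) := by
    intro I
    induction I using Finset.induction_on with
    | empty => exact D_congr D_true (fun v => by simp)
    | insert a I ha ih => exact D_congr (D_and (h a) ih) (fun v => by simp)
  exact D_congr (key Finset.univ) (fun v => by simp)

/-- block existential quantifier -/
lemma D_exB [Finite β] {R : (α → H) → (β → H) → Prop}
    (h : D κ (α ⊕ β) (fun u => R (fun i => u (Sum.inl i)) (fun j => u (Sum.inr j)))) :
    D κ α (fun v => ∃ w : β → H, R v w) := by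
  obtain ⟨φ, hφ⟩ := h
  let g : (α ⊕ β) ⊕ P → (α ⊕ P) ⊕ β := fun x =>
    match x with
    | Sum.inl (Sum.inl i) => Sum.inl (Sum.inl i)
    | Sum.inl (Sum.inr j) => Sum.inr j
    | Sum.inr p => Sum.inl (Sum.inr p)
  refine ⟨(φ.relabel g).iExs β, fun v => ?_⟩
  rw [Formula.realize_iExs]
  refine exists_congr (fun w => ?_)
  rw [Formula.realize_relabel]
  have : (Sum.elim (Sum.elim v κ) w ∘ g) = Sum.elim (Sum.elim v w) κ := by
    funext x
    rcases x with (i | j) | p <;> rfl
  rw [this, hφ]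
  rfl

lemma D_allB [Finite β] {R : (α → H) → (β → H) → Prop}
    (h : D κ (α ⊕ β) (fun u => R (fun i => u (Sum.inl i)) (fun j => u (Sum.inr j)))) :
    D κ α (fun v => ∀ w : β → H, R v w) := by
  have h1 := D_exB (R := fun v w => ¬ R v w) (D_not h)
  refine D_congr (D_not h1) (fun v => ?_)
  push Not
  rfl

/-- single existential quantifier -/
lemma D_ex {R : (α → H) → H → Prop}
    (h : D κ (α ⊕ Unit) (fun u => R (fun i => u (Sum.inl i)) (u (Sum.inr ())))) :
    D κ α (fun v => ∃ x : H, R v x) := by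
  have h1 := D_exB (κ := κ) (α := α) (β := Unit) (R := fun v w => R v (w ())) h
  refine D_congr h1 (fun v => ?_)
  constructor
  · rintro ⟨w, hw⟩; exact ⟨w (), hw⟩
  · rintro ⟨x, hx⟩; exact ⟨fun _ => x, hx⟩

lemma D_all {R : (α → H) → H → Prop}
    (h : D κ (α ⊕ Unit) (fun u => R (fun i => u (Sum.inl i)) (u (Sum.inr ())))) :
    D κ α (fun v => ∀ x : H, R v x) := by
  have h1 := D_ex (R := fun v w => ¬ R v w) (D_not h)
  refine D_congr (D_not h1) (fun v => ?_)
  push Not
  rfl

lemma T_lift {β : Type} {s : (α → H) → H} (hs : T κ α s) (f : α → β) :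
    T κ β (fun u => s (fun i => u (f i))) := by
  obtain ⟨σ, hσ⟩ := hs
  refine ⟨σ.relabel (Sum.map f id), fun v => ?_⟩
  show _ = s (fun i => v (f i))
  rw [Term.realize_relabel, ← hσ]
  congr 1
  funext x
  rcases x with i | p <;> rfl

lemma D_dvd {s t : (α → H) → H} (hs : T κ α s) (ht : T κ α t) : D κ α (fun v => s v ∣ t v) := by
  exact D_ex (R := fun v x => t v = s v * x)
    (D_eq (T_lift ht Sum.inl) (T_mul (T_lift hs Sum.inl) (T_var (Sum.inr ()))))

lemma D_lift {β : Type} {S : (α → H) → Prop} (hS : D κ α S) (f : α → β) :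
    D κ β (fun u => S (fun i => u (f i))) := by
  obtain ⟨φ, hφ⟩ := hS
  refine ⟨φ.relabel (Sum.map f id), fun v => ?_⟩
  show _ ↔ S (fun i => v (f i))
  rw [Formula.realize_relabel, ← hφ]
  have : (Sum.elim v κ ∘ Sum.map f id) = Sum.elim (fun i => v (f i)) κ := by
    funext x
    rcases x with i | p <;> rfl
  rw [this]

/-- substitute terms for variables of a definable predicate -/
lemma D_subst {β : Type} {S : (α → H) → Prop} (hS : D κ α S) (t : α → (β → H) → H)
    (ht : ∀ i, T κ β (t i)) : D κ β (fun u => S (fun i => t i u)) := by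
  obtain ⟨φ, hφ⟩ := hS
  choose τ hτ using ht
  refine ⟨BoundedFormula.subst φ (Sum.elim τ (fun p => Term.var (Sum.inr p))), fun v => ?_⟩
  rw [Formula.Realize, BoundedFormula.realize_subst]
  have : (fun a => (Sum.elim τ (fun p => Term.var (Sum.inr p)) a).realize (Sum.elim v κ))
      = Sum.elim (fun i => t i v) κ := by
    funext x
    rcases x with i | p
    · exact hτ i v
    · rfl
  rw [this]
  exact hφ _

lemma D_isUnit {s : (α → H) → H} (hs : T κ α s) : D κ α (fun v => IsUnit (s v)) := by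
  refine D_congr (D_dvd hs T_one) (fun v => ?_)
  exact isUnit_iff_dvd_one.symm

end Pool.Agent.Y563.RingDef
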